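import Mathlib

/-! # Piecewise linear interpolation of sequences and perturbed square grids -/

namespace Pool.Agent.helper97.Tiling

open Set

variable {V : Type*} [NormedAddCommGroup V] [NormedSpace ℝ V]

/-- Linear interpolation of a sequence indexed by the integers. -/
noncomputable def lerp (a : ℤ → V) (x : ℝ) : V :=
  a ⌊x⌋ + Int.fract x • (a (⌊x⌋ + 1) - a ⌊x⌋)

theorem lerp_of_mem (a : ℤ → V) {k : ℤ} {x : ℝ} (h0 : (k : ℝ) ≤ x) (h1 : x ≤ k + 1) :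
    lerp a x = a k + (x - k) • (a (k + 1) - a k) := by
  rcases h1.lt_or_eq with h | h
  · have hf : ⌊x⌋ = k := Int.floor_eq_iff.mpr ⟨h0, h⟩
    unfold lerp
    rw [hf, Int.fract, hf]
  · have hf : ⌊x⌋ = k + 1 := by
      rw [h]
      have : ((k : ℝ) + 1) = ((k + 1 : ℤ) : ℝ) := by push_cast; ring
      rw [this, Int.floor_intCast]
    unfold lerp
    rw [Int.fract, hf, h]
    push_cast
    simp

theorem lerp_int (a : ℤ → V) (k : ℤ) : lerp a (k : ℝ) = a k := by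
  rw [lerp_of_mem a (le_refl (k : ℝ)) (by linarith)]
  simp

theorem lerp_sub (a b : ℤ → V) (x : ℝ) : lerp (fun i => a i - b i) x = lerp a x - lerp b x := by
  unfold lerp
  module

theorem norm_lerp_le {a : ℤ → V} {C : ℝ} (h : ∀ k, ‖a k‖ ≤ C) (x : ℝ) : ‖lerp a x‖ ≤ C := by
  have h0 := Int.fract_nonneg x
  have h1 := (Int.fract_lt_one x).le
  have e : lerp a x = (1 - Int.fract x) • a ⌊x⌋ + Int.fract x • a (⌊x⌋ + 1) := by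
    unfold lerp
    rw [smul_sub, sub_smul, one_smul]
    abel
  rw [e]
  calc ‖(1 - Int.fract x) • a ⌊x⌋ + Int.fract x • a (⌊x⌋ + 1)‖
      ≤ ‖(1 - Int.fract x) • a ⌊x⌋‖ + ‖Int.fract x • a (⌊x⌋ + 1)‖ := norm_add_le _ _
    _ = (1 - Int.fract x) * ‖a ⌊x⌋‖ + Int.fract x * ‖a (⌊x⌋ + 1)‖ := by
        rw [norm_smul, norm_smul, Real.norm_of_nonneg (by linarith), Real.norm_of_nonneg h0]
    _ ≤ (1 - Int.fract x) * C + Int.fract x * C := by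
        gcongr
        · exact h _
        · exact h _
    _ = C := by ring

omit [NormedSpace ℝ V] in
theorem norm_sub_le_of_steps {a : ℤ → V} {δ : ℝ} (h : ∀ k, ‖a (k + 1) - a k‖ ≤ δ) (m : ℤ) (n : ℕ) :
    ‖a (m + n) - a m‖ ≤ δ * n := by
  induction n with
  | zero => simp
  | succ n ih =>
    have e : a (m + ((n + 1 : ℕ) : ℤ)) - a m = (a (m + n + 1) - a (m + n)) + (a (m + n) - a m) := by
      push_cast
      rw [← add_assoc]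
      abel
    rw [e]
    calc _ ≤ ‖a (m + n + 1) - a (m + n)‖ + ‖a (m + n) - a m‖ := norm_add_le _ _
      _ ≤ δ + δ * n := add_le_add (h _) ih
      _ = δ * ((n + 1 : ℕ) : ℝ) := by push_cast; ring

theorem lerp_lip_aux {a : ℤ → V} {δ : ℝ} (h : ∀ k, ‖a (k + 1) - a k‖ ≤ δ) {x y : ℝ} (hxy : x ≤ y) :
    ‖lerp a y - lerp a x‖ ≤ δ * (y - x) := by
  have hm0 : (⌊x⌋ : ℝ) ≤ x := Int.floor_le x
  have hm1 : x < ⌊x⌋ + 1 := Int.lt_floor_add_one x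
  have hn0 : (⌊y⌋ : ℝ) ≤ y := Int.floor_le y
  have hn1 : y < ⌊y⌋ + 1 := Int.lt_floor_add_one y
  have hmn : ⌊x⌋ ≤ ⌊y⌋ := Int.floor_mono hxy
  have hδ : 0 ≤ δ := (norm_nonneg _).trans (h 0)
  rcases hmn.lt_or_eq with hlt | heq
  · obtain ⟨n, hn⟩ : ∃ n : ℕ, ⌊y⌋ = ⌊x⌋ + 1 + n := by
      refine ⟨(⌊y⌋ - (⌊x⌋ + 1)).toNat, ?_⟩
      have := Int.toNat_of_nonneg (show 0 ≤ ⌊y⌋ - (⌊x⌋ + 1) by omega)
      omega
    have e1 : lerp a x = a ⌊x⌋ + (x - ⌊x⌋) • (a (⌊x⌋ + 1) - a ⌊x⌋) :=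
      lerp_of_mem a hm0 hm1.le
    have e2 : lerp a y = a ⌊y⌋ + (y - ⌊y⌋) • (a (⌊y⌋ + 1) - a ⌊y⌋) :=
      lerp_of_mem a hn0 hn1.le
    have e : lerp a y - lerp a x = (y - ⌊y⌋) • (a (⌊y⌋ + 1) - a ⌊y⌋) + (a ⌊y⌋ - a (⌊x⌋ + 1)) +
        (⌊x⌋ + 1 - x) • (a (⌊x⌋ + 1) - a ⌊x⌋) := by
      rw [e1, e2]
      have : ((⌊x⌋ : ℝ) + 1 - x) • (a (⌊x⌋ + 1) - a ⌊x⌋) = (a (⌊x⌋ + 1) - a ⌊x⌋) -
          (x - ⌊x⌋) • (a (⌊x⌋ + 1) - a ⌊x⌋) := by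
        rw [show (⌊x⌋ : ℝ) + 1 - x = 1 - (x - ⌊x⌋) by ring, sub_smul, one_smul]
      rw [this]
      abel
    rw [e]
    have n1 : ‖(y - ⌊y⌋) • (a (⌊y⌋ + 1) - a ⌊y⌋)‖ ≤ (y - ⌊y⌋) * δ := by
      rw [norm_smul, Real.norm_of_nonneg (by linarith)]
      exact mul_le_mul_of_nonneg_left (h _) (by linarith)
    have n2 : ‖a ⌊y⌋ - a (⌊x⌋ + 1)‖ ≤ δ * n := by
      rw [hn]
      exact norm_sub_le_of_steps h _ _
    have n3 : ‖((⌊x⌋ : ℝ) + 1 - x) • (a (⌊x⌋ + 1) - a ⌊x⌋)‖ ≤ (⌊x⌋ + 1 - x) * δ := by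
      rw [norm_smul, Real.norm_of_nonneg (by linarith)]
      exact mul_le_mul_of_nonneg_left (h _) (by linarith)
    have hnr : (⌊y⌋ : ℝ) = ⌊x⌋ + 1 + n := by exact_mod_cast hn
    calc _ ≤ ‖(y - ⌊y⌋) • (a (⌊y⌋ + 1) - a ⌊y⌋)‖ + ‖a ⌊y⌋ - a (⌊x⌋ + 1)‖ +
          ‖((⌊x⌋ : ℝ) + 1 - x) • (a (⌊x⌋ + 1) - a ⌊x⌋)‖ :=
          (norm_add_le _ _).trans (add_le_add_left (norm_add_le _ _) _)
      _ ≤ (y - ⌊y⌋) * δ + δ * n + (⌊x⌋ + 1 - x) * δ := by linarith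
      _ = δ * (y - x) := by rw [hnr]; ring
  · have e1 : lerp a x = a ⌊x⌋ + (x - ⌊x⌋) • (a (⌊x⌋ + 1) - a ⌊x⌋) :=
      lerp_of_mem a hm0 hm1.le
    have e2 : lerp a y = a ⌊x⌋ + (y - ⌊x⌋) • (a (⌊x⌋ + 1) - a ⌊x⌋) :=
      lerp_of_mem a (hm0.trans hxy) (by rw [heq]; exact hn1.le)
    rw [e1, e2, show a ⌊x⌋ + (y - ⌊x⌋) • (a (⌊x⌋ + 1) - a ⌊x⌋) - (a ⌊x⌋ +
      (x - ⌊x⌋) • (a (⌊x⌋ + 1) - a ⌊x⌋)) = (y - x) • (a (⌊x⌋ + 1) - a ⌊x⌋) by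
        rw [add_sub_add_left_eq_sub, ← sub_smul]; congr 1; ring]
    rw [norm_smul, Real.norm_of_nonneg (by linarith), mul_comm]
    exact mul_le_mul_of_nonneg_right (h _) (by linarith)

theorem lerp_lip {a : ℤ → V} {δ : ℝ} (h : ∀ k, ‖a (k + 1) - a k‖ ≤ δ) (x y : ℝ) :
    ‖lerp a x - lerp a y‖ ≤ δ * |x - y| := by
  rcases le_total x y with hxy | hxy
  · rw [norm_sub_rev, abs_sub_comm, abs_of_nonneg (by linarith : 0 ≤ y - x)]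
    exact lerp_lip_aux h hxy
  · rw [abs_of_nonneg (by linarith : 0 ≤ x - y)]
    exact lerp_lip_aux h hxy

/-- Bilinear interpolation. -/
noncomputable def bilerp (g : ℤ → ℤ → V) (x y : ℝ) : V := lerp (fun i => lerp (g i) y) x

theorem bilerp_lip {g : ℤ → ℤ → V} {δ : ℝ} (h1 : ∀ i j, ‖g (i + 1) j - g i j‖ ≤ δ)
    (h2 : ∀ i j, ‖g i (j + 1) - g i j‖ ≤ δ) (x y x' y' : ℝ) :
    ‖bilerp g x y - bilerp g x' y'‖ ≤ δ * (|x - x'| + |y - y'|) := by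
  have e1 : ‖bilerp g x y - bilerp g x' y‖ ≤ δ * |x - x'| := by
    apply lerp_lip
    intro k
    rw [← lerp_sub]
    exact norm_lerp_le (fun j => h1 k j) y
  have e2 : ‖bilerp g x' y - bilerp g x' y'‖ ≤ δ * |y - y'| := by
    unfold bilerp
    rw [← lerp_sub]
    exact norm_lerp_le (fun i => lerp_lip (h2 i) y y') x'
  calc ‖bilerp g x y - bilerp g x' y'‖
      = ‖(bilerp g x y - bilerp g x' y) + (bilerp g x' y - bilerp g x' y')‖ := by congr 1; abel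
    _ ≤ _ := norm_add_le _ _
    _ ≤ δ * |x - x'| + δ * |y - y'| := add_le_add e1 e2
    _ = _ := by ring

theorem bilerp_vert (g : ℤ → ℤ → V) {i j : ℤ} {y : ℝ} (h0 : (j : ℝ) ≤ y) (h1 : y ≤ j + 1) :
    bilerp g i y = g i j + (y - j) • (g i (j + 1) - g i j) := by
  unfold bilerp
  rw [lerp_int, lerp_of_mem (g i) h0 h1]

theorem bilerp_horiz (g : ℤ → ℤ → V) {i j : ℤ} {x : ℝ} (h0 : (i : ℝ) ≤ x) (h1 : x ≤ i + 1) :
    bilerp g x j = g i j + (x - i) • (g (i + 1) j - g i j) := by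
  unfold bilerp
  rw [lerp_of_mem _ h0 h1, lerp_int, lerp_int]

end Pool.Agent.helper97.Tiling
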