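import Mathlib
import Pool.Agent.helper97.Tiling.Lerp

/-! # Perturbed square grids: the quadrilaterals tile the plane -/

namespace Pool.Agent.helper97.Tiling

open Set
open scoped NNReal

/-- The Euclidean plane. -/
abbrev Plane := EuclideanSpace ℝ (Fin 2)

/-- The point with coordinates `x`, `y`. -/
noncomputable def pt (x y : ℝ) : Plane := !₂[x, y]

@[simp] theorem pt_zero (x y : ℝ) : pt x y 0 = x := rfl
@[simp] theorem pt_one (x y : ℝ) : pt x y 1 = y := rfl

theorem plane_ext {p q : Plane} (h0 : p 0 = q 0) (h1 : p 1 = q 1) : p = q := by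
  ext i
  fin_cases i
  · exact h0
  · exact h1

theorem abs_coord_le (p : Plane) (i : Fin 2) : |p i| ≤ ‖p‖ := by
  have := PiLp.norm_apply_le p i
  rwa [Real.norm_eq_abs] at this

/-- A map from the lattice to the plane with nearly orthonormal steps. -/
structure NearGrid (f : ℤ → ℤ → Plane) : Prop where
  h1 : ∀ i j, ‖f (i + 1) j - f i j - pt 1 0‖ ≤ 1 / 10
  h2 : ∀ i j, ‖f i (j + 1) - f i j - pt 0 1‖ ≤ 1 / 10

/-- The bilinear extension. -/
noncomputable def Psi (f : ℤ → ℤ → Plane) (p : Plane) : Plane :=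
  p + bilerp (fun i j => f i j - pt i j) (p 0) (p 1)

variable {f : ℤ → ℤ → Plane}

theorem NearGrid.psi_approx (hf : NearGrid f) (p q : Plane) :
    ‖Psi f p - Psi f q - (p - q)‖ ≤ 1 / 10 * (|p 0 - q 0| + |p 1 - q 1|) := by
  have e : Psi f p - Psi f q - (p - q) = bilerp (fun i j => f i j - pt i j) (p 0) (p 1) -
      bilerp (fun i j => f i j - pt i j) (q 0) (q 1) := by
    unfold Psi
    abel
  rw [e]
  apply bilerp_lip
  · intro i j
    have : f (i + 1) j - pt ((i + 1 : ℤ) : ℝ) j - (f i j - pt i j) = f (i + 1) j - f i j - pt 1 0 := by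
      apply plane_ext <;> simp <;> ring
    rw [this]
    exact hf.h1 i j
  · intro i j
    have : f i (j + 1) - pt i ((j + 1 : ℤ) : ℝ) - (f i j - pt i j) = f i (j + 1) - f i j - pt 0 1 := by
      apply plane_ext <;> simp <;> ring
    rw [this]
    exact hf.h2 i j

theorem NearGrid.approx (hf : NearGrid f) :
    ApproximatesLinearOn (Psi f) ((ContinuousLinearEquiv.refl ℝ Plane : Plane ≃L[ℝ] Plane) :
      Plane →L[ℝ] Plane) univ (1 / 5) := by
  intro p _ q _
  have h := hf.psi_approx p q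
  have h0 := abs_coord_le (p - q) 0
  have h1 := abs_coord_le (p - q) 1
  simp only [PiLp.sub_apply] at h0 h1
  have e : ((ContinuousLinearEquiv.refl ℝ Plane : Plane ≃L[ℝ] Plane) : Plane →L[ℝ] Plane) (p - q) =
    p - q := rfl
  rw [e]
  have h5 : ((1 / 5 : ℝ≥0) : ℝ) = 1 / 5 := by norm_num
  rw [h5]
  linarith

/-- The bilinear extension is a homeomorphism. -/
noncomputable def NearGrid.homeo (hf : NearGrid f) : Plane ≃ₜ Plane :=
  hf.approx.toHomeomorph (Psi f) (by
    right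
    have : ‖((ContinuousLinearEquiv.refl ℝ Plane).symm : Plane →L[ℝ] Plane)‖₊ = 1 := by
      have : ((ContinuousLinearEquiv.refl ℝ Plane).symm : Plane →L[ℝ] Plane) =
        ContinuousLinearMap.id ℝ Plane := rfl
      rw [this]
      exact ContinuousLinearMap.nnnorm_id
    rw [this, inv_one]
    rw [← NNReal.coe_lt_coe]
    norm_num)

theorem NearGrid.homeo_apply (hf : NearGrid f) (p : Plane) : hf.homeo p = Psi f p := rfl

theorem psi_vert (f : ℤ → ℤ → Plane) {i j : ℤ} {y : ℝ} (h0 : (j : ℝ) ≤ y) (h1 : y ≤ j + 1) :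
    Psi f (pt i y) = f i j + (y - j) • (f i (j + 1) - f i j) := by
  unfold Psi
  rw [pt_zero, pt_one, bilerp_vert _ h0 h1]
  apply plane_ext <;> simp <;> ring

theorem psi_horiz (f : ℤ → ℤ → Plane) {i j : ℤ} {x : ℝ} (h0 : (i : ℝ) ≤ x) (h1 : x ≤ i + 1) :
    Psi f (pt x j) = f i j + (x - i) • (f (i + 1) j - f i j) := by
  unfold Psi
  rw [pt_zero, pt_one, bilerp_horiz _ h0 h1]
  apply plane_ext <;> simp <;> ring

/-- The linear form vanishing on the vertical edge from `f i j` to `f i (j+1)`. -/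
noncomputable def lamV (f : ℤ → ℤ → Plane) (i j : ℤ) (P : Plane) : ℝ :=
  (f i (j + 1) - f i j) 1 * (P - f i j) 0 - (f i (j + 1) - f i j) 0 * (P - f i j) 1

/-- The linear form vanishing on the horizontal edge from `f i j` to `f (i+1) j`. -/
noncomputable def lamH (f : ℤ → ℤ → Plane) (i j : ℤ) (P : Plane) : ℝ :=
  (f (i + 1) j - f i j) 0 * (P - f i j) 1 - (f (i + 1) j - f i j) 1 * (P - f i j) 0

theorem lamV_key (hf : NearGrid f) {i j : ℤ} {p : Plane} {y : ℝ} (h0 : (j : ℝ) ≤ y)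
    (h1 : y ≤ j + 1) (h : |p 1 - y| ≤ |p 0 - i|) :
    |lamV f i j (Psi f p) - (p 0 - i)| ≤ 1 / 2 * |p 0 - i| := by
  have ha := hf.psi_approx p (pt i y)
  rw [pt_zero, pt_one] at ha
  have hb := hf.h2 i j
  set e := Psi f p - Psi f (pt i y) - (p - pt i y) with he
  set u := f i (j + 1) - f i j - pt 0 1 with hu
  have e0 := (abs_coord_le e 0).trans ha
  have e1 := (abs_coord_le e 1).trans ha
  have u0 := (abs_coord_le u 0).trans hb
  have u1 := (abs_coord_le u 1).trans hb
  have hv0 : (f i (j + 1) - f i j) 0 = u 0 := by simp [hu]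
  have hv1 : (f i (j + 1) - f i j) 1 = u 1 + 1 := by simp [hu]
  have hp : Psi f p = f i j + (y - j) • (f i (j + 1) - f i j) + e + (p - pt i y) := by
    rw [he, ← psi_vert f h0 h1]
    abel
  have key : lamV f i j (Psi f p) = (u 1 + 1) * (e 0 + (p 0 - i)) - u 0 * (e 1 + (p 1 - y)) := by
    unfold lamV
    rw [hv0, hv1]
    have c0 : (Psi f p - f i j) 0 = (y - j) * u 0 + e 0 + (p 0 - i) := by
      rw [hp]
      simp only [PiLp.sub_apply, PiLp.add_apply, PiLp.smul_apply, smul_eq_mul, pt_zero]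
      rw [← hv0]
      simp only [PiLp.sub_apply]
      ring
    have c1 : (Psi f p - f i j) 1 = (y - j) * (u 1 + 1) + e 1 + (p 1 - y) := by
      rw [hp]
      simp only [PiLp.sub_apply, PiLp.add_apply, PiLp.smul_apply, smul_eq_mul, pt_one]
      rw [← hv1]
      simp only [PiLp.sub_apply]
      ring
    rw [c0, c1]
    ring
  rw [key]
  set A := |p 0 - i| with hA
  have hA0 : 0 ≤ A := abs_nonneg _
  have e0' : |e 0| ≤ 1 / 5 * A := by linarith
  have e1' : |e 1| ≤ 1 / 5 * A := by linarith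
  have r : (u 1 + 1) * (e 0 + (p 0 - i)) - u 0 * (e 1 + (p 1 - y)) - (p 0 - i) =
      u 1 * e 0 + u 1 * (p 0 - i) + e 0 - u 0 * e 1 - u 0 * (p 1 - y) := by ring
  rw [r]
  have t1 : |u 1 * e 0| ≤ 1 / 10 * (1 / 5 * A) := by
    rw [abs_mul]; gcongr
  have t2 : |u 1 * (p 0 - i)| ≤ 1 / 10 * A := by
    rw [abs_mul]; gcongr
  have t3 : |u 0 * e 1| ≤ 1 / 10 * (1 / 5 * A) := by
    rw [abs_mul]; gcongr
  have t4 : |u 0 * (p 1 - y)| ≤ 1 / 10 * A := by
    rw [abs_mul]; gcongr
  rw [abs_le] at *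
  constructor <;> linarith [t1.1, t1.2, t2.1, t2.2, t3.1, t3.2, t4.1, t4.2, e0'.1, e0'.2]

theorem lamH_key (hf : NearGrid f) {i j : ℤ} {p : Plane} {x : ℝ} (h0 : (i : ℝ) ≤ x)
    (h1 : x ≤ i + 1) (h : |p 0 - x| ≤ |p 1 - j|) :
    |lamH f i j (Psi f p) - (p 1 - j)| ≤ 1 / 2 * |p 1 - j| := by
  have ha := hf.psi_approx p (pt x j)
  rw [pt_zero, pt_one] at ha
  have hb := hf.h1 i j
  set e := Psi f p - Psi f (pt x j) - (p - pt x j) with he
  set u := f (i + 1) j - f i j - pt 1 0 with hu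
  have e0 := (abs_coord_le e 0).trans ha
  have e1 := (abs_coord_le e 1).trans ha
  have u0 := (abs_coord_le u 0).trans hb
  have u1 := (abs_coord_le u 1).trans hb
  have hv0 : (f (i + 1) j - f i j) 0 = u 0 + 1 := by simp [hu]
  have hv1 : (f (i + 1) j - f i j) 1 = u 1 := by simp [hu]
  have hp : Psi f p = f i j + (x - i) • (f (i + 1) j - f i j) + e + (p - pt x j) := by
    rw [he, ← psi_horiz f h0 h1]
    abel
  have key : lamH f i j (Psi f p) = (u 0 + 1) * (e 1 + (p 1 - j)) - u 1 * (e 0 + (p 0 - x)) := by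
    unfold lamH
    rw [hv0, hv1]
    have c0 : (Psi f p - f i j) 0 = (x - i) * (u 0 + 1) + e 0 + (p 0 - x) := by
      rw [hp]
      simp only [PiLp.sub_apply, PiLp.add_apply, PiLp.smul_apply, smul_eq_mul, pt_zero]
      rw [← hv0]
      simp only [PiLp.sub_apply]
      ring
    have c1 : (Psi f p - f i j) 1 = (x - i) * (u 1) + e 1 + (p 1 - j) := by
      rw [hp]
      simp only [PiLp.sub_apply, PiLp.add_apply, PiLp.smul_apply, smul_eq_mul, pt_one]
      rw [← hv1]
      simp only [PiLp.sub_apply]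
      ring
    rw [c0, c1]
    ring
  rw [key]
  set A := |p 1 - j| with hA
  have hA0 : 0 ≤ A := abs_nonneg _
  have e0' : |e 0| ≤ 1 / 5 * A := by linarith
  have e1' : |e 1| ≤ 1 / 5 * A := by linarith
  have r : (u 0 + 1) * (e 1 + (p 1 - j)) - u 1 * (e 0 + (p 0 - x)) - (p 1 - j) =
      u 0 * e 1 + u 0 * (p 1 - j) + e 1 - u 1 * e 0 - u 1 * (p 0 - x) := by ring
  rw [r]
  have t1 : |u 0 * e 1| ≤ 1 / 10 * (1 / 5 * A) := by
    rw [abs_mul]; gcongr
  have t2 : |u 0 * (p 1 - j)| ≤ 1 / 10 * A := by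
    rw [abs_mul]; gcongr
  have t3 : |u 1 * e 0| ≤ 1 / 10 * (1 / 5 * A) := by
    rw [abs_mul]; gcongr
  have t4 : |u 1 * (p 0 - x)| ≤ 1 / 10 * A := by
    rw [abs_mul]; gcongr
  rw [abs_le] at *
  constructor <;> linarith [t1.1, t1.2, t2.1, t2.2, t3.1, t3.2, t4.1, t4.2, e1'.1, e1'.2]

/-- Sign consequences. -/
theorem sign_of_key {L t : ℝ} (h : |L - t| ≤ 1 / 2 * |t|) :
    (0 < t → 0 < L) ∧ (t < 0 → L < 0) ∧ (t = 0 → L = 0) := by
  refine ⟨fun ht => ?_, fun ht => ?_, fun ht => ?_⟩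
  · rw [abs_of_pos ht, abs_le] at h
    linarith [h.1]
  · rw [abs_of_neg ht, abs_le] at h
    linarith [h.2]
  · rw [ht] at h
    simp at h
    linarith [abs_nonneg L, h]

/-- The quadrilateral with lower left corner `f i j`, as an intersection of four half planes. -/
def quad (f : ℤ → ℤ → Plane) (i j : ℤ) : Set Plane :=
  {P | 0 ≤ lamV f i j P ∧ lamV f (i + 1) j P ≤ 0 ∧ 0 ≤ lamH f i j P ∧ lamH f i (j + 1) P ≤ 0}

/-- The closed unit square with lower left corner `(i, j)`. -/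
def sq (i j : ℤ) : Set Plane := {p | (i : ℝ) ≤ p 0 ∧ p 0 ≤ i + 1 ∧ (j : ℝ) ≤ p 1 ∧ p 1 ≤ j + 1}

theorem psi_mem_quad_of_mem (hf : NearGrid f) {i j : ℤ} {p : Plane} (hp : p ∈ sq i j) :
    Psi f p ∈ quad f i j := by
  obtain ⟨a, b, c, d⟩ := hp
  have v1 := sign_of_key (lamV_key hf (i := i) (j := j) (p := p) (y := p 1) c d (by simp))
  have v2 := sign_of_key (lamV_key hf (i := i + 1) (j := j) (p := p) (y := p 1) c d (by simp))
  have w1 := sign_of_key (lamH_key hf (i := i) (j := j) (p := p) (x := p 0) a b (by simp))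
  have w2 := sign_of_key (lamH_key hf (i := i) (j := j + 1) (p := p) (x := p 0) a b (by simp))
  push_cast at v2 w2
  refine ⟨?_, ?_, ?_, ?_⟩
  · rcases a.lt_or_eq with h | h
    · exact (v1.1 (by linarith)).le
    · exact (v1.2.2 (by linarith)).ge
  · rcases b.lt_or_eq with h | h
    · exact (v2.2.1 (by linarith)).le
    · exact (v2.2.2 (by linarith)).le
  · rcases c.lt_or_eq with h | h
    · exact (w1.1 (by linarith)).le
    · exact (w1.2.2 (by linarith)).ge
  · rcases d.lt_or_eq with h | h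
    · exact (w2.2.1 (by linarith)).le
    · exact (w2.2.2 (by linarith)).le

theorem mem_of_psi_mem_quad (hf : NearGrid f) {i j : ℤ} {p : Plane} (hp : Psi f p ∈ quad f i j) :
    p ∈ sq i j := by
  by_contra hn
  obtain ⟨hA, hB, hC, hD⟩ := hp
  -- clamped coordinates
  set x0 : ℝ := max (i : ℝ) (min (p 0) (i + 1)) with hx0
  set y0 : ℝ := max (j : ℝ) (min (p 1) (j + 1)) with hy0
  have x0a : (i : ℝ) ≤ x0 := le_max_left _ _
  have x0b : x0 ≤ i + 1 := max_le (by linarith) (min_le_right _ _)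
  have y0a : (j : ℝ) ≤ y0 := le_max_left _ _
  have y0b : y0 ≤ j + 1 := max_le (by linarith) (min_le_right _ _)
  have xc : (p 0 < i ∧ x0 = i) ∨ (i + 1 < p 0 ∧ x0 = i + 1) ∨ ((i : ℝ) ≤ p 0 ∧ p 0 ≤ i + 1 ∧ x0 = p 0) := by
    rcases lt_or_ge (p 0) i with h | h
    · left
      refine ⟨h, ?_⟩
      rw [hx0, min_eq_left (by linarith), max_eq_left h.le]
    · rcases lt_or_ge ((i : ℝ) + 1) (p 0) with h' | h'
      · right; left
        refine ⟨h', ?_⟩
        rw [hx0, min_eq_right h'.le, max_eq_right (by linarith)]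
      · right; right
        refine ⟨h, h', ?_⟩
        rw [hx0, min_eq_left h', max_eq_right h]
  have yc : (p 1 < j ∧ y0 = j) ∨ (j + 1 < p 1 ∧ y0 = j + 1) ∨ ((j : ℝ) ≤ p 1 ∧ p 1 ≤ j + 1 ∧ y0 = p 1) := by
    rcases lt_or_ge (p 1) j with h | h
    · left
      refine ⟨h, ?_⟩
      rw [hy0, min_eq_left (by linarith), max_eq_left h.le]
    · rcases lt_or_ge ((j : ℝ) + 1) (p 1) with h' | h'
      · right; left
        refine ⟨h', ?_⟩
        rw [hy0, min_eq_right h'.le, max_eq_right (by linarith)]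
      · right; right
        refine ⟨h, h', ?_⟩
        rw [hy0, min_eq_left h', max_eq_right h]
  rcases le_total |p 1 - y0| |p 0 - x0| with hle | hle
  · rcases xc with ⟨h, hx⟩ | ⟨h, hx⟩ | ⟨h, h', hx⟩
    · rw [hx] at hle
      have := sign_of_key (lamV_key hf (i := i) (j := j) (p := p) y0a y0b hle)
      linarith [this.2.1 (by linarith)]
    · rw [hx] at hle
      have := sign_of_key (lamV_key hf (i := i + 1) (j := j) (p := p) y0a y0b (by push_cast; exact hle))
      push_cast at this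
      linarith [this.1 (by linarith)]
    · rw [hx] at hle
      simp at hle
      have : p 1 = y0 := by linarith
      apply hn
      exact ⟨h, h', by rw [this]; exact y0a, by rw [this]; exact y0b⟩
  · rcases yc with ⟨h, hy⟩ | ⟨h, hy⟩ | ⟨h, h', hy⟩
    · rw [hy] at hle
      have := sign_of_key (lamH_key hf (i := i) (j := j) (p := p) x0a x0b hle)
      linarith [this.2.1 (by linarith)]
    · rw [hy] at hle
      have := sign_of_key (lamH_key hf (i := i) (j := j + 1) (p := p) x0a x0b (by push_cast; exact hle))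
      push_cast at this
      linarith [this.1 (by linarith)]
    · rw [hy] at hle
      simp at hle
      have : p 0 = x0 := by linarith
      apply hn
      exact ⟨by rw [this]; exact x0a, by rw [this]; exact x0b, h, h'⟩

theorem psi_mem_quad_iff (hf : NearGrid f) {i j : ℤ} {p : Plane} :
    Psi f p ∈ quad f i j ↔ p ∈ sq i j :=
  ⟨mem_of_psi_mem_quad hf, psi_mem_quad_of_mem hf⟩

end Pool.Agent.helper97.Tiling
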