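import Mathlib
import Pool.Agent.helper97.Tiling.Grid

/-! # Coloured polygonal tilings of the plane, local derivability, induced graph, Laplacian -/

namespace Pool.Agent.helper97.Tiling

open Set Metric
open scoped InnerProductSpace

/-- A coloured tile: a subset of the plane together with a colour. -/
abbrev Tile (C : Type) := Set Plane × C

/-- The translate `v + T` of a set of coloured tiles. -/
def move {C : Type} (v : Plane) (T : Set (Tile C)) : Set (Tile C) :=
  (fun t : Tile C => ((fun p => v + p) '' t.1, t.2)) '' T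

/-- `T ⊓ K`: the set of tiles of `T` meeting `K`. -/
def patch {C : Type} (T : Set (Tile C)) (K : Set Plane) : Set (Tile C) :=
  {t ∈ T | (t.1 ∩ K).Nonempty}

/-- A tiling: a countable family of nonempty closed sets, the tiles, which cover the plane and have
pairwise disjoint interiors. Tiles carry colours. -/
structure IsTiling {C : Type} (T : Set (Tile C)) : Prop where
  countable : T.Countable
  nonempty : ∀ t ∈ T, t.1.Nonempty
  closed : ∀ t ∈ T, IsClosed t.1
  cover : ⋃ t ∈ T, t.1 = univ
  disjoint : ∀ s ∈ T, ∀ t ∈ T, s ≠ t → Disjoint (interior s.1) (interior t.1)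

/-- A polygon: a nonempty compact set with dense interior which is a finite intersection of closed
half-planes. -/
def IsPolygon (P : Set Plane) : Prop :=
  P.Nonempty ∧ IsCompact P ∧ P ⊆ closure (interior P) ∧
    ∃ H : Finset (Plane × ℝ), (∀ h ∈ H, h.1 ≠ 0) ∧ P = {x | ∀ h ∈ H, ⟪h.1, x⟫_ℝ ≤ h.2}

/-- A polygonal tiling. -/
structure IsPolygonalTiling {C : Type} (T : Set (Tile C)) : Prop extends IsTiling T where
  polygon : ∀ t ∈ T, IsPolygon t.1

/-- `T'` is locally derivable from `T`. -/
def LocallyDerivable {C C' : Type} (T' : Set (Tile C')) (T : Set (Tile C)) : Prop :=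
  ∃ R > 0, ∀ x y : Plane, patch (move (-x) T) (ball 0 R) = patch (move (-y) T) (ball 0 R) →
    patch (move (-x) T') {0} = patch (move (-y) T') {0}

/-- Mutual local derivability. -/
def MLD {C C' : Type} (T : Set (Tile C)) (T' : Set (Tile C')) : Prop :=
  LocallyDerivable T' T ∧ LocallyDerivable T T'

/-- `e` is an edge (side) of the convex set `P`: the set, with at least two points, where some
nonzero linear form attains its maximum over `P`, in case it is not all of a two-dimensional `P`. -/
def IsEdge (e P : Set Plane) : Prop :=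
  e.Nontrivial ∧ ∃ (a : Plane) (b : ℝ), a ≠ 0 ∧ (∀ x ∈ P, ⟪a, x⟫_ℝ ≤ b) ∧
    e = {x ∈ P | ⟪a, x⟫_ℝ = b}

/-- Two distinct tiles are adjacent if they share an edge. -/
def Adjacent {C : Type} (s t : Tile C) : Prop := s ≠ t ∧ ∃ e, IsEdge e s.1 ∧ IsEdge e t.1

/-- The Laplacian of the induced graph, `(Δ ψ)(v) = ∑_{u ∼ v} (ψ v - ψ u)`. -/
noncomputable def laplacian {C : Type} (T : Set (Tile C)) (ψ : T → ℂ) (v : T) : ℂ :=
  ∑ᶠ (u : T) (_ : Adjacent u.1 v.1), (ψ v - ψ u)

/-- There is a locally supported eigenfunction. -/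
def HasLocallySupportedEigenfunction {C : Type} (T : Set (Tile C)) : Prop :=
  ∃ ψ : T → ℂ, ψ ≠ 0 ∧ (Function.support ψ).Finite ∧ ∃ E : ℝ, ∀ v, laplacian T ψ v = E * ψ v

/-- Finite local complexity: for every `r > 0` there are finitely many finite sets of tiles such
that each patch `T ⊓ B_r(x)` is a translate of one of them. -/
def FiniteLocalComplexity {C : Type} (T : Set (Tile C)) : Prop :=
  ∀ r > 0, ∃ F : Set (Set (Tile C)), F.Finite ∧ (∀ P ∈ F, P.Finite) ∧
    ∀ x : Plane, ∃ P ∈ F, ∃ v : Plane, patch T (ball x r) = move v P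

/-- The point set `X` is locally derivable from `T`. -/
def PointsDerivable {C : Type} (X : Set Plane) (T : Set (Tile C)) : Prop :=
  ∃ R > 0, ∀ x y : Plane, patch (move (-x) T) (ball 0 R) = patch (move (-y) T) (ball 0 R) →
    (x ∈ X ↔ y ∈ X)

/-- A relatively dense set of finite type: every point of the plane is within bounded distance
of `X`, and there are finitely many differences of bounded length. -/
def FiniteTypeDense (X : Set Plane) : Prop :=
  (∃ r, ∀ p : Plane, ∃ x ∈ X, dist p x ≤ r) ∧
    ∀ R, {d : Plane | ∃ x ∈ X, ∃ y ∈ X, d = x - y ∧ ‖d‖ ≤ R}.Finite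

/-- The conclusion: in the MLD class of `T` there is a locally finite polygonal tiling `T'` whose
graph is the square lattice, in which any two tiles with more than one common point share an edge,
and whose Laplacian has no locally supported eigenfunction. -/
def GoodMLD {C : Type} (T : Set (Tile C)) : Prop :=
  ∃ (C' : Type) (T' : Set (Tile C')), IsPolygonalTiling T' ∧ MLD T T' ∧
    (∀ r, (patch T' (ball 0 r)).Finite) ∧
    (∃ e : ℤ × ℤ ≃ T', ∀ z w : ℤ × ℤ, Adjacent (e z).1 (e w).1 ↔ |z.1 - w.1| + |z.2 - w.2| = 1) ∧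
    (∀ s ∈ T', ∀ t ∈ T', s ≠ t → (s.1 ∩ t.1).Nontrivial → Adjacent s t) ∧
    ¬ HasLocallySupportedEigenfunction T'

end Pool.Agent.helper97.Tiling
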