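import Mathlib
import Pool.Agent.helper97.Tiling.Defs

/-! # Translates and patches -/

namespace Pool.Agent.helper97.Tiling

open Set Metric

variable {C : Type}

theorem shift_shift (v w : Plane) (K : Set Plane) :
    (fun p => v + p) '' ((fun p => w + p) '' K) = (fun p => (v + w) + p) '' K := by
  rw [image_image]
  congr 1
  funext p
  exact (add_assoc v w p).symm

theorem shift_zero (K : Set Plane) : (fun p => (0 : Plane) + p) '' K = K := by
  simp

theorem mem_shift {v p : Plane} {K : Set Plane} : p ∈ (fun p => v + p) '' K ↔ -v + p ∈ K := by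
  rw [Set.image_add_left]
  rfl

/-- Translate of a tile. -/
def tmv (v : Plane) (t : Tile C) : Tile C := ((fun p => v + p) '' t.1, t.2)

theorem tmv_tmv (v w : Plane) (t : Tile C) : tmv v (tmv w t) = tmv (v + w) t := by
  unfold tmv
  rw [shift_shift]

theorem tmv_zero (t : Tile C) : tmv 0 t = t := by
  unfold tmv
  rw [shift_zero]

theorem move_eq (v : Plane) (T : Set (Tile C)) : move v T = tmv v '' T := rfl

theorem move_move (v w : Plane) (T : Set (Tile C)) : move v (move w T) = move (v + w) T := by
  rw [move_eq, move_eq, move_eq, image_image]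
  congr 1
  funext t
  exact tmv_tmv v w t

theorem move_zero (T : Set (Tile C)) : move 0 T = T := by
  rw [move_eq]
  conv_rhs => rw [← image_id T]
  congr 1
  funext t
  exact tmv_zero t

theorem tmv_inj (v : Plane) {s t : Tile C} (h : tmv v s = tmv v t) : s = t := by
  have := congrArg (tmv (-v)) h
  rwa [tmv_tmv, tmv_tmv, neg_add_cancel, tmv_zero, tmv_zero] at this

theorem mem_move {v : Plane} {T : Set (Tile C)} {t : Tile C} : t ∈ move v T ↔ tmv (-v) t ∈ T := by
  rw [move_eq]
  constructor
  · rintro ⟨s, hs, rfl⟩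
    rwa [tmv_tmv, neg_add_cancel, tmv_zero]
  · intro h
    refine ⟨_, h, ?_⟩
    rw [tmv_tmv, add_neg_cancel, tmv_zero]

theorem shift_inter_nonempty (v : Plane) (A K : Set Plane) :
    (((fun p => v + p) '' A) ∩ K).Nonempty ↔ (A ∩ ((fun p => -v + p) '' K)).Nonempty := by
  constructor
  · rintro ⟨p, hp, hpK⟩
    rw [mem_shift] at hp
    exact ⟨-v + p, hp, p, hpK, rfl⟩
  · rintro ⟨p, hp, q, hqK, rfl⟩
    refine ⟨q, ?_, hqK⟩
    rw [mem_shift]
    exact hp

theorem patch_move (v : Plane) (T : Set (Tile C)) (K : Set Plane) :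
    patch (move v T) K = move v (patch T ((fun p => -v + p) '' K)) := by
  ext t
  rw [mem_move]
  unfold patch
  rw [mem_ofPred_eq, mem_ofPred_eq, mem_move]
  have : (t.1 ∩ K).Nonempty ↔ ((tmv (-v) t).1 ∩ ((fun p => -v + p) '' K)).Nonempty := by
    have h := shift_inter_nonempty v ((tmv (-v) t).1) K
    rw [← h]
    have h2 : (fun p => v + p) '' (tmv (-v) t).1 = t.1 := by
      unfold tmv
      rw [shift_shift, add_neg_cancel, shift_zero]
    rw [h2]
  rw [this]

theorem patch_patch (T : Set (Tile C)) {K K' : Set Plane} (h : K ⊆ K') :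
    patch (patch T K') K = patch T K := by
  ext t
  unfold patch
  constructor
  · rintro ⟨⟨h1, -⟩, h2⟩
    exact ⟨h1, h2⟩
  · rintro ⟨h1, h2⟩
    exact ⟨⟨h1, h2.mono (inter_subset_inter_right _ h)⟩, h2⟩

/-- The patches of radius `R` at `x` and `y` agree. -/
def Agree (T : Set (Tile C)) (R : ℝ) (x y : Plane) : Prop :=
  patch (move (-x) T) (ball 0 R) = patch (move (-y) T) (ball 0 R)

theorem Agree.symm {T : Set (Tile C)} {R : ℝ} {x y : Plane} (h : Agree T R x y) : Agree T R y x :=
  Eq.symm h

theorem Agree.patch_eq {T : Set (Tile C)} {R : ℝ} {x y : Plane} (h : Agree T R x y) {K : Set Plane}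
    (hK : K ⊆ ball 0 R) : patch (move (-x) T) K = patch (move (-y) T) K := by
  rw [← patch_patch (move (-x) T) hK, ← patch_patch (move (-y) T) hK]
  congr 1

theorem Agree.shift {T : Set (Tile C)} {R R' : ℝ} {x y v : Plane} (h : Agree T R x y)
    (hv : ‖v‖ + R' ≤ R) : Agree T R' (x + v) (y + v) := by
  unfold Agree
  have hK : (fun p => -(-v) + p) '' ball (0 : Plane) R' ⊆ ball 0 R := by
    rintro _ ⟨p, hp, rfl⟩
    rw [mem_ball_zero_iff] at hp ⊢
    refine (norm_add_le _ _).trans_lt ?_
    rw [neg_neg]
    linarith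
  have hx : move (-(x + v)) T = move (-v) (move (-x) T) := by
    rw [move_move]; congr 1; abel
  have hy : move (-(y + v)) T = move (-v) (move (-y) T) := by
    rw [move_move]; congr 1; abel
  rw [hx, hy, patch_move (-v) (move (-x) T), patch_move (-v) (move (-y) T), h.patch_eq hK]

/-- Patches near agreeing points are translates. -/
theorem Agree.patch_shift {T : Set (Tile C)} {R : ℝ} {x y : Plane} (h : Agree T R x y)
    {K : Set Plane} (hK : K ⊆ ball x R) :
    patch T ((fun p => (y - x) + p) '' K) = move (y - x) (patch T K) := by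
  have hK' : (fun p => -x + p) '' K ⊆ ball 0 R := by
    rintro _ ⟨p, hp, rfl⟩
    have := hK hp
    rw [mem_ball, dist_eq_norm] at this
    rw [mem_ball_zero_iff]
    change ‖-x + p‖ < R
    rwa [neg_add_eq_sub]
  have h1 := h.patch_eq hK'
  rw [patch_move, patch_move, shift_shift, shift_shift, neg_neg, neg_neg, add_neg_cancel,
    shift_zero] at h1
  have h2 := congrArg (move y) h1
  rw [move_move, move_move, add_neg_cancel, move_zero] at h2
  rw [sub_eq_add_neg, h2]

/-- Reference point. -/
noncomputable def ref (K : Set Plane) : Plane :=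
  pt (sInf ((fun p : Plane => p 0) '' K)) (sInf ((fun p : Plane => p 1) '' K))

theorem ref_shift (v : Plane) {K : Set Plane} (hne : K.Nonempty) (hb : Bornology.IsBounded K) :
    ref ((fun p => v + p) '' K) = v + ref K := by
  have hbd : ∀ i : Fin 2, BddBelow ((fun p : Plane => p i) '' K) := by
    intro i
    obtain ⟨B, hB⟩ := hb.exists_norm_le
    refine ⟨-B, ?_⟩
    rintro _ ⟨p, hp, rfl⟩
    have := (abs_coord_le p i).trans (hB p hp)
    exact (abs_le.mp this).1
  have key : ∀ i : Fin 2, sInf ((fun p : Plane => p i) '' ((fun p => v + p) '' K)) =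
      v i + sInf ((fun p : Plane => p i) '' K) := by
    intro i
    have h := (OrderIso.addLeft (v i)).map_csInf' (hne.image _) (hbd i)
    rw [image_image] at h ⊢
    exact h.symm
  apply plane_ext
  · simp only [ref, pt_zero, PiLp.add_apply]
    exact key 0
  · simp only [ref, pt_one, PiLp.add_apply]
    exact key 1

end Pool.Agent.helper97.Tiling
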