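import Mathlib
import Pool.Agent.helper97.Tiling.Defs

/-! # The quadrilaterals of a perturbed grid form an edge-to-edge polygonal tiling -/

namespace Pool.Agent.helper97.Tiling

open Set Metric
open scoped InnerProductSpace

variable {f : ℤ → ℤ → Plane}

theorem inner_plane (a x : Plane) : ⟪a, x⟫_ℝ = a 0 * x 0 + a 1 * x 1 := by
  rw [PiLp.inner_apply, Fin.sum_univ_two]
  simp [mul_comm]

/-- The tile with index `z`, at scale `1 / N`. -/
def tl (N : ℝ) (f : ℤ → ℤ → Plane) (z : ℤ × ℤ) : Set Plane := {P | N • P ∈ quad f z.1 z.2}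

/-- The rescaled homeomorphism. -/
noncomputable def theta (hf : NearGrid f) {N : ℝ} (hN : 0 < N) : Plane ≃ₜ Plane :=
  hf.homeo.trans (Homeomorph.smulOfNeZero N⁻¹ (inv_ne_zero hN.ne'))

theorem theta_apply (hf : NearGrid f) {N : ℝ} (hN : 0 < N) (p : Plane) :
    theta hf hN p = N⁻¹ • Psi f p := rfl

theorem smul_theta (hf : NearGrid f) {N : ℝ} (hN : 0 < N) (p : Plane) :
    N • theta hf hN p = Psi f p := by
  rw [theta_apply, smul_smul, mul_inv_cancel₀ hN.ne', one_smul]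

theorem theta_mem_iff (hf : NearGrid f) {N : ℝ} (hN : 0 < N) (p : Plane) (z : ℤ × ℤ) :
    theta hf hN p ∈ tl N f z ↔ p ∈ sq z.1 z.2 := by
  change N • theta hf hN p ∈ quad f z.1 z.2 ↔ _
  rw [smul_theta, psi_mem_quad_iff hf]

theorem tl_eq_image (hf : NearGrid f) {N : ℝ} (hN : 0 < N) (z : ℤ × ℤ) :
    tl N f z = theta hf hN '' sq z.1 z.2 := by
  ext P
  obtain ⟨p, rfl⟩ := (theta hf hN).surjective P
  rw [theta_mem_iff hf hN, (theta hf hN).injective.mem_set_image]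

theorem isCompact_sq (i j : ℤ) : IsCompact (sq i j) := by
  have h0 : Continuous (fun p : Plane => p 0) := by fun_prop
  have h1 : Continuous (fun p : Plane => p 1) := by fun_prop
  refine Metric.isCompact_of_isClosed_isBounded ?_ ?_
  · apply IsClosed.inter (isClosed_le continuous_const h0)
    apply IsClosed.inter (isClosed_le h0 continuous_const)
    exact IsClosed.inter (isClosed_le continuous_const h1) (isClosed_le h1 continuous_const)
  · rw [isBounded_iff_forall_norm_le]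
    refine ⟨|(i : ℝ)| + 1 + (|(j : ℝ)| + 1), ?_⟩
    rintro p ⟨a, b, c, d⟩
    have e : p = pt (p 0) 0 + pt 0 (p 1) := by apply plane_ext <;> simp
    have n1 : ‖pt (p 0) 0‖ = |p 0| := by
      rw [EuclideanSpace.norm_eq, Fin.sum_univ_two]
      simp [Real.sqrt_sq_eq_abs]
    have n2 : ‖pt 0 (p 1)‖ = |p 1| := by
      rw [EuclideanSpace.norm_eq, Fin.sum_univ_two]
      simp [Real.sqrt_sq_eq_abs]
    rw [e]
    refine (norm_add_le _ _).trans ?_
    rw [n1, n2]
    have i1 := abs_le.mp (le_refl |(i : ℝ)|)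
    have j1 := abs_le.mp (le_refl |(j : ℝ)|)
    apply add_le_add <;> rw [abs_le] <;> constructor <;> linarith

theorem isCompact_tl (hf : NearGrid f) {N : ℝ} (hN : 0 < N) (z : ℤ × ℤ) :
    IsCompact (tl N f z) := by
  rw [tl_eq_image hf hN]
  exact (isCompact_sq _ _).image (theta hf hN).continuous

/-- The open unit square. -/
def osq (i j : ℤ) : Set Plane := {p | (i : ℝ) < p 0 ∧ p 0 < i + 1 ∧ (j : ℝ) < p 1 ∧ p 1 < j + 1}

theorem isOpen_osq (i j : ℤ) : IsOpen (osq i j) := by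
  have h0 : Continuous (fun p : Plane => p 0) := by fun_prop
  have h1 : Continuous (fun p : Plane => p 1) := by fun_prop
  apply IsOpen.inter (isOpen_lt continuous_const h0)
  apply IsOpen.inter (isOpen_lt h0 continuous_const)
  exact IsOpen.inter (isOpen_lt continuous_const h1) (isOpen_lt h1 continuous_const)

theorem lin_lamV (f : ℤ → ℤ → Plane) (i j : ℤ) (N : ℝ) (P : Plane) :
    lamV f i j (N • P) = ⟪N • pt ((f i (j + 1) - f i j) 1) (-(f i (j + 1) - f i j) 0), P⟫_ℝ -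
      ((f i (j + 1) - f i j) 1 * f i j 0 - (f i (j + 1) - f i j) 0 * f i j 1) := by
  rw [inner_plane]
  unfold lamV
  simp only [PiLp.sub_apply, PiLp.smul_apply, smul_eq_mul, pt_zero, pt_one]
  ring

theorem lin_lamH (f : ℤ → ℤ → Plane) (i j : ℤ) (N : ℝ) (P : Plane) :
    lamH f i j (N • P) = ⟪N • pt (-(f (i + 1) j - f i j) 1) ((f (i + 1) j - f i j) 0), P⟫_ℝ -
      ((f (i + 1) j - f i j) 0 * f i j 1 - (f (i + 1) j - f i j) 1 * f i j 0) := by
  rw [inner_plane]
  unfold lamH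
  simp only [PiLp.sub_apply, PiLp.smul_apply, smul_eq_mul, pt_zero, pt_one]
  ring

theorem normalV_ne (hf : NearGrid f) {N : ℝ} (hN : 0 < N) (i j : ℤ) :
    N • pt ((f i (j + 1) - f i j) 1) (-(f i (j + 1) - f i j) 0) ≠ 0 := by
  intro h
  have h0 := congrArg (fun p : Plane => p 0) h
  simp only [PiLp.smul_apply, pt_zero, smul_eq_mul, PiLp.zero_apply, mul_eq_zero] at h0
  have h2 := (abs_coord_le _ 1).trans (hf.h2 i j)
  simp only [PiLp.sub_apply, pt_one] at h2 h0
  rcases h0 with h0 | h0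
  · exact hN.ne' h0
  · rw [h0, abs_le] at h2
    linarith [h2.1]

theorem normalH_ne (hf : NearGrid f) {N : ℝ} (hN : 0 < N) (i j : ℤ) :
    N • pt (-(f (i + 1) j - f i j) 1) ((f (i + 1) j - f i j) 0) ≠ 0 := by
  intro h
  have h0 := congrArg (fun p : Plane => p 1) h
  simp only [PiLp.smul_apply, pt_one, smul_eq_mul, PiLp.zero_apply, mul_eq_zero] at h0
  have h2 := (abs_coord_le _ 0).trans (hf.h1 i j)
  simp only [PiLp.sub_apply, pt_zero] at h2 h0
  rcases h0 with h0 | h0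
  · exact hN.ne' h0
  · rw [h0, abs_le] at h2
    linarith [h2.1]

theorem halfplane_convex (a : Plane) (b : ℝ) : Convex ℝ {x : Plane | ⟪a, x⟫_ℝ ≤ b} :=
  convex_halfSpace_le (innerₛₗ ℝ a).isLinear b

theorem isPolygon_tl (hf : NearGrid f) {N : ℝ} (hN : 0 < N) (z : ℤ × ℤ) :
    IsPolygon (tl N f z) := by
  classical
  set aV : ℤ → ℤ → Plane := fun i j => N • pt ((f i (j + 1) - f i j) 1) (-(f i (j + 1) - f i j) 0)
    with haV
  set bV : ℤ → ℤ → ℝ := fun i j =>
    ((f i (j + 1) - f i j) 1 * f i j 0 - (f i (j + 1) - f i j) 0 * f i j 1) with hbV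
  set aH : ℤ → ℤ → Plane := fun i j => N • pt (-(f (i + 1) j - f i j) 1) ((f (i + 1) j - f i j) 0)
    with haH
  set bH : ℤ → ℤ → ℝ := fun i j =>
    ((f (i + 1) j - f i j) 0 * f i j 1 - (f (i + 1) j - f i j) 1 * f i j 0) with hbH
  set H : Finset (Plane × ℝ) := {(-(aV z.1 z.2), -(bV z.1 z.2)), (aV (z.1 + 1) z.2, bV (z.1 + 1) z.2),
    (-(aH z.1 z.2), -(bH z.1 z.2)), (aH z.1 (z.2 + 1), bH z.1 (z.2 + 1))} with hH
  have hmem : tl N f z = {x | ∀ h ∈ H, ⟪h.1, x⟫_ℝ ≤ h.2} := by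
    ext P
    simp only [hH, Finset.mem_insert, Finset.mem_singleton, mem_ofPred_eq, forall_eq_or_imp,
      forall_eq, inner_neg_left]
    change N • P ∈ quad f z.1 z.2 ↔ _
    unfold quad
    rw [mem_ofPred_eq, lin_lamV, lin_lamV, lin_lamH, lin_lamH]
    constructor
    · rintro ⟨a, b, c, d⟩
      refine ⟨?_, ?_, ?_, ?_⟩ <;> simp only [haV, hbV, haH, hbH] <;> linarith
    · rintro ⟨a, b, c, d⟩
      simp only [haV, hbV, haH, hbH] at a b c d
      refine ⟨?_, ?_, ?_, ?_⟩ <;> linarith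
  have hconv : Convex ℝ (tl N f z) := by
    rw [hmem]
    have : {x : Plane | ∀ h ∈ H, ⟪h.1, x⟫_ℝ ≤ h.2} = ⋂ h ∈ H, {x : Plane | ⟪h.1, x⟫_ℝ ≤ h.2} := by
      ext x; simp
    rw [this]
    exact convex_iInter₂ fun h _ => halfplane_convex h.1 h.2
  have hcomp := isCompact_tl hf hN z
  have hosq : theta hf hN '' osq z.1 z.2 ⊆ tl N f z := by
    rintro _ ⟨p, ⟨a, b, c, d⟩, rfl⟩
    rw [theta_mem_iff hf hN]
    exact ⟨a.le, b.le, c.le, d.le⟩
  have hint : (interior (tl N f z)).Nonempty := by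
    refine ⟨theta hf hN (pt (z.1 + 1 / 2) (z.2 + 1 / 2)), ?_⟩
    rw [mem_interior]
    refine ⟨_, hosq, (theta hf hN).isOpenMap _ (isOpen_osq _ _), mem_image_of_mem _ ?_⟩
    refine ⟨?_, ?_, ?_, ?_⟩ <;> simp <;> norm_num
  refine ⟨?_, hcomp, ?_, H, ?_, hmem⟩
  · exact hint.mono interior_subset
  · rw [hconv.closure_interior_eq_closure_of_nonempty_interior hint]
    exact subset_closure
  · intro h hh
    simp only [hH, Finset.mem_insert, Finset.mem_singleton] at hh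
    rcases hh with rfl | rfl | rfl | rfl
    · exact neg_ne_zero.mpr (normalV_ne hf hN _ _)
    · exact normalV_ne hf hN _ _
    · exact neg_ne_zero.mpr (normalH_ne hf hN _ _)
    · exact normalH_ne hf hN _ _

theorem iUnion_tl (hf : NearGrid f) {N : ℝ} (hN : 0 < N) (P : Plane) : ∃ z, P ∈ tl N f z := by
  obtain ⟨p, rfl⟩ := (theta hf hN).surjective P
  refine ⟨(⌊p 0⌋, ⌊p 1⌋), ?_⟩
  rw [theta_mem_iff hf hN]
  exact ⟨Int.floor_le _, (Int.lt_floor_add_one _).le, Int.floor_le _, (Int.lt_floor_add_one _).le⟩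

theorem int_le_succ {a b : ℤ} (h : (a : ℝ) ≤ (b : ℝ) + 1) : a ≤ b + 1 := by
  have h2 : (a : ℝ) ≤ ((b + 1 : ℤ) : ℝ) := by push_cast; exact h
  exact Int.cast_le.mp h2

/-- Two points common to two squares. -/
theorem sq_inter {z w : ℤ × ℤ} {p q : Plane} (hp : p ∈ sq z.1 z.2) (hp' : p ∈ sq w.1 w.2)
    (hq : q ∈ sq z.1 z.2) (hq' : q ∈ sq w.1 w.2) (hpq : p ≠ q) (hzw : z ≠ w) :
    |z.1 - w.1| + |z.2 - w.2| = 1 := by
  obtain ⟨a1, a2, a3, a4⟩ := hp
  obtain ⟨b1, b2, b3, b4⟩ := hp'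
  obtain ⟨c1, c2, c3, c4⟩ := hq
  obtain ⟨d1, d2, d3, d4⟩ := hq'
  have k1 : z.1 ≤ w.1 + 1 := int_le_succ (a1.trans b2)
  have k2 : w.1 ≤ z.1 + 1 := int_le_succ (b1.trans a2)
  have k3 : z.2 ≤ w.2 + 1 := int_le_succ (a3.trans b4)
  have k4 : w.2 ≤ z.2 + 1 := int_le_succ (b3.trans a4)
  have hne : ¬ (z.1 = w.1 ∧ z.2 = w.2) := fun h => hzw (Prod.ext h.1 h.2)
  have hx : z.1 ≠ w.1 → p 0 = q 0 := by
    intro h
    rcases lt_or_gt_of_ne h with h | h
    · have : w.1 = z.1 + 1 := by omega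
      have e : (w.1 : ℝ) = z.1 + 1 := by exact_mod_cast this
      linarith
    · have : z.1 = w.1 + 1 := by omega
      have e : (z.1 : ℝ) = w.1 + 1 := by exact_mod_cast this
      linarith
  have hy : z.2 ≠ w.2 → p 1 = q 1 := by
    intro h
    rcases lt_or_gt_of_ne h with h | h
    · have : w.2 = z.2 + 1 := by omega
      have e : (w.2 : ℝ) = z.2 + 1 := by exact_mod_cast this
      linarith
    · have : z.2 = w.2 + 1 := by omega
      have e : (z.2 : ℝ) = w.2 + 1 := by exact_mod_cast this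
      linarith
  by_cases h1 : z.1 = w.1
  · have h2 : z.2 ≠ w.2 := fun h => hne ⟨h1, h⟩
    rw [h1, sub_self, abs_zero, zero_add]
    rcases lt_or_gt_of_ne h2 with h | h
    · rw [show z.2 - w.2 = -1 by omega]; rfl
    · rw [show z.2 - w.2 = 1 by omega]; rfl
  · by_cases h2 : z.2 = w.2
    · rw [h2, sub_self, abs_zero, add_zero]
      rcases lt_or_gt_of_ne h1 with h | h
      · rw [show z.1 - w.1 = -1 by omega]; rfl
      · rw [show z.1 - w.1 = 1 by omega]; rfl
    · exact absurd (plane_ext (hx h1) (hy h2)) hpq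

/-- Two points common to two tiles. -/
theorem tl_inter (hf : NearGrid f) {N : ℝ} (hN : 0 < N) {z w : ℤ × ℤ}
    (h : (tl N f z ∩ tl N f w).Nontrivial) (hzw : z ≠ w) : |z.1 - w.1| + |z.2 - w.2| = 1 := by
  obtain ⟨P, hP, Q, hQ, hPQ⟩ := h
  obtain ⟨p, rfl⟩ := (theta hf hN).surjective P
  obtain ⟨q, rfl⟩ := (theta hf hN).surjective Q
  have hpq : p ≠ q := fun h => hPQ (by rw [h])
  exact sq_inter ((theta_mem_iff hf hN _ _).mp hP.1) ((theta_mem_iff hf hN _ _).mp hP.2)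
    ((theta_mem_iff hf hN _ _).mp hQ.1) ((theta_mem_iff hf hN _ _).mp hQ.2) hpq hzw

/-- An open subset of the plane is not contained in a coordinate line. -/
theorem not_open_line {U : Set Plane} (hU : IsOpen U) (hne : U.Nonempty) (i : Fin 2) (c : ℝ) :
    ¬ ∀ p ∈ U, p i = c := by
  intro h
  obtain ⟨p, hp⟩ := hne
  have hcont : Continuous (fun t : ℝ => p + t • (EuclideanSpace.single i (1 : ℝ) : Plane)) := by
    fun_prop
  have hopen := hU.preimage hcont
  have h0 : (0 : ℝ) ∈ (fun t : ℝ => p + t • (EuclideanSpace.single i (1 : ℝ) : Plane)) ⁻¹' U := by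
    simpa using hp
  obtain ⟨ε, hε, hb⟩ := Metric.isOpen_iff.mp hopen 0 h0
  have h1 := hb (show ε / 2 ∈ ball (0 : ℝ) ε by
    rw [mem_ball, Real.dist_eq, sub_zero, abs_of_pos (by positivity)]; linarith)
  have h2 := h _ h1
  have h3 := h _ hp
  simp [h3] at h2
  linarith

theorem disjoint_interior_tl (hf : NearGrid f) {N : ℝ} (hN : 0 < N) {z w : ℤ × ℤ} (hzw : z ≠ w) :
    Disjoint (interior (tl N f z)) (interior (tl N f w)) := by
  rw [Set.disjoint_iff_inter_eq_empty, ← Set.not_nonempty_iff_eq_empty]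
  intro hne
  set U := theta hf hN ⁻¹' (interior (tl N f z) ∩ interior (tl N f w)) with hU
  have hUo : IsOpen U := (isOpen_interior.inter isOpen_interior).preimage (theta hf hN).continuous
  have hUne : U.Nonempty := by
    obtain ⟨P, hP⟩ := hne
    obtain ⟨p, rfl⟩ := (theta hf hN).surjective P
    exact ⟨p, hP⟩
  have hsq : ∀ p ∈ U, p ∈ sq z.1 z.2 ∧ p ∈ sq w.1 w.2 := fun p hp =>
    ⟨(theta_mem_iff hf hN _ _).mp (interior_subset hp.1),
      (theta_mem_iff hf hN _ _).mp (interior_subset hp.2)⟩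
  obtain ⟨p, hp⟩ := hUne
  have hz := (hsq p hp).1
  have hw := (hsq p hp).2
  by_cases h1 : z.1 = w.1
  · have h2 : z.2 ≠ w.2 := fun h => hzw (Prod.ext h1 h)
    apply not_open_line hUo ⟨p, hp⟩ 1 (max (z.2 : ℝ) w.2)
    intro q hq
    obtain ⟨⟨a1, a2, a3, a4⟩, ⟨b1, b2, b3, b4⟩⟩ := hsq q hq
    have k3 : z.2 ≤ w.2 + 1 := int_le_succ (a3.trans b4)
    have k4 : w.2 ≤ z.2 + 1 := int_le_succ (b3.trans a4)
    rcases lt_or_gt_of_ne h2 with h | h
    · have e : (w.2 : ℝ) = z.2 + 1 := by exact_mod_cast (by omega : w.2 = z.2 + 1)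
      rw [max_eq_right (by linarith)]; linarith
    · have e : (z.2 : ℝ) = w.2 + 1 := by exact_mod_cast (by omega : z.2 = w.2 + 1)
      rw [max_eq_left (by linarith)]; linarith
  · apply not_open_line hUo ⟨p, hp⟩ 0 (max (z.1 : ℝ) w.1)
    intro q hq
    obtain ⟨⟨a1, a2, a3, a4⟩, ⟨b1, b2, b3, b4⟩⟩ := hsq q hq
    have k3 : z.1 ≤ w.1 + 1 := int_le_succ (a1.trans b2)
    have k4 : w.1 ≤ z.1 + 1 := int_le_succ (b1.trans a2)
    rcases lt_or_gt_of_ne h1 with h | h
    · have e : (w.1 : ℝ) = z.1 + 1 := by exact_mod_cast (by omega : w.1 = z.1 + 1)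
      rw [max_eq_right (by linarith)]; linarith
    · have e : (z.1 : ℝ) = w.1 + 1 := by exact_mod_cast (by omega : z.1 = w.1 + 1)
      rw [max_eq_left (by linarith)]; linarith

/-- The image of the vertical unit edge. -/
noncomputable def eV (hf : NearGrid f) {N : ℝ} (hN : 0 < N) (i j : ℤ) : Set Plane :=
  theta hf hN '' {p | p 0 = i ∧ (j : ℝ) ≤ p 1 ∧ p 1 ≤ j + 1}

/-- The image of the horizontal unit edge. -/
noncomputable def eH (hf : NearGrid f) {N : ℝ} (hN : 0 < N) (i j : ℤ) : Set Plane :=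
  theta hf hN '' {p | p 1 = j ∧ (i : ℝ) ≤ p 0 ∧ p 0 ≤ i + 1}

theorem eV_nontrivial (hf : NearGrid f) {N : ℝ} (hN : 0 < N) (i j : ℤ) :
    (eV hf hN i j).Nontrivial := by
  refine ⟨_, mem_image_of_mem _ (show pt i j ∈ _ from ⟨rfl, by simp, by simp⟩), _,
    mem_image_of_mem _ (show pt i (j + 1) ∈ _ from ⟨rfl, by simp, by simp⟩), ?_⟩
  intro h
  have := congrArg (fun p : Plane => p 1) ((theta hf hN).injective h)
  simp at this

theorem eH_nontrivial (hf : NearGrid f) {N : ℝ} (hN : 0 < N) (i j : ℤ) :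
    (eH hf hN i j).Nontrivial := by
  refine ⟨_, mem_image_of_mem _ (show pt i j ∈ _ from ⟨rfl, by simp, by simp⟩), _,
    mem_image_of_mem _ (show pt (i + 1) j ∈ _ from ⟨rfl, by simp, by simp⟩), ?_⟩
  intro h
  have := congrArg (fun p : Plane => p 0) ((theta hf hN).injective h)
  simp at this

theorem lamV_zero_iff (hf : NearGrid f) {N : ℝ} (hN : 0 < N) (i j : ℤ) (p : Plane) :
    ⟪N • pt ((f i (j + 1) - f i j) 1) (-(f i (j + 1) - f i j) 0), theta hf hN p⟫_ℝ =
      ((f i (j + 1) - f i j) 1 * f i j 0 - (f i (j + 1) - f i j) 0 * f i j 1) ↔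
      lamV f i j (Psi f p) = 0 := by
  rw [← smul_theta hf hN p, lin_lamV, sub_eq_zero]

theorem lamH_zero_iff (hf : NearGrid f) {N : ℝ} (hN : 0 < N) (i j : ℤ) (p : Plane) :
    ⟪N • pt (-(f (i + 1) j - f i j) 1) ((f (i + 1) j - f i j) 0), theta hf hN p⟫_ℝ =
      ((f (i + 1) j - f i j) 0 * f i j 1 - (f (i + 1) j - f i j) 1 * f i j 0) ↔
      lamH f i j (Psi f p) = 0 := by
  rw [← smul_theta hf hN p, lin_lamH, sub_eq_zero]

theorem isEdge_left (hf : NearGrid f) {N : ℝ} (hN : 0 < N) (i j : ℤ) :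
    IsEdge (eV hf hN i j) (tl N f (i, j)) := by
  refine ⟨eV_nontrivial hf hN i j,
    -(N • pt ((f i (j + 1) - f i j) 1) (-(f i (j + 1) - f i j) 0)),
    -((f i (j + 1) - f i j) 1 * f i j 0 - (f i (j + 1) - f i j) 0 * f i j 1),
    neg_ne_zero.mpr (normalV_ne hf hN i j), ?_, ?_⟩
  · intro P hP
    have h1 := hP.1
    rw [lin_lamV] at h1
    rw [inner_neg_left]
    linarith
  · ext P
    obtain ⟨p, rfl⟩ := (theta hf hN).surjective P
    unfold eV
    rw [(theta hf hN).injective.mem_set_image, mem_ofPred_eq, mem_ofPred_eq, theta_mem_iff hf hN,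
      inner_neg_left, neg_inj, lamV_zero_iff]
    constructor
    · rintro ⟨h0, h1, h2⟩
      refine ⟨⟨by rw [h0], by rw [h0]; simp, h1, h2⟩, ?_⟩
      exact (sign_of_key (lamV_key hf (y := p 1) h1 h2 (by simp))).2.2 (by rw [h0]; simp)
    · rintro ⟨⟨h1, h2, h3, h4⟩, h5⟩
      refine ⟨?_, h3, h4⟩
      rcases h1.lt_or_eq with h | h
      · have := (sign_of_key (lamV_key hf (i := i) (j := j) (p := p) (y := p 1) h3 h4 (by simp))).1
          (by simpa using h)
        linarith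
      · exact h.symm

theorem isEdge_right (hf : NearGrid f) {N : ℝ} (hN : 0 < N) (i j : ℤ) :
    IsEdge (eV hf hN (i + 1) j) (tl N f (i, j)) := by
  refine ⟨eV_nontrivial hf hN (i + 1) j,
    (N • pt ((f (i + 1) (j + 1) - f (i + 1) j) 1) (-(f (i + 1) (j + 1) - f (i + 1) j) 0)),
    ((f (i + 1) (j + 1) - f (i + 1) j) 1 * f (i + 1) j 0 -
      (f (i + 1) (j + 1) - f (i + 1) j) 0 * f (i + 1) j 1),
    normalV_ne hf hN (i + 1) j, ?_, ?_⟩
  · intro P hP
    have h1 := hP.2.1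
    rw [lin_lamV] at h1
    simp only at h1
    linarith
  · ext P
    obtain ⟨p, rfl⟩ := (theta hf hN).surjective P
    unfold eV
    rw [(theta hf hN).injective.mem_set_image, mem_ofPred_eq, mem_ofPred_eq, theta_mem_iff hf hN,
      lamV_zero_iff]
    constructor
    · rintro ⟨h0, h1, h2⟩
      push_cast at h0
      refine ⟨⟨by rw [h0]; simp, by rw [h0], h1, h2⟩, ?_⟩
      exact (sign_of_key (lamV_key hf (i := i + 1) (y := p 1) h1 h2 (by simp))).2.2
        (by rw [h0]; push_cast; simp)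
    · rintro ⟨⟨h1, h2, h3, h4⟩, h5⟩
      refine ⟨?_, h3, h4⟩
      push_cast
      rcases h2.lt_or_eq with h | h
      · have := (sign_of_key (lamV_key hf (i := i + 1) (j := j) (p := p) (y := p 1) h3 h4
          (by simp))).2.1 (by push_cast; simp only at h; linarith)
        linarith
      · exact h

theorem isEdge_bottom (hf : NearGrid f) {N : ℝ} (hN : 0 < N) (i j : ℤ) :
    IsEdge (eH hf hN i j) (tl N f (i, j)) := by
  refine ⟨eH_nontrivial hf hN i j,
    -(N • pt (-(f (i + 1) j - f i j) 1) ((f (i + 1) j - f i j) 0)),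
    -((f (i + 1) j - f i j) 0 * f i j 1 - (f (i + 1) j - f i j) 1 * f i j 0),
    neg_ne_zero.mpr (normalH_ne hf hN i j), ?_, ?_⟩
  · intro P hP
    have h1 := hP.2.2.1
    rw [lin_lamH] at h1
    rw [inner_neg_left]
    linarith
  · ext P
    obtain ⟨p, rfl⟩ := (theta hf hN).surjective P
    unfold eH
    rw [(theta hf hN).injective.mem_set_image, mem_ofPred_eq, mem_ofPred_eq, theta_mem_iff hf hN,
      inner_neg_left, neg_inj, lamH_zero_iff]
    constructor
    · rintro ⟨h0, h1, h2⟩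
      refine ⟨⟨h1, h2, by rw [h0], by rw [h0]; simp⟩, ?_⟩
      exact (sign_of_key (lamH_key hf (x := p 0) h1 h2 (by simp))).2.2 (by rw [h0]; simp)
    · rintro ⟨⟨h1, h2, h3, h4⟩, h5⟩
      refine ⟨?_, h1, h2⟩
      rcases h3.lt_or_eq with h | h
      · have := (sign_of_key (lamH_key hf (i := i) (j := j) (p := p) (x := p 0) h1 h2 (by simp))).1
          (by simpa using h)
        linarith
      · exact h.symm

theorem isEdge_top (hf : NearGrid f) {N : ℝ} (hN : 0 < N) (i j : ℤ) :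
    IsEdge (eH hf hN i (j + 1)) (tl N f (i, j)) := by
  refine ⟨eH_nontrivial hf hN i (j + 1),
    (N • pt (-(f (i + 1) (j + 1) - f i (j + 1)) 1) ((f (i + 1) (j + 1) - f i (j + 1)) 0)),
    ((f (i + 1) (j + 1) - f i (j + 1)) 0 * f i (j + 1) 1 -
      (f (i + 1) (j + 1) - f i (j + 1)) 1 * f i (j + 1) 0),
    normalH_ne hf hN i (j + 1), ?_, ?_⟩
  · intro P hP
    have h1 := hP.2.2.2
    rw [lin_lamH] at h1
    simp only at h1
    linarith
  · ext P
    obtain ⟨p, rfl⟩ := (theta hf hN).surjective P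
    unfold eH
    rw [(theta hf hN).injective.mem_set_image, mem_ofPred_eq, mem_ofPred_eq, theta_mem_iff hf hN,
      lamH_zero_iff]
    constructor
    · rintro ⟨h0, h1, h2⟩
      push_cast at h0
      refine ⟨⟨h1, h2, by rw [h0]; simp, by rw [h0]⟩, ?_⟩
      exact (sign_of_key (lamH_key hf (j := j + 1) (x := p 0) h1 h2 (by simp))).2.2
        (by rw [h0]; push_cast; simp)
    · rintro ⟨⟨h1, h2, h3, h4⟩, h5⟩
      refine ⟨?_, h1, h2⟩
      push_cast
      rcases h4.lt_or_eq with h | h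
      · have := (sign_of_key (lamH_key hf (i := i) (j := j + 1) (p := p) (x := p 0) h1 h2
          (by simp))).2.1 (by push_cast; simp only at h; linarith)
        linarith
      · exact h

/-- Neighbouring tiles share an edge. -/
theorem share_edge (hf : NearGrid f) {N : ℝ} (hN : 0 < N) {z w : ℤ × ℤ}
    (h : |z.1 - w.1| + |z.2 - w.2| = 1) : ∃ e, IsEdge e (tl N f z) ∧ IsEdge e (tl N f w) := by
  obtain ⟨i, j⟩ := z
  obtain ⟨k, l⟩ := w
  simp only at h
  have h1 := abs_nonneg (i - k)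
  have h2 := abs_nonneg (j - l)
  have hcase : (i = k ∧ (j = l + 1 ∨ l = j + 1)) ∨ (j = l ∧ (i = k + 1 ∨ k = i + 1)) := by
    rcases abs_cases (i - k) with ⟨ha, _⟩ | ⟨ha, _⟩ <;> rcases abs_cases (j - l) with ⟨hb, _⟩ | ⟨hb, _⟩ <;>
      omega
  rcases hcase with ⟨rfl, rfl | rfl⟩ | ⟨rfl, rfl | rfl⟩
  · exact ⟨_, isEdge_bottom hf hN _ _, isEdge_top hf hN _ _⟩
  · exact ⟨_, isEdge_top hf hN _ _, isEdge_bottom hf hN _ _⟩
  · exact ⟨_, isEdge_left hf hN _ _, isEdge_right hf hN _ _⟩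
  · exact ⟨_, isEdge_right hf hN _ _, isEdge_left hf hN _ _⟩

theorem tl_injective (hf : NearGrid f) {N : ℝ} (hN : 0 < N) : Function.Injective (tl N f) := by
  intro z w h
  by_contra hzw
  have h1 := disjoint_interior_tl hf hN hzw
  rw [h, disjoint_self] at h1
  have h2 := (isPolygon_tl hf hN w)
  have h3 : (closure (interior (tl N f w))).Nonempty := h2.1.mono h2.2.2.1
  rw [closure_nonempty_iff] at h3
  rw [Set.bot_eq_empty] at h1
  rw [h1] at h3
  exact Set.not_nonempty_empty h3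

/-- Only finitely many tiles meet a ball. -/
theorem finite_tl_ball (hf : NearGrid f) {N : ℝ} (hN : 0 < N) (r : ℝ) :
    {z : ℤ × ℤ | (tl N f z ∩ ball 0 r).Nonempty}.Finite := by
  have hK : IsCompact ((theta hf hN).symm '' closedBall (0 : Plane) r) :=
    (isCompact_closedBall (0 : Plane) r).image (theta hf hN).symm.continuous
  obtain ⟨B, hB⟩ := hK.isBounded.exists_norm_le
  refine Set.Finite.subset (Set.Finite.prod (Set.finite_Icc (⌊-B⌋ - 1) ⌈B⌉)
    (Set.finite_Icc (⌊-B⌋ - 1) ⌈B⌉)) ?_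
  rintro ⟨i, j⟩ ⟨P, hP, hPr⟩
  obtain ⟨p, rfl⟩ := (theta hf hN).surjective P
  have hp := hB p ⟨_, ball_subset_closedBall hPr, by simp⟩
  have h0 := (abs_coord_le p 0).trans hp
  have h1 := (abs_coord_le p 1).trans hp
  rw [theta_mem_iff hf hN] at hP
  obtain ⟨a, b, c, d⟩ := hP
  simp only at a b c d
  rw [abs_le] at h0 h1
  have f1 := Int.floor_le (-B)
  have f2 := Int.lt_floor_add_one (-B)
  have f3 := Int.le_ceil B
  refine ⟨⟨?_, ?_⟩, ⟨?_, ?_⟩⟩ <;> simp only
  · have : ((⌊-B⌋ - 1 : ℤ) : ℝ) ≤ i := by push_cast; linarith [h0.1]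
    exact_mod_cast this
  · have : (i : ℝ) ≤ (⌈B⌉ : ℝ) := by linarith [h0.2]
    exact_mod_cast this
  · have : ((⌊-B⌋ - 1 : ℤ) : ℝ) ≤ j := by push_cast; linarith [h1.1]
    exact_mod_cast this
  · have : (j : ℝ) ≤ (⌈B⌉ : ℝ) := by linarith [h1.2]
    exact_mod_cast this

end Pool.Agent.helper97.Tiling
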