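import Mathlib
import Pool.Agent.helper97.Tiling.Patch
import Pool.Agent.helper97.Tiling.Quads

/-! # Cutting every tile into cells with a two-rail ladder

Every tile is cut into three sectors around an interior point; each sector contains an outer cell
`U`, two triangles `O1`, `O2` and an infinite ladder of triangles `a n`, `b n`. -/

namespace Pool.Agent.helper97.Tiling

open Set Metric
open scoped InnerProductSpace

/-- The kinds of cells in a sector. -/
inductive Kind
  | U | O1 | O2 | a (n : ℕ) | b (n : ℕ)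
  deriving DecidableEq

instance : Countable Kind := by
  have : Function.Injective (fun k : Kind => match k with
    | .U => (0, 0) | .O1 => (1, 0) | .O2 => (2, 0) | .a n => (3, n) | .b n => ((4, n) : ℕ × ℕ)) := by
    intro x y h
    cases x <;> cases y <;> simp_all
  exact this.countable

/-- The slopes `2 ^ (-n)`. -/
noncomputable def sl (n : ℕ) : ℝ := (1 / 2) ^ n

theorem sl_pos (n : ℕ) : 0 < sl n := by unfold sl; positivity
theorem sl_zero : sl 0 = 1 := by simp [sl]
theorem sl_succ (n : ℕ) : sl (n + 1) = sl n / 2 := by unfold sl; rw [pow_succ]; ring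
theorem sl_le_one (n : ℕ) : sl n ≤ 1 := by
  unfold sl; exact pow_le_one₀ (by norm_num) (by norm_num)
theorem sl_anti {m n : ℕ} (h : m ≤ n) : sl n ≤ sl m := by
  unfold sl; exact pow_le_pow_of_le_one (by norm_num) (by norm_num) h

/-- The three linear constraints `u α + v β + w ≤ 0` of a cell, in the coordinates of its sector. -/
noncomputable def con : Kind → Fin 3 → ℝ × ℝ × ℝ
  | .U => ![(-1, 0, 0), (0, -1, 0), (-1, -1, 1)]
  | .O1 => ![(-1, 0, 0), (1, -1, 0), (2, 1, -1)]
  | .O2 => ![(1, 1, -1), (-2, -1, 1), (-1, -2, 1)]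
  | .a n => ![(sl (n + 1), -1, 0), (-sl n, 1, 0), (2, 1, -1)]
  | .b n => ![(-sl (n + 1), -1 - sl (n + 1), sl (n + 1)), (sl n, 1 + sl n, -sl n), (-2, -1, 1)]

theorem con_ne (i : Kind) (j : Fin 3) : (con i j).1 ≠ 0 ∨ (con i j).2.1 ≠ 0 := by
  cases i <;> fin_cases j <;> simp [con, (sl_pos _).ne']

/-- The value of a constraint. -/
noncomputable def cv (i : Kind) (j : Fin 3) (α β : ℝ) : ℝ :=
  (con i j).1 * α + (con i j).2.1 * β + (con i j).2.2

/-- Coordinates in the sectors. -/
def al (k : Fin 3) (x y : ℝ) : ℝ := ![x, y - x, -y] k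
def be (k : Fin 3) (x y : ℝ) : ℝ := ![y, -x, x - y] k

theorem al_succ (k : Fin 3) (x y : ℝ) : al (k + 1) x y = be k x y - al k x y := by
  fin_cases k <;> simp [al, be] <;> ring

theorem be_succ (k : Fin 3) (x y : ℝ) : be (k + 1) x y = -al k x y := by
  fin_cases k <;> simp [al, be]

/-- A box around `z` inside the interior of `K`. -/
def GoodBox (K : Set Plane) (z : Plane) (ε : ℝ) : Prop :=
  0 < ε ∧ ∀ p : Plane, |p 0 - z 0| ≤ 2 * ε → |p 1 - z 1| ≤ 2 * ε → p ∈ interior K

theorem norm_le_coords (p : Plane) : ‖p‖ ≤ |p 0| + |p 1| := by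
  have e : p = pt (p 0) 0 + pt 0 (p 1) := by apply plane_ext <;> simp
  have n1 : ‖pt (p 0) 0‖ = |p 0| := by
    rw [EuclideanSpace.norm_eq, Fin.sum_univ_two]
    simp [Real.sqrt_sq_eq_abs]
  have n2 : ‖pt 0 (p 1)‖ = |p 1| := by
    rw [EuclideanSpace.norm_eq, Fin.sum_univ_two]
    simp [Real.sqrt_sq_eq_abs]
  calc ‖p‖ = ‖pt (p 0) 0 + pt 0 (p 1)‖ := by rw [← e]
    _ ≤ ‖pt (p 0) 0‖ + ‖pt 0 (p 1)‖ := norm_add_le _ _
    _ = _ := by rw [n1, n2]

theorem exists_box {K : Set Plane} (hK : (interior K).Nonempty) : ∃ z ε, GoodBox K z ε := by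
  obtain ⟨z, hz⟩ := hK
  obtain ⟨r, hr, hr2⟩ := Metric.isOpen_iff.mp isOpen_interior z hz
  refine ⟨z, r / 8, by positivity, fun p h0 h1 => hr2 ?_⟩
  rw [mem_ball, dist_eq_norm]
  refine (norm_le_coords _).trans_lt ?_
  simp only [PiLp.sub_apply]
  linarith

/-- The translate of `K` with reference point `0`. -/
noncomputable def nrm (K : Set Plane) : Set Plane := (fun p => -ref K + p) '' K

open Classical in
/-- A box for the interior of `K`. -/
noncomputable def zz (K : Set Plane) : Plane × ℝ :=
  if h : ∃ w : Plane × ℝ, GoodBox K w.1 w.2 then h.choose else (0, 1)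

/-- The centre of `P`, and the scale of `P`. -/
noncomputable def ctr (P : Set Plane) : Plane := ref P + (zz (nrm P)).1
noncomputable def scl (P : Set Plane) : ℝ := (zz (nrm P)).2

theorem scl_pos (P : Set Plane) : 0 < scl P := by
  unfold scl zz
  split_ifs with h
  · exact h.choose_spec.1
  · exact one_pos

theorem interior_shift (v : Plane) (K : Set Plane) :
    interior ((fun p => v + p) '' K) = (fun p => v + p) '' interior K :=
  ((Homeomorph.addLeft v).image_interior K).symm

theorem goodBox_ctr {P : Set Plane} (hP : (interior P).Nonempty) : GoodBox P (ctr P) (scl P) := by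
  have h1 : (interior (nrm P)).Nonempty := by
    unfold nrm
    rw [interior_shift]
    exact hP.image _
  obtain ⟨z, ε, hz⟩ := exists_box h1
  have h2 : ∃ w : Plane × ℝ, GoodBox (nrm P) w.1 w.2 := ⟨(z, ε), hz⟩
  have h3 : GoodBox (nrm P) (zz (nrm P)).1 (zz (nrm P)).2 := by
    unfold zz
    rw [dif_pos h2]
    exact h2.choose_spec
  refine ⟨h3.1, fun p hp0 hp1 => ?_⟩
  have h4 := h3.2 (-ref P + p) (by
    have : (-ref P + p) 0 - (zz (nrm P)).1 0 = p 0 - ctr P 0 := by
      unfold ctr; simp only [PiLp.add_apply, PiLp.neg_apply]; ring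
    rw [this]; exact hp0) (by
    have : (-ref P + p) 1 - (zz (nrm P)).1 1 = p 1 - ctr P 1 := by
      unfold ctr; simp only [PiLp.add_apply, PiLp.neg_apply]; ring
    rw [this]; exact hp1)
  unfold nrm at h4
  rw [interior_shift, mem_shift, neg_neg, add_neg_cancel_left] at h4
  exact h4

theorem nrm_shift (v : Plane) {K : Set Plane} (hne : K.Nonempty) (hb : Bornology.IsBounded K) :
    nrm ((fun p => v + p) '' K) = nrm K := by
  unfold nrm
  rw [ref_shift v hne hb, shift_shift]
  congr 1
  funext p
  congr 1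
  abel

theorem ctr_shift (v : Plane) {K : Set Plane} (hne : K.Nonempty) (hb : Bornology.IsBounded K) :
    ctr ((fun p => v + p) '' K) = v + ctr K := by
  unfold ctr
  rw [nrm_shift v hne hb, ref_shift v hne hb, add_assoc]

theorem scl_shift (v : Plane) {K : Set Plane} (hne : K.Nonempty) (hb : Bornology.IsBounded K) :
    scl ((fun p => v + p) '' K) = scl K := by
  unfold scl
  rw [nrm_shift v hne hb]

/-- Sector coordinates of `p` for the tile `P`. -/
noncomputable def A (k : Fin 3) (P : Set Plane) (p : Plane) : ℝ :=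
  al k ((p 0 - ctr P 0) / scl P) ((p 1 - ctr P 1) / scl P)
noncomputable def B (k : Fin 3) (P : Set Plane) (p : Plane) : ℝ :=
  be k ((p 0 - ctr P 0) / scl P) ((p 1 - ctr P 1) / scl P)

theorem A_succ (k : Fin 3) (P : Set Plane) (p : Plane) : A (k + 1) P p = B k P p - A k P p :=
  al_succ k _ _
theorem B_succ (k : Fin 3) (P : Set Plane) (p : Plane) : B (k + 1) P p = -A k P p :=
  be_succ k _ _
theorem A_succ2 (k : Fin 3) (P : Set Plane) (p : Plane) : A (k + 2) P p = -B k P p := by
  have : k + 2 = (k + 1) + 1 := by rw [add_assoc]; rfl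
  rw [this, A_succ, B_succ, A_succ]; ring
theorem B_succ2 (k : Fin 3) (P : Set Plane) (p : Plane) :
    B (k + 2) P p = A k P p - B k P p := by
  have : k + 2 = (k + 1) + 1 := by rw [add_assoc]; rfl
  rw [this, B_succ, A_succ]; ring

/-- The cell of kind `i` in sector `k` of `P`. -/
def cell (k : Fin 3) (i : Kind) (P : Set Plane) : Set Plane :=
  {p | p ∈ P ∧ ∀ j, cv i j (A k P p) (B k P p) ≤ 0}

theorem cell_subset (k : Fin 3) (i : Kind) (P : Set Plane) : cell k i P ⊆ P := fun _ h => h.1

theorem A_shift (k : Fin 3) (v : Plane) {K : Set Plane} (hne : K.Nonempty)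
    (hb : Bornology.IsBounded K) (p : Plane) :
    A k ((fun p => v + p) '' K) p = A k K (-v + p) := by
  unfold A
  rw [ctr_shift v hne hb, scl_shift v hne hb]
  simp only [PiLp.add_apply, PiLp.neg_apply]
  congr 2 <;> ring

theorem B_shift (k : Fin 3) (v : Plane) {K : Set Plane} (hne : K.Nonempty)
    (hb : Bornology.IsBounded K) (p : Plane) :
    B k ((fun p => v + p) '' K) p = B k K (-v + p) := by
  unfold B
  rw [ctr_shift v hne hb, scl_shift v hne hb]
  simp only [PiLp.add_apply, PiLp.neg_apply]
  congr 2 <;> ring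

theorem cell_shift (k : Fin 3) (i : Kind) (v : Plane) {K : Set Plane} (hne : K.Nonempty)
    (hb : Bornology.IsBounded K) :
    cell k i ((fun p => v + p) '' K) = (fun p => v + p) '' cell k i K := by
  ext p
  rw [mem_shift]
  unfold cell
  rw [mem_ofPred_eq, mem_ofPred_eq, mem_shift, A_shift k v hne hb, B_shift k v hne hb]

/-- The point with given sector coordinates. -/
noncomputable def pnt (k : Fin 3) (P : Set Plane) (α β : ℝ) : Plane :=
  ctr P + scl P • (![pt α β, pt (-β) (α - β), pt (β - α) (-α)] k)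

theorem A_pnt (k : Fin 3) (P : Set Plane) (α β : ℝ) : A k P (pnt k P α β) = α := by
  have h := (scl_pos P).ne'
  fin_cases k <;> simp [A, al, pnt] <;> field_simp
  ring

theorem B_pnt (k : Fin 3) (P : Set Plane) (α β : ℝ) : B k P (pnt k P α β) = β := by
  have h := (scl_pos P).ne'
  fin_cases k <;> simp [B, be, pnt] <;> field_simp
  ring

theorem eq_of_AB {k : Fin 3} {P : Set Plane} {p q : Plane} (hA : A k P p = A k P q)
    (hB : B k P p = B k P q) : p = q := by
  have h := (scl_pos P).ne'
  have key : (p 0 - ctr P 0) / scl P = (q 0 - ctr P 0) / scl P ∧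
      (p 1 - ctr P 1) / scl P = (q 1 - ctr P 1) / scl P := by
    fin_cases k <;> simp only [A, al, B, be, Fin.zero_eta, Fin.mk_one, Fin.reduceFinMk,
      Matrix.cons_val] at hA hB <;> constructor <;> linarith
  apply plane_ext
  · have := key.1
    rw [div_left_inj' h] at this
    linarith
  · have := key.2
    rw [div_left_inj' h] at this
    linarith

/-- Points with small sector coordinates are interior points of the tile. -/
theorem mem_interior_of_AB {P : Set Plane} (hP : (interior P).Nonempty) (k : Fin 3) {p : Plane}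
    (hA : |A k P p| ≤ 1) (hB : |B k P p| ≤ 1) : p ∈ interior P := by
  have hb := goodBox_ctr hP
  have hs := scl_pos P
  have key : |(p 0 - ctr P 0) / scl P| ≤ 2 ∧ |(p 1 - ctr P 1) / scl P| ≤ 2 := by
    rw [abs_le] at hA hB
    fin_cases k <;> simp only [A, al, B, be, Fin.zero_eta, Fin.mk_one, Fin.reduceFinMk,
      Matrix.cons_val] at hA hB <;> constructor <;> rw [abs_le] <;> constructor <;>
      linarith [hA.1, hA.2, hB.1, hB.2]
  apply hb.2
  · have := key.1
    rw [abs_div, abs_of_pos hs, div_le_iff₀ hs] at this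
    exact this
  · have := key.2
    rw [abs_div, abs_of_pos hs, div_le_iff₀ hs] at this
    exact this

theorem continuous_A (k : Fin 3) (P : Set Plane) : Continuous (A k P) := by
  have h0 : Continuous (fun p : Plane => p 0) := by fun_prop
  have h1 : Continuous (fun p : Plane => p 1) := by fun_prop
  fin_cases k
  · exact (h0.sub continuous_const).div_const _
  · exact ((h1.sub continuous_const).div_const _).sub ((h0.sub continuous_const).div_const _)
  · exact ((h1.sub continuous_const).div_const _).neg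

theorem continuous_B (k : Fin 3) (P : Set Plane) : Continuous (B k P) := by
  have h0 : Continuous (fun p : Plane => p 0) := by fun_prop
  have h1 : Continuous (fun p : Plane => p 1) := by fun_prop
  fin_cases k
  · exact (h1.sub continuous_const).div_const _
  · exact ((h0.sub continuous_const).div_const _).neg
  · exact ((h0.sub continuous_const).div_const _).sub ((h1.sub continuous_const).div_const _)

/-- Affine functions of the sector coordinates are affine functions on the plane. -/
theorem lin_AB (k : Fin 3) (P : Set Plane) (u v w : ℝ) :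
    ∃ (n : Plane) (c : ℝ), (∀ p, u * A k P p + v * B k P p + w = ⟪n, p⟫_ℝ - c) ∧
      ((u ≠ 0 ∨ v ≠ 0) → n ≠ 0) := by
  have hs := (scl_pos P).ne'
  obtain ⟨n, c, hnc⟩ : ∃ (n : Plane) (c : ℝ),
      ∀ p, u * A k P p + v * B k P p + w = ⟪n, p⟫_ℝ - c := by
    fin_cases k
    · refine ⟨pt (u / scl P) (v / scl P), u * ctr P 0 / scl P + v * ctr P 1 / scl P - w, fun p => ?_⟩
      rw [inner_plane]
      simp [A, al, B, be]
      field_simp
      ring
    · refine ⟨pt ((-u - v) / scl P) (u / scl P),
        (-u - v) * ctr P 0 / scl P + u * ctr P 1 / scl P - w, fun p => ?_⟩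
      rw [inner_plane]
      simp [A, al, B, be]
      field_simp
      ring
    · refine ⟨pt (v / scl P) ((-u - v) / scl P),
        v * ctr P 0 / scl P + (-u - v) * ctr P 1 / scl P - w, fun p => ?_⟩
      rw [inner_plane]
      simp [A, al, B, be]
      field_simp
      ring
  refine ⟨n, c, hnc, ?_⟩
  rintro h rfl
  have h1 := hnc (pnt k P 0 0)
  have h2 := hnc (pnt k P 1 0)
  have h3 := hnc (pnt k P 0 1)
  rw [A_pnt, B_pnt, inner_zero_left] at h1 h2 h3
  rcases h with h | h
  · apply h; linarith
  · apply h; linarith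

end Pool.Agent.helper97.Tiling
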