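import Mathlib
import Pool.Agent.helper97.Tiling.Ladder

/-! # The ladder cells: polygons, covering, disjointness, intersections -/

namespace Pool.Agent.helper97.Tiling

open Set Metric
open scoped InnerProductSpace

/-- Interior point of the cell, in sector coordinates. -/
noncomputable def ip : Kind → ℝ × ℝ
  | .U => (3 / 5, 3 / 5)
  | .O1 => (1 / 10, 3 / 10)
  | .O2 => (2 / 5, 2 / 5)
  | .a n => (1 / 4, 3 / 16 * sl n)
  | .b n => (3 / 4 - 3 / 16 * sl n, 3 / 16 * sl n)

theorem cv_ip (i : Kind) (j : Fin 3) : cv i j (ip i).1 (ip i).2 < 0 := by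
  cases i with
  | U => fin_cases j <;> norm_num [cv, con, ip]
  | O1 => fin_cases j <;> norm_num [cv, con, ip]
  | O2 => fin_cases j <;> norm_num [cv, con, ip]
  | a n =>
    have h1 := sl_pos n
    have h2 := sl_le_one n
    have h3 := sl_succ n
    fin_cases j <;> simp [cv, con, ip] <;> nlinarith
  | b n =>
    have h1 := sl_pos n
    have h2 := sl_le_one n
    have h3 := sl_succ n
    fin_cases j <;> simp [cv, con, ip] <;> nlinarith

theorem ip_bound (i : Kind) : |(ip i).1| ≤ 1 ∧ |(ip i).2| ≤ 1 := by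
  cases i with
  | U => norm_num [ip]
  | O1 => norm_num [ip]
  | O2 => norm_num [ip]
  | a n =>
    have h1 := sl_pos n
    have h2 := sl_le_one n
    simp only [ip, abs_le]
    refine ⟨⟨?_, ?_⟩, ⟨?_, ?_⟩⟩ <;> linarith
  | b n =>
    have h1 := sl_pos n
    have h2 := sl_le_one n
    simp only [ip, abs_le]
    refine ⟨⟨?_, ?_⟩, ⟨?_, ?_⟩⟩ <;> linarith

theorem continuous_cv (k : Fin 3) (i : Kind) (j : Fin 3) (P : Set Plane) :
    Continuous (fun p => cv i j (A k P p) (B k P p)) := by
  unfold cv
  have := continuous_A k P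
  have := continuous_B k P
  fun_prop

theorem isPolygon_cell {P : Set Plane} (hP : IsPolygon P) (hi : (interior P).Nonempty)
    (k : Fin 3) (i : Kind) : IsPolygon (cell k i P) := by
  classical
  obtain ⟨hne, hc, hd, H, hH, hPH⟩ := hP
  choose n c hnc hn0 using fun j => lin_AB k P (con i j).1 (con i j).2.1 (con i j).2.2
  have hcv : ∀ j p, cv i j (A k P p) (B k P p) ≤ 0 ↔ ⟪n j, p⟫_ℝ ≤ c j := by
    intro j p
    unfold cv
    rw [hnc j p]
    constructor <;> intro h <;> linarith
  set H' : Finset (Plane × ℝ) := H ∪ Finset.univ.image (fun j : Fin 3 => (n j, c j)) with hH'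
  have hmem : cell k i P = {x | ∀ h ∈ H', ⟪h.1, x⟫_ℝ ≤ h.2} := by
    ext p
    have hPm : p ∈ P ↔ ∀ h ∈ H, ⟪h.1, p⟫_ℝ ≤ h.2 := by
      conv_lhs => rw [hPH]
      exact Iff.rfl
    unfold cell
    rw [mem_ofPred_eq, mem_ofPred_eq, hPm]
    constructor
    · rintro ⟨h1, h2⟩ h hh
      rw [hH', Finset.mem_union] at hh
      rcases hh with hh | hh
      · exact h1 h hh
      · rw [Finset.mem_image] at hh
        obtain ⟨j, -, rfl⟩ := hh
        exact (hcv j p).mp (h2 j)
    · intro h
      refine ⟨fun g hg => h g (by rw [hH', Finset.mem_union]; exact Or.inl hg), fun j => ?_⟩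
      exact (hcv j p).mpr (h (n j, c j) (by
        rw [hH', Finset.mem_union]
        exact Or.inr (Finset.mem_image.mpr ⟨j, Finset.mem_univ j, rfl⟩)))
  have hclosed : IsClosed (cell k i P) := by
    have : cell k i P = P ∩ ⋂ j, {p | cv i j (A k P p) (B k P p) ≤ 0} := by
      ext p; unfold cell; simp
    rw [this]
    exact hc.isClosed.inter (isClosed_iInter fun j =>
      isClosed_le (continuous_cv k i j P) continuous_const)
  have hconv : Convex ℝ (cell k i P) := by
    rw [hmem]
    have : {x : Plane | ∀ h ∈ H', ⟪h.1, x⟫_ℝ ≤ h.2} = ⋂ h ∈ H', {x : Plane | ⟪h.1, x⟫_ℝ ≤ h.2} := by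
      ext p; simp
    rw [this]
    exact convex_iInter₂ fun h _ => halfplane_convex h.1 h.2
  have hint : (interior (cell k i P)).Nonempty := by
    refine ⟨pnt k P (ip i).1 (ip i).2, ?_⟩
    rw [mem_interior]
    refine ⟨interior P ∩ ⋂ j, {p | cv i j (A k P p) (B k P p) < 0}, ?_, ?_, ?_⟩
    · rintro p ⟨h1, h2⟩
      rw [mem_iInter] at h2
      exact ⟨interior_subset h1, fun j => (h2 j).le⟩
    · exact isOpen_interior.inter (isOpen_iInter_of_finite fun j =>
        isOpen_lt (continuous_cv k i j P) continuous_const)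
    · refine ⟨mem_interior_of_AB hi k ?_ ?_, ?_⟩
      · rw [A_pnt]; exact (ip_bound i).1
      · rw [B_pnt]; exact (ip_bound i).2
      · rw [mem_iInter]
        intro j
        rw [mem_ofPred_eq, A_pnt, B_pnt]
        exact cv_ip i j
  refine ⟨hint.mono interior_subset, hc.of_isClosed_subset hclosed (cell_subset k i P), ?_,
    H', ?_, hmem⟩
  · have := hconv.closure_interior_eq_closure_of_nonempty_interior hint
    rw [this]
    exact subset_closure
  · intro h hh
    rw [hH', Finset.mem_union] at hh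
    rcases hh with hh | hh
    · exact hH h hh
    · rw [Finset.mem_image] at hh
      obtain ⟨j, -, rfl⟩ := hh
      exact hn0 j (con_ne i j)

theorem interior_nonempty_of_polygon {P : Set Plane} (hP : IsPolygon P) :
    (interior P).Nonempty := by
  obtain ⟨⟨x, hx⟩, -, hd, -⟩ := hP
  exact closure_nonempty_iff.mp ⟨x, hd hx⟩

/-! ### Covering -/

theorem exists_rung {β μ : ℝ} (h1 : 0 < β) (h2 : β ≤ μ) :
    ∃ n, sl (n + 1) * μ ≤ β ∧ β ≤ sl n * μ := by
  have hμ : 0 < μ := h1.trans_le h2
  have h3 : 0 < β / μ := div_pos h1 hμ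
  have h4 : β / μ ≤ 1 := by rw [div_le_one hμ]; exact h2
  obtain ⟨n, hn1, hn2⟩ := exists_nat_pow_near_of_lt_one h3 h4 (by norm_num : (0 : ℝ) < 1 / 2)
    (by norm_num)
  refine ⟨n, ?_, ?_⟩
  · rw [lt_div_iff₀ hμ] at hn1
    exact hn1.le
  · rw [div_le_iff₀ hμ] at hn2
    exact hn2

theorem exists_sector (P : Set Plane) (p : Plane) : ∃ k : Fin 3, 0 ≤ A k P p ∧ 0 ≤ B k P p := by
  set x := (p 0 - ctr P 0) / scl P with hx
  set y := (p 1 - ctr P 1) / scl P with hy
  have h0 : A 0 P p = x ∧ B 0 P p = y := ⟨rfl, rfl⟩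
  have h1 : A 1 P p = y - x ∧ B 1 P p = -x := ⟨rfl, rfl⟩
  have h2 : A 2 P p = -y ∧ B 2 P p = x - y := ⟨rfl, rfl⟩
  by_cases hx0 : 0 ≤ x
  · by_cases hy0 : 0 ≤ y
    · exact ⟨0, by rw [h0.1]; exact hx0, by rw [h0.2]; exact hy0⟩
    · push Not at hy0
      exact ⟨2, by rw [h2.1]; linarith, by rw [h2.2]; linarith⟩
  · push Not at hx0
    by_cases hxy : x ≤ y
    · exact ⟨1, by rw [h1.1]; linarith, by rw [h1.2]; linarith⟩
    · push Not at hxy
      exact ⟨2, by rw [h2.1]; linarith, by rw [h2.2]; linarith⟩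

theorem mem_cell_iff {k : Fin 3} {i : Kind} {P : Set Plane} {p : Plane} :
    p ∈ cell k i P ↔ p ∈ P ∧ ∀ j, cv i j (A k P p) (B k P p) ≤ 0 := Iff.rfl

theorem cover_cell {P : Set Plane} {p : Plane} (hp : p ∈ P) : ∃ k i, p ∈ cell k i P := by
  obtain ⟨k, hA, hB⟩ := exists_sector P p
  set α := A k P p with hα
  set β := B k P p with hβ
  by_cases h1 : 1 ≤ α + β
  · refine ⟨k, .U, hp, fun j => ?_⟩
    rw [← hα, ← hβ]
    fin_cases j <;> simp [cv, con] <;> linarith
  push Not at h1
  by_cases h2 : β = 0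
  · refine ⟨k + 2, .O1, hp, fun j => ?_⟩
    rw [A_succ2, B_succ2, ← hα, ← hβ, h2]
    fin_cases j <;> simp [cv, con] <;> linarith
  have h3 : 0 < β := lt_of_le_of_ne hB (Ne.symm h2)
  by_cases h4 : α ≤ β ∧ α ≤ 1 - α - β
  · refine ⟨k, .O1, hp, fun j => ?_⟩
    rw [← hα, ← hβ]
    fin_cases j <;> simp [cv, con] <;> linarith [h4.1, h4.2]
  by_cases h5 : 1 - α - β ≤ β ∧ 1 - α - β ≤ α
  · refine ⟨k, .O2, hp, fun j => ?_⟩
    rw [← hα, ← hβ]
    fin_cases j <;> simp [cv, con] <;> linarith [h5.1, h5.2]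
  have h6 : β ≤ α ∧ β ≤ 1 - α - β := by
    rw [not_and_or, not_le, not_le] at h4 h5
    rcases h4 with h4 | h4 <;> rcases h5 with h5 | h5 <;> constructor <;> linarith
  by_cases h7 : α ≤ 1 - α - β
  · obtain ⟨n, hn1, hn2⟩ := exists_rung h3 h6.1
    refine ⟨k, .a n, hp, fun j => ?_⟩
    rw [← hα, ← hβ]
    fin_cases j <;> simp [cv, con] <;> linarith
  · push Not at h7
    obtain ⟨n, hn1, hn2⟩ := exists_rung h3 h6.2
    refine ⟨k, .b n, hp, fun j => ?_⟩
    rw [← hα, ← hβ]
    fin_cases j <;> simp [cv, con] <;> nlinarith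

/-! ### The interiors of the cells -/

theorem interior_cell_strict {k : Fin 3} {i : Kind} {P : Set Plane} {p : Plane}
    (hp : p ∈ interior (cell k i P)) (j : Fin 3) : cv i j (A k P p) (B k P p) < 0 := by
  obtain ⟨n, c, hnc, hn0⟩ := lin_AB k P (con i j).1 (con i j).2.1 (con i j).2.2
  have hn := hn0 (con_ne i j)
  have hle : ∀ q ∈ cell k i P, ⟪n, q⟫_ℝ ≤ c := by
    intro q hq
    have := hq.2 j
    unfold cv at this
    rw [hnc q] at this
    linarith
  have hn2 : 0 < ‖n‖ := norm_pos_iff.mpr hn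
  obtain ⟨r, hr, hr2⟩ := Metric.isOpen_iff.mp isOpen_interior p hp
  have hq : p + (r / 2 / ‖n‖) • n ∈ cell k i P := by
    apply interior_subset
    apply hr2
    rw [mem_ball, dist_eq_norm, add_sub_cancel_left, norm_smul, Real.norm_eq_abs,
      abs_of_pos (by positivity), div_mul_cancel₀ _ hn2.ne']
    linarith
  have h1 := hle _ hq
  rw [inner_add_right, inner_smul_right, real_inner_self_eq_norm_sq] at h1
  have h2 : 0 < r / 2 / ‖n‖ * ‖n‖ ^ 2 := by positivity
  have h3 := hnc p
  unfold cv
  rw [h3]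
  linarith

theorem strict_pos {k : Fin 3} {i : Kind} {P : Set Plane} {p : Plane}
    (h : ∀ j, cv i j (A k P p) (B k P p) < 0) : 0 < A k P p ∧ 0 < B k P p := by
  set α := A k P p with hα
  set β := B k P p with hβ
  have h0 := h 0
  have h1 := h 1
  have h2 := h 2
  cases i with
  | U => simp [cv, con] at h0 h1 h2; constructor <;> linarith
  | O1 => simp [cv, con] at h0 h1 h2; constructor <;> linarith
  | O2 => simp [cv, con] at h0 h1 h2; constructor <;> linarith
  | a n =>
    simp [cv, con] at h0 h1 h2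
    have h3 := sl_pos n
    rw [sl_succ] at h0
    have : 0 < α := by
      by_contra hc
      push Not at hc
      nlinarith
    constructor
    · exact this
    · nlinarith
  | b n =>
    simp [cv, con] at h0 h1 h2
    have h3 := sl_pos n
    rw [sl_succ] at h0
    have : 0 < 1 - α - β := by
      by_contra hc
      push Not at hc
      nlinarith
    constructor
    · linarith
    · nlinarith

/-- The smallest barycentric coordinate decides the kind of cell. -/
theorem strict_kind {i i' : Kind} {α β : ℝ} (hα : 0 < α) (hβ : 0 < β)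
    (h : ∀ j, cv i j α β < 0) (h' : ∀ j, cv i' j α β < 0) : i = i' := by
  have h0 := h 0
  have h1 := h 1
  have h2 := h 2
  have g0 := h' 0
  have g1 := h' 1
  have g2 := h' 2
  clear h h'
  have key : ∀ {m n : ℕ} {μ : ℝ}, 0 < μ → sl (m + 1) * μ < β → β < sl m * μ →
      sl (n + 1) * μ < β → β < sl n * μ → m = n := by
    intro m n μ hμ a1 a2 a3 a4
    by_contra hne
    rcases Nat.lt_or_gt_of_ne hne with hlt | hlt
    · have := sl_anti (Nat.succ_le_of_lt hlt)
      have : sl n * μ ≤ sl (m + 1) * μ := mul_le_mul_of_nonneg_right this hμ.le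
      linarith
    · have := sl_anti (Nat.succ_le_of_lt hlt)
      have : sl m * μ ≤ sl (n + 1) * μ := mul_le_mul_of_nonneg_right this hμ.le
      linarith
  -- upper bounds for ladder cells
  have la : ∀ {n : ℕ}, β < sl n * α → β < α := by
    intro n hh
    have := sl_le_one n
    have : sl n * α ≤ 1 * α := mul_le_mul_of_nonneg_right this hα.le
    linarith
  have lb : ∀ {n : ℕ}, 0 < 1 - α - β → sl n * α + (1 + sl n) * β < sl n → β < 1 - α - β := by
    intro n hγ hh
    have := sl_le_one n
    have : sl n * (1 - α - β) ≤ 1 * (1 - α - β) := mul_le_mul_of_nonneg_right this hγ.le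
    linarith
  have lg : ∀ {n : ℕ}, sl n * α + (1 + sl n) * β < sl n → 0 < 1 - α - β := by
    intro n hh
    by_contra hc
    push Not at hc
    have := sl_pos n
    nlinarith
  cases i <;> cases i' <;> simp [cv, con] at h0 h1 h2 g0 g1 g2 ⊢
  case U.O1 => linarith
  case U.O2 => linarith
  case U.a n => linarith
  case U.b n => have := lg g1; linarith
  case O1.U => linarith
  case O1.O2 => linarith
  case O1.a n => have := la g1; linarith
  case O1.b n => linarith
  case O2.U => linarith
  case O2.O1 => linarith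
  case O2.a n => linarith
  case O2.b n => have := lb (lg g1) g1; linarith
  case a.U n => linarith
  case a.O1 n => have := la h1; linarith
  case a.O2 n => linarith
  case a.a n m => exact key hα (by linarith) (by linarith) (by linarith) (by linarith)
  case a.b n m => linarith
  case b.U n => have := lg h1; linarith
  case b.O1 n => linarith
  case b.O2 n => have := lb (lg h1) h1; linarith
  case b.a n m => linarith
  case b.b n m =>
    exact key (lg h1) (by nlinarith) (by nlinarith) (by nlinarith) (by nlinarith)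

theorem sector_cases (k k' : Fin 3) : k' = k ∨ k' = k + 1 ∨ k' = k + 2 := by
  revert k k'
  decide

theorem disjoint_interior_cell {P : Set Plane} {k k' : Fin 3} {i i' : Kind}
    (h : (k, i) ≠ (k', i')) : Disjoint (interior (cell k i P)) (interior (cell k' i' P)) := by
  rw [Set.disjoint_left]
  intro p hp hp'
  have s := interior_cell_strict hp
  have s' := interior_cell_strict hp'
  have q := strict_pos s
  have q' := strict_pos s'
  rcases sector_cases k k' with rfl | rfl | rfl
  · apply h
    rw [strict_kind q.1 q.2 s s']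
  · rw [A_succ, B_succ] at q'
    linarith [q.1, q'.2]
  · rw [A_succ2, B_succ2] at q'
    linarith [q.2, q'.1]

end Pool.Agent.helper97.Tiling
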