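import Mathlib
import Pool.Agent.helper97.Tiling.Ladder2

/-! # The ladder tiling is MLD to the given tiling -/

namespace Pool.Agent.helper97.Tiling

open Set Metric
open scoped InnerProductSpace

variable {C : Type}

/-- Colours of the ladder cells: the index of the cell, the normalised tile, its colour. -/
abbrev LC (C : Type) := (Fin 3 × Kind) × Set Plane × C

/-- The coloured cell with index `κ` of the tile `t`. -/
noncomputable def cel (κ : Fin 3 × Kind) (t : Tile C) : Tile (LC C) :=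
  (cell κ.1 κ.2 t.1, (κ, nrm t.1, t.2))

/-- The ladder tiling. -/
def ladderT (T : Set (Tile C)) : Set (Tile (LC C)) := {s | ∃ t ∈ T, ∃ κ, s = cel κ t}

theorem cel_mem {T : Set (Tile C)} {t : Tile C} (ht : t ∈ T) (κ : Fin 3 × Kind) :
    cel κ t ∈ ladderT T := ⟨t, ht, κ, rfl⟩

theorem tmv_cel (v : Plane) (κ : Fin 3 × Kind) {t : Tile C} (h1 : t.1.Nonempty)
    (h2 : Bornology.IsBounded t.1) : tmv v (cel κ t) = cel κ (tmv v t) := by
  unfold tmv cel
  rw [cell_shift κ.1 κ.2 v h1 h2, nrm_shift v h1 h2]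

theorem isPolygonalTiling_ladder {T : Set (Tile C)} (hT : IsPolygonalTiling T) :
    IsPolygonalTiling (ladderT T) := by
  have hpoly : ∀ t ∈ T, ∀ κ : Fin 3 × Kind, IsPolygon (cel κ t).1 := fun t ht κ =>
    isPolygon_cell (hT.polygon t ht) (interior_nonempty_of_polygon (hT.polygon t ht)) κ.1 κ.2
  refine { countable := ?_, nonempty := ?_, closed := ?_, cover := ?_, disjoint := ?_,
           polygon := ?_ }
  · have : ladderT T = (fun q : Tile C × (Fin 3 × Kind) => cel q.2 q.1) '' (T ×ˢ univ) := by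
      ext s
      constructor
      · rintro ⟨t, ht, κ, rfl⟩
        exact ⟨(t, κ), ⟨ht, mem_univ _⟩, rfl⟩
      · rintro ⟨⟨t, κ⟩, ⟨ht, -⟩, rfl⟩
        exact cel_mem ht κ
    rw [this]
    exact (hT.countable.prod countable_univ).image _
  · rintro _ ⟨t, ht, κ, rfl⟩
    exact (hpoly t ht κ).1
  · rintro _ ⟨t, ht, κ, rfl⟩
    exact (hpoly t ht κ).2.1.isClosed
  · rw [eq_univ_iff_forall]
    intro p
    have hp : p ∈ ⋃ t ∈ T, t.1 := by rw [hT.cover]; trivial
    rw [mem_iUnion₂] at hp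
    obtain ⟨t, ht, hpt⟩ := hp
    obtain ⟨k, i, hki⟩ := cover_cell hpt
    rw [mem_iUnion₂]
    exact ⟨cel (k, i) t, cel_mem ht _, hki⟩
  · rintro _ ⟨t, ht, κ, rfl⟩ _ ⟨t', ht', κ', rfl⟩ hne
    by_cases htt : t = t'
    · subst htt
      apply disjoint_interior_cell
      rintro h
      apply hne
      have : κ = κ' := h
      rw [this]
    · exact (hT.disjoint t ht t' ht' htt).mono (interior_mono (cell_subset _ _ _))
        (interior_mono (cell_subset _ _ _))
  · rintro _ ⟨t, ht, κ, rfl⟩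
    exact hpoly t ht κ

theorem shift_nrm (K : Set Plane) : (fun p => ref K + p) '' nrm K = K := by
  unfold nrm
  rw [shift_shift, add_neg_cancel, shift_zero]

theorem cel_injective {κ κ' : Fin 3 × Kind} {t t' : Tile C} (h1 : IsPolygon t.1)
    (h : cel κ t = cel κ' t') : κ = κ' ∧ t = t' := by
  have hc : cell κ.1 κ.2 t.1 = cell κ'.1 κ'.2 t'.1 := congrArg Prod.fst h
  have hκ : κ = κ' := congrArg (fun s : Tile (LC C) => s.2.1) h
  have hn : nrm t.1 = nrm t'.1 := congrArg (fun s : Tile (LC C) => s.2.2.1) h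
  have h2 : t.2 = t'.2 := congrArg (fun s : Tile (LC C) => s.2.2.2) h
  subst hκ
  refine ⟨rfl, ?_⟩
  have hne := h1.1
  have hb : Bornology.IsBounded t.1 := h1.2.1.isBounded
  have e : t'.1 = (fun p => (ref t'.1 - ref t.1) + p) '' t.1 := by
    calc t'.1 = (fun p => ref t'.1 + p) '' nrm t'.1 := (shift_nrm _).symm
      _ = (fun p => ref t'.1 + p) '' nrm t.1 := by rw [hn]
      _ = (fun p => (ref t'.1 - ref t.1) + p) '' ((fun p => ref t.1 + p) '' nrm t.1) := by
        rw [shift_shift, sub_add_cancel]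
      _ = _ := by rw [shift_nrm]
  have hcell := isPolygon_cell h1 (interior_nonempty_of_polygon h1) κ.1 κ.2
  have h3 : cell κ.1 κ.2 t.1 = (fun p => (ref t'.1 - ref t.1) + p) '' cell κ.1 κ.2 t.1 := by
    rw [← cell_shift κ.1 κ.2 _ hne hb, ← e]
    exact hc
  have h4 := congrArg ref h3
  rw [ref_shift _ hcell.1 hcell.2.1.isBounded] at h4
  have h5 : ref t'.1 - ref t.1 = 0 := by
    have := h4
    rwa [right_eq_add] at this
  rw [h5, shift_zero] at e
  exact Prod.ext e.symm h2

theorem ladder_subset {T : Set (Tile C)} (hT : IsPolygonalTiling T) {x y : Plane}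
    (h : patch (move (-x) T) (ball 0 1) = patch (move (-y) T) (ball 0 1)) :
    patch (move (-x) (ladderT T)) {0} ⊆ patch (move (-y) (ladderT T)) {0} := by
  rintro s ⟨hs, hs0⟩
  refine ⟨?_, hs0⟩
  rw [mem_move, neg_neg] at hs ⊢
  obtain ⟨t, ht, κ, hκ⟩ := hs
  have hp := hT.polygon t ht
  have hs' : s = cel κ (tmv (-x) t) := by
    rw [← tmv_cel (-x) κ hp.1 hp.2.1.isBounded, ← hκ, tmv_tmv, neg_add_cancel, tmv_zero]
  have h0 : (0 : Plane) ∈ s.1 := by
    obtain ⟨q, hq, hq0⟩ := hs0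
    rw [mem_singleton_iff] at hq0
    rwa [hq0] at hq
  have h1 : tmv (-x) t ∈ patch (move (-x) T) (ball 0 1) := by
    refine ⟨?_, 0, ?_, ?_⟩
    · rw [mem_move, neg_neg, tmv_tmv, add_neg_cancel, tmv_zero]
      exact ht
    · rw [hs'] at h0
      exact cell_subset _ _ _ h0
    · exact mem_ball_self one_pos
  rw [h] at h1
  have h2 := h1.1
  rw [mem_move, neg_neg] at h2
  refine ⟨_, h2, κ, ?_⟩
  have hp2 := hT.polygon _ h2
  rw [hs', tmv_cel]
  · exact hp.1.image _
  · have : (tmv (-x) t).1 = (fun p => -y + p) '' (tmv y (tmv (-x) t)).1 := by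
      unfold tmv
      rw [shift_shift, shift_shift, neg_add_cancel, zero_add]
    rw [this]
    exact (hp2.2.1.image (by fun_prop)).isBounded

theorem base_subset {T : Set (Tile C)} (hT : IsPolygonalTiling T) {x y : Plane}
    (h : patch (move (-x) (ladderT T)) (ball 0 1) = patch (move (-y) (ladderT T)) (ball 0 1)) :
    patch (move (-x) T) {0} ⊆ patch (move (-y) T) {0} := by
  rintro t ⟨ht, ht0⟩
  refine ⟨?_, ht0⟩
  rw [mem_move, neg_neg] at ht ⊢
  have hp := hT.polygon _ ht
  have e1 : t = tmv (-x) (tmv x t) := by rw [tmv_tmv, neg_add_cancel, tmv_zero]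
  have h0 : (0 : Plane) ∈ t.1 := by
    obtain ⟨q, hq, hq0⟩ := ht0
    rw [mem_singleton_iff] at hq0
    rwa [hq0] at hq
  obtain ⟨k, i, hki⟩ := cover_cell h0
  have hb : Bornology.IsBounded t.1 := by
    rw [e1]
    exact (hp.2.1.image (f := fun p => -x + p) (by fun_prop)).isBounded
  have hpt : IsPolygon (tmv x t).1 := hp
  have h1 : cel (k, i) t ∈ patch (move (-x) (ladderT T)) (ball 0 1) := by
    refine ⟨?_, 0, hki, ?_⟩
    · rw [mem_move, neg_neg, tmv_cel x (k, i) ⟨0, h0⟩ hb]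
      exact cel_mem ht _
    · exact mem_ball_self one_pos
  rw [h] at h1
  have h2 := h1.1
  rw [mem_move, neg_neg, tmv_cel y (k, i) ⟨0, h0⟩ hb] at h2
  obtain ⟨t', ht', κ', hκ'⟩ := h2
  have h3 := cel_injective (hT.polygon t' ht') hκ'.symm
  rw [← h3.2]
  exact ht'

theorem mld_ladder {T : Set (Tile C)} (hT : IsPolygonalTiling T) : MLD T (ladderT T) :=
  ⟨⟨1, one_pos, fun _ _ h => Subset.antisymm (ladder_subset hT h) (ladder_subset hT h.symm)⟩,
   ⟨1, one_pos, fun _ _ h => Subset.antisymm (base_subset hT h) (base_subset hT h.symm)⟩⟩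

/-! ### Intersections of cells -/

/-- The cells inside a sector which touch few other cells. -/
def inner : Kind → Prop
  | .a _ => True
  | .b _ => True
  | .O2 => True
  | _ => False

/-- Possible neighbours in the same sector of the cells `a n`, `b n`, `O2`. -/
def nb : Kind → Kind → Prop
  | .a n, i => i = .a (n + 1) ∨ i = .b n ∨ (n = 0 ∧ i = .O1) ∨ ∃ m, n = m + 1 ∧ i = .a m
  | .b n, i => i = .b (n + 1) ∨ i = .a n ∨ (n = 0 ∧ i = .O2) ∨ ∃ m, n = m + 1 ∧ i = .b m
  | .O2, i => i = .b 0 ∨ i = .O1 ∨ i = .U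
  | _, _ => False

theorem finite_nb (i : Kind) : {j | nb i j}.Finite := by
  cases i with
  | a n =>
    apply Set.Finite.subset (s := {.a (n + 1), .b n, .O1} ∪ {.a (n - 1)}) (by simp)
    intro i hi
    rcases hi with h | h | ⟨-, h⟩ | ⟨m, hm, h⟩
    · simp [h]
    · simp [h]
    · simp [h]
    · subst hm; simp [h]
  | b n =>
    apply Set.Finite.subset (s := {.b (n + 1), .a n, .O2} ∪ {.b (n - 1)}) (by simp)
    intro i hi
    rcases hi with h | h | ⟨-, h⟩ | ⟨m, hm, h⟩
    · simp [h]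
    · simp [h]
    · simp [h]
    · subst hm; simp [h]
  | O2 =>
    apply Set.Finite.subset (s := {.b 0, .O1, .U}) (by simp)
    intro i hi
    rcases hi with h | h | h <;> simp [h]
  | O1 => exact Set.Finite.subset Set.finite_empty fun _ h => h
  | U => exact Set.Finite.subset Set.finite_empty fun _ h => h

/-- A closed cell in sector coordinates. -/
def Reg (i : Kind) (α β : ℝ) : Prop := ∀ j, cv i j α β ≤ 0

theorem reg_U {α β : ℝ} : Reg .U α β ↔ 0 ≤ α ∧ 0 ≤ β ∧ 1 ≤ α + β := by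
  unfold Reg
  rw [Fin.forall_fin_succ, Fin.forall_fin_succ, Fin.forall_fin_one]
  simp [cv, con]
  intro _ _
  constructor <;> intro h <;> linarith

theorem reg_O1 {α β : ℝ} : Reg .O1 α β ↔ 0 ≤ α ∧ α ≤ β ∧ α ≤ 1 - α - β := by
  unfold Reg
  rw [Fin.forall_fin_succ, Fin.forall_fin_succ, Fin.forall_fin_one]
  simp [cv, con]
  intro _ _
  constructor <;> intro h <;> linarith

theorem reg_O2 {α β : ℝ} : Reg .O2 α β ↔ 0 ≤ 1 - α - β ∧ 1 - α - β ≤ α ∧ 1 - α - β ≤ β := by
  unfold Reg
  rw [Fin.forall_fin_succ, Fin.forall_fin_succ, Fin.forall_fin_one]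
  simp [cv, con]
  constructor
  · rintro ⟨h0, h1, h2⟩
    refine ⟨?_, ?_, ?_⟩ <;> linarith
  · rintro ⟨h0, h1, h2⟩
    refine ⟨?_, ?_, ?_⟩ <;> linarith

theorem reg_a {n : ℕ} {α β : ℝ} :
    Reg (.a n) α β ↔ sl (n + 1) * α ≤ β ∧ β ≤ sl n * α ∧ α ≤ 1 - α - β := by
  unfold Reg
  rw [Fin.forall_fin_succ, Fin.forall_fin_succ, Fin.forall_fin_one]
  simp [cv, con]
  intro _ _
  constructor <;> intro h <;> linarith

theorem reg_b {n : ℕ} {α β : ℝ} :
    Reg (.b n) α β ↔ sl (n + 1) * (1 - α - β) ≤ β ∧ β ≤ sl n * (1 - α - β) ∧ 1 - α - β ≤ α := by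
  unfold Reg
  rw [Fin.forall_fin_succ, Fin.forall_fin_succ, Fin.forall_fin_one]
  simp [cv, con]
  constructor
  · rintro ⟨h0, h1, h2⟩
    refine ⟨?_, ?_, ?_⟩ <;> nlinarith
  · rintro ⟨h0, h1, h2⟩
    refine ⟨?_, ?_, ?_⟩ <;> nlinarith

theorem reg_a_nonneg {n : ℕ} {α β : ℝ} (h : Reg (.a n) α β) : 0 ≤ α ∧ 0 ≤ β ∧ β ≤ α := by
  rw [reg_a, sl_succ] at h
  have h1 := sl_pos n
  have h2 := sl_le_one n
  have h3 : 0 ≤ α := by
    by_contra hc
    push Not at hc
    nlinarith [h.1, h.2.1]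
  refine ⟨h3, ?_, ?_⟩
  · have := h.1
    nlinarith
  · have := h.2.1
    nlinarith

theorem reg_b_nonneg {n : ℕ} {α β : ℝ} (h : Reg (.b n) α β) :
    0 ≤ 1 - α - β ∧ 0 ≤ β ∧ β ≤ 1 - α - β := by
  rw [reg_b, sl_succ] at h
  have h1 := sl_pos n
  have h2 := sl_le_one n
  have h3 : 0 ≤ 1 - α - β := by
    by_contra hc
    push Not at hc
    nlinarith [h.1, h.2.1]
  refine ⟨h3, ?_, ?_⟩
  · have := h.1
    nlinarith
  · have := h.2.1
    nlinarith

theorem reg_nonneg {i : Kind} {α β : ℝ} (h : Reg i α β) : 0 ≤ α ∧ 0 ≤ β := by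
  cases i with
  | U => rw [reg_U] at h; exact ⟨h.1, h.2.1⟩
  | O1 => rw [reg_O1] at h; exact ⟨h.1, by linarith [h.1, h.2.1]⟩
  | O2 => rw [reg_O2] at h; constructor <;> linarith [h.1, h.2.1, h.2.2]
  | a n => have := reg_a_nonneg h; exact ⟨this.1, this.2.1⟩
  | b n =>
    have := reg_b_nonneg h
    rw [reg_b] at h
    exact ⟨by linarith [this.1, h.2.2], this.2.1⟩

theorem sing_alpha {i : Kind} (hi : inner i) : ∃ β0 : ℝ, ∀ β, Reg i 0 β → β = β0 := by
  cases i with
  | U => exact absurd hi id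
  | O1 => exact absurd hi id
  | O2 =>
    refine ⟨1, fun β h => ?_⟩
    rw [reg_O2] at h
    linarith [h.1, h.2.1]
  | a n =>
    refine ⟨0, fun β h => ?_⟩
    rw [reg_a] at h
    linarith [h.1, h.2.1]
  | b n =>
    refine ⟨0, fun β h => ?_⟩
    have h1 := reg_b_nonneg h
    rw [reg_b] at h
    linarith [h1.1, h1.2.1, h1.2.2, h.2.2]

theorem sing_beta {i : Kind} (hi : inner i) : ∃ α0 : ℝ, ∀ α, Reg i α 0 → α = α0 := by
  cases i with
  | U => exact absurd hi id
  | O1 => exact absurd hi id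
  | O2 =>
    refine ⟨1, fun α h => ?_⟩
    rw [reg_O2] at h
    linarith [h.1, h.2.2]
  | a n =>
    refine ⟨0, fun α h => ?_⟩
    have h1 := reg_a_nonneg h
    rw [reg_a] at h
    have := sl_pos (n + 1)
    have h2 : α ≤ 0 := by
      by_contra hc
      push Not at hc
      have := mul_pos this hc
      linarith [h.1]
    exact le_antisymm h2 h1.1
  | b n =>
    refine ⟨1, fun α h => ?_⟩
    have h1 := reg_b_nonneg h
    rw [reg_b] at h
    have := sl_pos (n + 1)
    have h2 : 1 - α - 0 ≤ 0 := by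
      by_contra hc
      push Not at hc
      have := mul_pos this hc
      linarith [h.1]
    linarith [h1.1]

/-- Rungs at distance at least two. -/
theorem rung_far {m n : ℕ} (h : n + 2 ≤ m) {μ β : ℝ} (hμ : 0 ≤ μ) (h1 : β ≤ sl m * μ)
    (h2 : sl (n + 1) * μ ≤ β) : μ = 0 ∧ β = 0 := by
  have h3 := sl_anti h
  have h4 : sl m * μ ≤ sl (n + 2) * μ := mul_le_mul_of_nonneg_right h3 hμ
  have h5 : sl (n + 2) = sl (n + 1) / 2 := sl_succ (n + 1)
  have h6 := sl_pos (n + 1)
  have h7 : μ ≤ 0 := by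
    by_contra hc
    push Not at hc
    have := mul_pos h6 hc
    rw [h5] at h4
    nlinarith
  have h8 : μ = 0 := le_antisymm h7 hμ
  refine ⟨h8, ?_⟩
  rw [h8] at h1 h2
  linarith

theorem rung_eq {m n : ℕ} (h : n + 1 ≤ m) {μ β : ℝ} (hμ : 0 ≤ μ) (h1 : β ≤ sl m * μ)
    (h2 : sl (n + 1) * μ ≤ β) : β = sl (n + 1) * μ := by
  have h3 := sl_anti h
  have h4 : sl m * μ ≤ sl (n + 1) * μ := mul_le_mul_of_nonneg_right h3 hμ
  linarith

theorem a_b_point {n m : ℕ} (hne : n ≠ m) : ∃ α0 β0 : ℝ, ∀ α β, Reg (.a n) α β → Reg (.b m) α β →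
    α = α0 ∧ β = β0 := by
  set l := min n m with hl
  have hs := sl_pos (l + 1)
  refine ⟨1 / (2 + sl (l + 1)), sl (l + 1) / (2 + sl (l + 1)), fun α β ha hb => ?_⟩
  have h1 := reg_a_nonneg ha
  rw [reg_a] at ha
  rw [reg_b] at hb
  have h2 : 1 - α - β = α := le_antisymm hb.2.2 ha.2.2
  rw [h2] at hb
  have h3 : β = sl (l + 1) * α := by
    rcases Nat.lt_or_gt_of_ne hne with h | h
    · have : l = n := by omega
      rw [this]
      exact rung_eq h h1.1 hb.2.1 ha.1
    · have : l = m := by omega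
      rw [this]
      exact rung_eq h h1.1 ha.2.1 hb.1
  have h4 : α * (2 + sl (l + 1)) = 1 := by rw [h3] at h2; linarith
  have h5 : α = 1 / (2 + sl (l + 1)) := by
    rw [eq_div_iff (by positivity)]; exact h4
  refine ⟨h5, ?_⟩
  rw [h3, h5]
  ring

theorem sing_same {i i' : Kind} (hi : inner i) (hne : i' ≠ i) (hnb : ¬ nb i i') :
    ∃ α0 β0 : ℝ, ∀ α β, Reg i α β → Reg i' α β → α = α0 ∧ β = β0 := by
  cases i with
  | U => exact absurd hi id
  | O1 => exact absurd hi id
  | O2 =>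
    cases i' with
    | U => exact absurd (Or.inr (Or.inr rfl)) hnb
    | O1 => exact absurd (Or.inr (Or.inl rfl)) hnb
    | O2 => exact absurd rfl hne
    | a m =>
      refine ⟨1 / 3, 1 / 3, fun α β h h' => ?_⟩
      have h1 := reg_a_nonneg h'
      rw [reg_O2] at h
      rw [reg_a] at h'
      constructor <;> linarith [h.1, h.2.1, h.2.2, h1.2.2, h'.2.2]
    | b m =>
      have hm : m ≠ 0 := by
        rintro rfl
        exact hnb (Or.inl rfl)
      obtain ⟨m', rfl⟩ := Nat.exists_eq_succ_of_ne_zero hm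
      refine ⟨1, 0, fun α β h h' => ?_⟩
      have h1 := reg_b_nonneg h'
      rw [reg_O2] at h
      rw [reg_b] at h'
      have h2 : sl (m' + 1) ≤ 1 / 2 := by rw [sl_succ]; linarith [sl_le_one m']
      have h3 : β ≤ 1 / 2 * (1 - α - β) :=
        h'.2.1.trans (mul_le_mul_of_nonneg_right h2 h1.1)
      constructor <;> linarith [h.1, h.2.1, h.2.2]
  | a n =>
    cases i' with
    | U =>
      refine ⟨0, 0, fun α β h h' => ?_⟩
      have h1 := reg_a_nonneg h
      rw [reg_a] at h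
      rw [reg_U] at h'
      constructor <;> linarith [h.2.2, h'.2.2, h1.1, h1.2.1, h1.2.2]
    | O1 =>
      have hn : n ≠ 0 := by
        rintro rfl
        exact hnb (Or.inr (Or.inr (Or.inl ⟨rfl, rfl⟩)))
      obtain ⟨n', rfl⟩ := Nat.exists_eq_succ_of_ne_zero hn
      refine ⟨0, 0, fun α β h h' => ?_⟩
      have h1 := reg_a_nonneg h
      rw [reg_a] at h
      rw [reg_O1] at h'
      have h2 : sl (n' + 1) ≤ 1 / 2 := by rw [sl_succ]; linarith [sl_le_one n']
      have h3 : β ≤ 1 / 2 * α := h.2.1.trans (mul_le_mul_of_nonneg_right h2 h1.1)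
      constructor <;> linarith [h'.2.1, h1.1, h1.2.1]
    | O2 =>
      refine ⟨1 / 3, 1 / 3, fun α β h h' => ?_⟩
      have h1 := reg_a_nonneg h
      rw [reg_a] at h
      rw [reg_O2] at h'
      constructor <;> linarith [h.2.2, h'.1, h'.2.1, h'.2.2, h1.2.2]
    | a m =>
      have h3 : n + 2 ≤ m ∨ m + 2 ≤ n := by
        by_contra hc
        push Not at hc
        have : m = n ∨ m = n + 1 ∨ n = m + 1 := by omega
        rcases this with h | h | h
        · exact hne (by rw [h])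
        · exact hnb (Or.inl (by rw [h]))
        · exact hnb (Or.inr (Or.inr (Or.inr ⟨m, h, rfl⟩)))
      refine ⟨0, 0, fun α β h h' => ?_⟩
      have h1 := reg_a_nonneg h
      rw [reg_a] at h h'
      rcases h3 with h3 | h3
      · exact rung_far h3 h1.1 h'.2.1 h.1
      · exact rung_far h3 h1.1 h.2.1 h'.1
    | b m =>
      have hnm : n ≠ m := by
        rintro rfl
        exact hnb (Or.inr (Or.inl rfl))
      exact a_b_point hnm
  | b n =>
    cases i' with
    | U =>
      refine ⟨1, 0, fun α β h h' => ?_⟩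
      have h1 := reg_b_nonneg h
      rw [reg_b] at h
      rw [reg_U] at h'
      constructor <;> linarith [h.2.2, h'.2.2, h1.1, h1.2.1, h1.2.2]
    | O1 =>
      refine ⟨1 / 3, 1 / 3, fun α β h h' => ?_⟩
      have h1 := reg_b_nonneg h
      rw [reg_b] at h
      rw [reg_O1] at h'
      constructor <;> linarith [h.2.2, h'.1, h'.2.1, h'.2.2, h1.2.2]
    | O2 =>
      have hn : n ≠ 0 := by
        rintro rfl
        exact hnb (Or.inr (Or.inr (Or.inl ⟨rfl, rfl⟩)))
      obtain ⟨n', rfl⟩ := Nat.exists_eq_succ_of_ne_zero hn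
      refine ⟨1, 0, fun α β h h' => ?_⟩
      have h1 := reg_b_nonneg h
      rw [reg_b] at h
      rw [reg_O2] at h'
      have h2 : sl (n' + 1) ≤ 1 / 2 := by rw [sl_succ]; linarith [sl_le_one n']
      have h3 : β ≤ 1 / 2 * (1 - α - β) :=
        h.2.1.trans (mul_le_mul_of_nonneg_right h2 h1.1)
      constructor <;> linarith [h'.1, h'.2.1, h'.2.2]
    | a m =>
      have hnm : m ≠ n := by
        rintro rfl
        exact hnb (Or.inr (Or.inl rfl))
      obtain ⟨α0, β0, h⟩ := a_b_point hnm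
      exact ⟨α0, β0, fun α β h1 h2 => h α β h2 h1⟩
    | b m =>
      have h3 : n + 2 ≤ m ∨ m + 2 ≤ n := by
        by_contra hc
        push Not at hc
        have : m = n ∨ m = n + 1 ∨ n = m + 1 := by omega
        rcases this with h | h | h
        · exact hne (by rw [h])
        · exact hnb (Or.inl (by rw [h]))
        · exact hnb (Or.inr (Or.inr (Or.inr ⟨m, h, rfl⟩)))
      refine ⟨1, 0, fun α β h h' => ?_⟩
      have h1 := reg_b_nonneg h
      rw [reg_b] at h h'
      have h4 : 1 - α - β = 0 ∧ β = 0 := by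
        rcases h3 with h3 | h3
        · exact rung_far h3 h1.1 h'.2.1 h.1
        · exact rung_far h3 h1.1 h.2.1 h'.1
      constructor <;> linarith [h4.1, h4.2]

/-- An inner cell meets a cell which is not one of its neighbours in at most one point. -/
theorem cell_inter {P : Set Plane} {k k' : Fin 3} {i i' : Kind} (hi : inner i)
    (hne : (k', i') ≠ (k, i)) (hnb : ¬ (k' = k ∧ nb i i')) :
    (cell k i P ∩ cell k' i' P).Subsingleton := by
  rintro p ⟨hp, hp'⟩ q ⟨hq, hq'⟩
  rcases sector_cases k k' with rfl | rfl | rfl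
  · obtain ⟨α0, β0, h⟩ := sing_same hi (fun h => hne (by rw [h])) (fun h => hnb ⟨rfl, h⟩)
    have h1 := h _ _ hp.2 hp'.2
    have h2 := h _ _ hq.2 hq'.2
    exact eq_of_AB (h1.1.trans h2.1.symm) (h1.2.trans h2.2.symm)
  · have aux : ∀ r, r ∈ cell k i P → r ∈ cell (k + 1) i' P → A k P r = 0 := by
      intro r h1 h2
      have h3 := (reg_nonneg h1.2).1
      have h4 := (reg_nonneg h2.2).2
      rw [B_succ] at h4
      linarith
    obtain ⟨β0, h⟩ := sing_alpha hi
    have a1 := aux p hp hp'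
    have a2 := aux q hq hq'
    have b1 := h (B k P p) (by rw [← a1]; exact hp.2)
    have b2 := h (B k P q) (by rw [← a2]; exact hq.2)
    exact eq_of_AB (a1.trans a2.symm) (b1.trans b2.symm)
  · have aux : ∀ r, r ∈ cell k i P → r ∈ cell (k + 2) i' P → B k P r = 0 := by
      intro r h1 h2
      have h3 := (reg_nonneg h1.2).2
      have h4 := (reg_nonneg h2.2).1
      rw [A_succ2] at h4
      linarith
    obtain ⟨α0, h⟩ := sing_beta hi
    have a1 := aux p hp hp'
    have a2 := aux q hq hq'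
    have b1 := h (A k P p) (by rw [← a1]; exact hp.2)
    have b2 := h (A k P q) (by rw [← a2]; exact hq.2)
    exact eq_of_AB (b1.trans b2.symm) (a1.trans a2.symm)

/-- Inner cells lie in the interior of the tile. -/
theorem inner_subset_interior {P : Set Plane} (hP : (interior P).Nonempty) (k : Fin 3) {i : Kind}
    (hi : inner i) : cell k i P ⊆ interior P := by
  intro p hp
  have h1 := reg_nonneg hp.2
  have h2 : A k P p + B k P p ≤ 1 := by
    have h3 : Reg i (A k P p) (B k P p) := hp.2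
    cases i with
    | U => exact absurd hi id
    | O1 => exact absurd hi id
    | O2 => rw [reg_O2] at h3; linarith [h3.1]
    | a n => rw [reg_a] at h3; linarith [h3.2.2, h1.1]
    | b n => linarith [(reg_b_nonneg h3).1]
  apply mem_interior_of_AB hP k <;> rw [abs_le] <;> constructor <;> linarith [h1.1, h1.2]

end Pool.Agent.helper97.Tiling
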