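import Mathlib
import Pool.Agent.helper97.Tiling.Ladder3

/-! # No locally supported eigenfunctions on the ladder tiling -/

namespace Pool.Agent.helper97.Tiling

open Set Metric
open scoped InnerProductSpace

variable {C : Type}

/-- Two sets on different sides of a line with the same non-trivial trace on the line share an
edge. -/
theorem share_edge_of {P : Set Plane} {k : Fin 3} {i i' : Kind} (u v w : ℝ) (huv : u ≠ 0 ∨ v ≠ 0)
    (h1 : ∀ α β, Reg i α β → u * α + v * β + w ≤ 0)
    (h2 : ∀ α β, Reg i' α β → 0 ≤ u * α + v * β + w)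
    (h3 : ∀ α β, u * α + v * β + w = 0 → (Reg i α β ↔ Reg i' α β))
    (h4 : ({p | p ∈ cell k i P ∧ u * A k P p + v * B k P p + w = 0}).Nontrivial) :
    ∃ e, IsEdge e (cell k i P) ∧ IsEdge e (cell k i' P) := by
  obtain ⟨n, c, hnc, hn0⟩ := lin_AB k P u v w
  have hn := hn0 huv
  refine ⟨{p | p ∈ cell k i P ∧ u * A k P p + v * B k P p + w = 0}, ⟨h4, n, c, hn, ?_, ?_⟩,
    ⟨h4, -n, -c, neg_ne_zero.mpr hn, ?_, ?_⟩⟩
  · intro p hp
    have := h1 _ _ hp.2
    rw [hnc] at this
    linarith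
  · ext p
    rw [mem_ofPred_eq, mem_ofPred_eq, hnc]
    constructor
    · rintro ⟨a, b⟩; exact ⟨a, by linarith⟩
    · rintro ⟨a, b⟩; exact ⟨a, by linarith⟩
  · intro p hp
    have := h2 _ _ hp.2
    rw [hnc] at this
    rw [inner_neg_left]
    linarith
  · ext p
    rw [mem_ofPred_eq, mem_ofPred_eq, hnc, inner_neg_left]
    constructor
    · rintro ⟨a, b⟩
      have h5 := (h3 (A k P p) (B k P p) (by rw [hnc]; exact b)).mp a.2
      exact ⟨⟨a.1, h5⟩, by linarith⟩
    · rintro ⟨a, b⟩
      have h6 : ⟪n, p⟫_ℝ - c = 0 := by linarith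
      have h5 := (h3 (A k P p) (B k P p) (by rw [hnc]; exact h6)).mpr a.2
      exact ⟨⟨a.1, h5⟩, h6⟩

theorem nontrivial_of_points {P : Set Plane} (hP : (interior P).Nonempty) (k : Fin 3) (i : Kind)
    {u v w : ℝ} {α β α' β' : ℝ} (ha : Reg i α β) (hb : Reg i α' β')
    (h1 : u * α + v * β + w = 0) (h2 : u * α' + v * β' + w = 0)
    (b1 : |α| ≤ 1) (b2 : |β| ≤ 1) (b3 : |α'| ≤ 1) (b4 : |β'| ≤ 1) (hne : α ≠ α') :
    ({p | p ∈ cell k i P ∧ u * A k P p + v * B k P p + w = 0}).Nontrivial := by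
  refine ⟨pnt k P α β, ⟨⟨?_, ?_⟩, ?_⟩, pnt k P α' β', ⟨⟨?_, ?_⟩, ?_⟩, ?_⟩
  · apply interior_subset
    apply mem_interior_of_AB hP k
    · rwa [A_pnt]
    · rwa [B_pnt]
  · rw [A_pnt, B_pnt]; exact ha
  · rw [A_pnt, B_pnt]; exact h1
  · apply interior_subset
    apply mem_interior_of_AB hP k
    · rwa [A_pnt]
    · rwa [B_pnt]
  · rw [A_pnt, B_pnt]; exact hb
  · rw [A_pnt, B_pnt]; exact h2
  · intro h
    apply hne
    have := congrArg (A k P) h
    rwa [A_pnt, A_pnt] at this

theorem edge_aa {P : Set Plane} (hP : (interior P).Nonempty) (k : Fin 3) (n : ℕ) :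
    ∃ e, IsEdge e (cell k (.a (n + 1)) P) ∧ IsEdge e (cell k (.a n) P) := by
  have s1 := sl_pos (n + 1)
  have s2 := sl_le_one (n + 1)
  have s3 := sl_succ (n + 1)
  have s4 := sl_succ n
  refine share_edge_of (-sl (n + 1)) 1 0 (Or.inr one_ne_zero) ?_ ?_ ?_ ?_
  · intro α β h; rw [reg_a] at h; linarith [h.2.1]
  · intro α β h; rw [reg_a] at h; linarith [h.1]
  · intro α β h0
    have e : β = sl (n + 1) * α := by linarith
    rw [reg_a, reg_a, e, s3]
    constructor
    · rintro ⟨h1, h2, h3⟩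
      have : 0 ≤ α := by
        by_contra hc
        push Not at hc
        nlinarith
      refine ⟨le_refl _, ?_, h3⟩
      rw [s4]
      nlinarith
    · rintro ⟨h1, h2, h3⟩
      have : 0 ≤ α := by
        by_contra hc
        push Not at hc
        rw [s4] at h2
        nlinarith
      refine ⟨?_, le_refl _, h3⟩
      nlinarith
  · refine nontrivial_of_points hP k _ (α := 0) (β := 0) (α' := 1 / 4) (β' := sl (n + 1) / 4)
      ?_ ?_ ?_ ?_ ?_ ?_ ?_ ?_ ?_
    · rw [reg_a]; norm_num
    · rw [reg_a, s3]; refine ⟨?_, ?_, ?_⟩ <;> linarith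
    · ring
    · ring
    · norm_num
    · norm_num
    · norm_num
    · rw [abs_le]; constructor <;> linarith
    · norm_num

theorem edge_bb {P : Set Plane} (hP : (interior P).Nonempty) (k : Fin 3) (n : ℕ) :
    ∃ e, IsEdge e (cell k (.b (n + 1)) P) ∧ IsEdge e (cell k (.b n) P) := by
  have s1 := sl_pos (n + 1)
  have s2 := sl_le_one (n + 1)
  have s3 := sl_succ (n + 1)
  have s4 := sl_succ n
  refine share_edge_of (sl (n + 1)) (1 + sl (n + 1)) (-sl (n + 1)) (Or.inl s1.ne') ?_ ?_ ?_ ?_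
  · intro α β h; rw [reg_b] at h; nlinarith [h.2.1]
  · intro α β h; rw [reg_b] at h; nlinarith [h.1]
  · intro α β h0
    have e : β = sl (n + 1) * (1 - α - β) := by linarith
    rw [reg_b, reg_b]
    constructor
    · rintro ⟨h1, h2, h3⟩
      have : 0 ≤ 1 - α - β := by
        by_contra hc
        push Not at hc
        rw [s3] at h1
        nlinarith
      refine ⟨e.ge, ?_, h3⟩
      rw [s4] at e
      nlinarith
    · rintro ⟨h1, h2, h3⟩
      have : 0 ≤ 1 - α - β := by
        by_contra hc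
        push Not at hc
        rw [s4] at e
        nlinarith
      refine ⟨?_, e.le, h3⟩
      rw [s3]
      nlinarith
  · refine nontrivial_of_points hP k _ (α := 1) (β := 0) (α' := 3 / 4 - sl (n + 1) / 4)
      (β' := sl (n + 1) / 4) ?_ ?_ ?_ ?_ ?_ ?_ ?_ ?_ ?_
    · rw [reg_b]; norm_num
    · rw [reg_b, s3]; refine ⟨?_, ?_, ?_⟩ <;> nlinarith
    · ring
    · ring
    · norm_num
    · norm_num
    · rw [abs_le]; constructor <;> linarith
    · rw [abs_le]; constructor <;> linarith
    · intro h; linarith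

theorem edge_aO {P : Set Plane} (hP : (interior P).Nonempty) (k : Fin 3) :
    ∃ e, IsEdge e (cell k (.a 0) P) ∧ IsEdge e (cell k .O1 P) := by
  have s0 := sl_zero
  have s1 : sl (0 + 1) = 1 / 2 := by rw [sl_succ, sl_zero]
  refine share_edge_of (-1) 1 0 (Or.inr one_ne_zero) ?_ ?_ ?_ ?_
  · intro α β h; rw [reg_a, s0] at h; linarith [h.2.1]
  · intro α β h; rw [reg_O1] at h; linarith [h.2.1]
  · intro α β h0
    have e : β = α := by linarith
    rw [reg_a, reg_O1, s0, s1, e]
    constructor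
    · rintro ⟨h1, h2, h3⟩; refine ⟨?_, ?_, ?_⟩ <;> linarith
    · rintro ⟨h1, h2, h3⟩; refine ⟨?_, ?_, ?_⟩ <;> linarith
  · refine nontrivial_of_points hP k _ (α := 0) (β := 0) (α' := 1 / 4) (β' := 1 / 4)
      ?_ ?_ ?_ ?_ ?_ ?_ ?_ ?_ ?_
    · rw [reg_a]; norm_num
    · rw [reg_a, s0, s1]; norm_num
    all_goals norm_num

theorem edge_bO {P : Set Plane} (hP : (interior P).Nonempty) (k : Fin 3) :
    ∃ e, IsEdge e (cell k (.b 0) P) ∧ IsEdge e (cell k .O2 P) := by
  have s0 := sl_zero
  have s1 : sl (0 + 1) = 1 / 2 := by rw [sl_succ, sl_zero]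
  refine share_edge_of 1 2 (-1) (Or.inl one_ne_zero) ?_ ?_ ?_ ?_
  · intro α β h; rw [reg_b, s0] at h; linarith [h.2.1]
  · intro α β h; rw [reg_O2] at h; linarith [h.2.2]
  · intro α β h0
    rw [reg_b, reg_O2, s0, s1]
    constructor
    · rintro ⟨h1, h2, h3⟩; refine ⟨?_, ?_, ?_⟩ <;> linarith
    · rintro ⟨h1, h2, h3⟩; refine ⟨?_, ?_, ?_⟩ <;> linarith
  · refine nontrivial_of_points hP k _ (α := 1) (β := 0) (α' := 1 / 2) (β' := 1 / 4)
      ?_ ?_ ?_ ?_ ?_ ?_ ?_ ?_ ?_
    · rw [reg_b]; norm_num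
    · rw [reg_b, s0, s1]; norm_num
    all_goals norm_num

theorem edge_OU {P : Set Plane} (hP : (interior P).Nonempty) (k : Fin 3) :
    ∃ e, IsEdge e (cell k .O2 P) ∧ IsEdge e (cell k .U P) := by
  refine share_edge_of 1 1 (-1) (Or.inl one_ne_zero) ?_ ?_ ?_ ?_
  · intro α β h; rw [reg_O2] at h; linarith [h.1]
  · intro α β h; rw [reg_U] at h; linarith [h.2.2]
  · intro α β h0
    rw [reg_O2, reg_U]
    constructor
    · rintro ⟨h1, h2, h3⟩; refine ⟨?_, ?_, ?_⟩ <;> linarith
    · rintro ⟨h1, h2, h3⟩; refine ⟨?_, ?_, ?_⟩ <;> linarith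
  · refine nontrivial_of_points hP k _ (α := 1) (β := 0) (α' := 0) (β' := 1)
      ?_ ?_ ?_ ?_ ?_ ?_ ?_ ?_ ?_
    · rw [reg_O2]; norm_num
    · rw [reg_O2]; norm_num
    all_goals norm_num

/-- Distinct tiles of a polygonal tiling: the second does not meet the interior of the first. -/
theorem tile_disjoint_interior {T : Set (Tile C)} (hT : IsPolygonalTiling T) {s t : Tile C}
    (hs : s ∈ T) (ht : t ∈ T) (hne : s ≠ t) {p : Plane} (h1 : p ∈ interior s.1) (h2 : p ∈ t.1) :
    False := by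
  have h3 := (hT.polygon t ht).2.2.1 h2
  rw [_root_.mem_closure_iff] at h3
  obtain ⟨q, hq1, hq2⟩ := h3 _ isOpen_interior h1
  exact Set.disjoint_left.mp (hT.disjoint s hs t ht hne) hq1 hq2

/-- The possible neighbours of an inner cell. -/
theorem nb_of_inter {T : Set (Tile C)} (hT : IsPolygonalTiling T) {t : Tile C} (ht : t ∈ T)
    {k : Fin 3} {i : Kind} (hi : inner i) {s : Tile (LC C)} (hs : s ∈ ladderT T)
    (hne : s ≠ cel (k, i) t) (h : (s.1 ∩ (cel (k, i) t).1).Nontrivial) :
    ∃ i', nb i i' ∧ s = cel (k, i') t := by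
  obtain ⟨t', ht', κ, rfl⟩ := hs
  have hP := interior_nonempty_of_polygon (hT.polygon t ht)
  have htt : t' = t := by
    by_contra hc
    obtain ⟨p, hp⟩ := h.nonempty
    exact tile_disjoint_interior hT ht ht' (Ne.symm hc)
      (inner_subset_interior hP k hi hp.2) (cell_subset _ _ _ hp.1)
  subst htt
  obtain ⟨k', i'⟩ := κ
  have hne' : (k', i') ≠ (k, i) := fun e => hne (by rw [e])
  by_cases hnb : k' = k ∧ nb i i'
  · obtain ⟨rfl, hnb⟩ := hnb
    exact ⟨i', hnb, rfl⟩
  · exfalso
    have h1 := cell_inter (P := t'.1) hi hne' hnb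
    obtain ⟨p, hp, q, hq, hpq⟩ := h
    exact hpq (h1 ⟨hp.2, hp.1⟩ ⟨hq.2, hq.1⟩)

section elimination

variable {T : Set (Tile C)} (hT : IsPolygonalTiling T)
  (adj : Tile (LC C) → Tile (LC C) → Prop)
  (hadj : ∀ s ∈ ladderT T, ∀ t ∈ ladderT T,
    (Adjacent s t → adj s t) ∧ (adj s t → s ≠ t ∧ (s.1 ∩ t.1).Nontrivial))
  (E : ℂ) (ψ : ladderT T → ℂ)
  (heq : ∀ v : ladderT T, {u : ladderT T | adj u.1 v.1}.Finite →
    ∑ᶠ (u : ladderT T) (_ : adj u.1 v.1), (ψ v - ψ u) = E * ψ v)

/-- The value of `ψ` at a cell. -/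
noncomputable def val (ψ : ladderT T → ℂ) {t : Tile C} (ht : t ∈ T) (k : Fin 3) (i : Kind) : ℂ :=
  ψ ⟨cel (k, i) t, cel_mem ht _⟩

include hT hadj heq in
/-- One elimination step. -/
theorem step {t : Tile C} (ht : t ∈ T) (k : Fin 3) {i w : Kind} (hi : inner i) (hiw : w ≠ i)
    (hedge : ∃ e, IsEdge e (cell k i t.1) ∧ IsEdge e (cell k w t.1))
    (h0 : val ψ ht k i = 0) (h1 : ∀ j, nb i j → j ≠ w → val ψ ht k j = 0) :
    val ψ ht k w = 0 := by
  classical
  set v : ladderT T := ⟨cel (k, i) t, cel_mem ht _⟩ with hv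
  set x : ladderT T := ⟨cel (k, w) t, cel_mem ht _⟩ with hx
  have hpoly := hT.polygon t ht
  have hxv : adj x.1 v.1 := by
    apply (hadj _ x.2 _ v.2).1
    refine ⟨?_, ?_⟩
    · intro h
      have := (cel_injective hpoly h).1
      exact hiw (congrArg Prod.snd this)
    · obtain ⟨e, h2, h3⟩ := hedge
      exact ⟨e, h3, h2⟩
  have hu : ∀ u : ladderT T, adj u.1 v.1 → ∃ j, nb i j ∧ u.1 = cel (k, j) t := by
    intro u hu
    obtain ⟨h2, h3⟩ := (hadj _ u.2 _ v.2).2 hu
    exact nb_of_inter hT ht hi u.2 h2 h3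
  have hfin : {u : ladderT T | adj u.1 v.1}.Finite := by
    have : {u : ladderT T | adj u.1 v.1} ⊆
        (fun j => (⟨cel (k, j) t, cel_mem ht _⟩ : ladderT T)) '' {j | nb i j} := by
      intro u hu'
      obtain ⟨j, hj, hj2⟩ := hu u hu'
      exact ⟨j, hj, Subtype.ext hj2.symm⟩
    exact ((finite_nb i).image _).subset this
  have h2 := heq v hfin
  have hψv : ψ v = 0 := h0
  rw [finsum_eq_single _ x, finsum_eq_if, if_pos hxv, hψv, mul_zero, zero_sub, neg_eq_zero] at h2
  · exact h2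
  · intro u hux
    rw [finsum_eq_if]
    split_ifs with hadju
    · obtain ⟨j, hj, hj2⟩ := hu u hadju
      have hjw : j ≠ w := by
        rintro rfl
        exact hux (Subtype.ext hj2)
      have h3 : ψ u = 0 := by
        have := h1 j hj hjw
        unfold val at this
        have e : u = ⟨cel (k, j) t, cel_mem ht _⟩ := Subtype.ext hj2
        rw [e]
        exact this
      rw [hψv, h3, sub_zero]
    · rfl

include hT hadj heq in
theorem val_zero (hfin : (Function.support ψ).Finite) {t : Tile C} (ht : t ∈ T) (k : Fin 3)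
    (i : Kind) : val ψ ht k i = 0 := by
  have hpoly := hT.polygon t ht
  have hP := interior_nonempty_of_polygon hpoly
  -- far rungs
  obtain ⟨N, hN⟩ : ∃ N, ∀ n ≥ N, val ψ ht k (.a n) = 0 ∧ val ψ ht k (.b n) = 0 := by
    have ha : {n : ℕ | val ψ ht k (.a n) ≠ 0}.Finite := by
      refine Set.Finite.of_injOn (f := fun n => (⟨cel (k, .a n) t, cel_mem ht _⟩ : ladderT T))
        (t := Function.support ψ) (fun n hn => hn) ?_ hfin
      intro m _ n _ h
      have h2 := (cel_injective hpoly (congrArg Subtype.val h)).1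
      have h3 := congrArg Prod.snd h2
      injection h3
    have hb : {n : ℕ | val ψ ht k (.b n) ≠ 0}.Finite := by
      refine Set.Finite.of_injOn (f := fun n => (⟨cel (k, .b n) t, cel_mem ht _⟩ : ladderT T))
        (t := Function.support ψ) (fun n hn => hn) ?_ hfin
      intro m _ n _ h
      have h2 := (cel_injective hpoly (congrArg Subtype.val h)).1
      have h3 := congrArg Prod.snd h2
      injection h3
    obtain ⟨N1, h1⟩ := ha.bddAbove
    obtain ⟨N2, h2⟩ := hb.bddAbove
    refine ⟨max N1 N2 + 1, fun n hn => ⟨?_, ?_⟩⟩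
    · by_contra hc
      have := h1 hc
      have := le_max_left N1 N2
      omega
    · by_contra hc
      have := h2 hc
      have := le_max_right N1 N2
      omega
  -- all rungs
  have hall : ∀ m n, N ≤ n + m → val ψ ht k (.a n) = 0 ∧ val ψ ht k (.b n) = 0 := by
    intro m
    induction m with
    | zero => intro n hn; exact hN n (by omega)
    | succ m ih =>
      intro n hn
      obtain ⟨a1, b1⟩ := ih (n + 1) (by omega)
      obtain ⟨a2, b2⟩ := ih (n + 2) (by omega)
      constructor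
      · refine step hT adj hadj E ψ heq ht k (i := .a (n + 1)) trivial ?_ (edge_aa hP k n) a1 ?_
        · intro h; injection h; omega
        · intro j hj hjw
          rcases hj with rfl | rfl | ⟨h, -⟩ | ⟨m', h, rfl⟩
          · exact a2
          · exact b1
          · omega
          · have : m' = n := by omega
            exact absurd (by rw [this]) hjw
      · refine step hT adj hadj E ψ heq ht k (i := .b (n + 1)) trivial ?_ (edge_bb hP k n) b1 ?_
        · intro h; injection h; omega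
        · intro j hj hjw
          rcases hj with rfl | rfl | ⟨h, -⟩ | ⟨m', h, rfl⟩
          · exact b2
          · exact a1
          · omega
          · have : m' = n := by omega
            exact absurd (by rw [this]) hjw
  have h0 := hall N 0 (by omega)
  have h1 := hall N 1 (by omega)
  have hO1 : val ψ ht k .O1 = 0 := by
    refine step hT adj hadj E ψ heq ht k (i := .a 0) trivial (by simp) (edge_aO hP k) h0.1 ?_
    intro j hj hjw
    rcases hj with rfl | rfl | ⟨-, rfl⟩ | ⟨m', h, rfl⟩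
    · exact h1.1
    · exact h0.2
    · exact absurd rfl hjw
    · omega
  have hO2 : val ψ ht k .O2 = 0 := by
    refine step hT adj hadj E ψ heq ht k (i := .b 0) trivial (by simp) (edge_bO hP k) h0.2 ?_
    intro j hj hjw
    rcases hj with rfl | rfl | ⟨-, rfl⟩ | ⟨m', h, rfl⟩
    · exact h1.2
    · exact h0.1
    · exact absurd rfl hjw
    · omega
  have hU : val ψ ht k .U = 0 := by
    refine step hT adj hadj E ψ heq ht k (i := .O2) trivial (by simp) (edge_OU hP k) hO2 ?_
    intro j hj hjw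
    rcases hj with rfl | rfl | rfl
    · exact h0.2
    · exact hO1
    · exact absurd rfl hjw
  cases i with
  | U => exact hU
  | O1 => exact hO1
  | O2 => exact hO2
  | a n => exact (hall N n (by omega)).1
  | b n => exact (hall N n (by omega)).2

include hT hadj heq in
theorem psi_zero (hfin : (Function.support ψ).Finite) : ψ = 0 := by
  funext u
  obtain ⟨s, t, ht, ⟨k, i⟩, rfl⟩ := u
  exact val_zero hT adj hadj E ψ heq hfin ht k i

end elimination

end Pool.Agent.helper97.Tiling
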