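import Mathlib
import Pool.Agent.helper97.Tiling.Grid

/-! # Simultaneous approximation and homomorphisms to the integer lattice -/

namespace Pool.Agent.helper97.Tiling

open Set Metric Filter Topology

/-- Dirichlet: finitely many reals have simultaneously nearly integral multiples. -/
theorem dirichlet {ι : Type*} [Fintype ι] (v : ι → ℝ) {ε : ℝ} (hε : 0 < ε) (M : ℝ) :
    ∃ N : ℕ, M ≤ N ∧ ∀ i, ∃ m : ℤ, |(N : ℝ) * v i - m| ≤ ε := by
  set u : ℕ → ι → ℝ := fun n i => Int.fract ((n : ℝ) * v i) with hu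
  have hmem : ∀ n, u n ∈ Icc (0 : ι → ℝ) 1 := fun n =>
    ⟨fun i => Int.fract_nonneg _, fun i => (Int.fract_lt_one _).le⟩
  obtain ⟨a, -, ψ, hψ, hlim⟩ := (isCompact_Icc (a := (0 : ι → ℝ)) (b := 1)).tendsto_subseq hmem
  have hc := hlim.cauchySeq
  rw [Metric.cauchySeq_iff] at hc
  obtain ⟨K, hK⟩ := hc ε hε
  obtain ⟨k, hk⟩ := exists_nat_ge M
  have hn : ψ K + k ≤ ψ (max K (ψ K + k)) := (le_max_right _ _).trans hψ.le_apply
  set n := max K (ψ K + k) with hn'
  refine ⟨ψ n - ψ K, ?_, fun i => ⟨⌊(ψ n : ℝ) * v i⌋ - ⌊(ψ K : ℝ) * v i⌋, ?_⟩⟩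
  · have : (k : ℝ) ≤ ((ψ n - ψ K : ℕ) : ℝ) := by
      have : k ≤ ψ n - ψ K := by omega
      exact_mod_cast this
    linarith
  · have h1 := hK n (le_max_left _ _) K le_rfl
    have h2 := (dist_le_pi_dist (u (ψ n)) (u (ψ K)) i).trans h1.le
    rw [Real.dist_eq] at h2
    have h3 : ψ K ≤ ψ n := by omega
    rw [Nat.cast_sub h3]
    simp only [hu, Int.fract] at h2
    push_cast
    rw [show ((ψ n : ℝ) - ψ K) * v i - (⌊(ψ n : ℝ) * v i⌋ - ⌊(ψ K : ℝ) * v i⌋) =
      (ψ n : ℝ) * v i - ⌊(ψ n : ℝ) * v i⌋ - ((ψ K : ℝ) * v i - ⌊(ψ K : ℝ) * v i⌋) by ring]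
    exact h2

/-- The lattice point as a point of the plane. -/
noncomputable def io (z : ℤ × ℤ) : Plane := pt z.1 z.2

theorem io_add (z w : ℤ × ℤ) : io (z + w) = io z + io w := by
  apply plane_ext <;> simp [io]

theorem io_sub (z w : ℤ × ℤ) : io (z - w) = io z - io w := by
  apply plane_ext <;> simp [io]

theorem norm_le_coords (p : Plane) : ‖p‖ ≤ |p 0| + |p 1| := by
  have e : p = pt (p 0) 0 + pt 0 (p 1) := by apply plane_ext <;> simp
  have n1 : ‖pt (p 0) 0‖ = |p 0| := by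
    rw [EuclideanSpace.norm_eq, Fin.sum_univ_two]
    simp [Real.sqrt_sq_eq_abs]
  have n2 : ‖pt 0 (p 1)‖ = |p 1| := by
    rw [EuclideanSpace.norm_eq, Fin.sum_univ_two]
    simp [Real.sqrt_sq_eq_abs]
  calc ‖p‖ = ‖pt (p 0) 0 + pt 0 (p 1)‖ := by rw [← e]
    _ ≤ _ := norm_add_le _ _
    _ = _ := by rw [n1, n2]

/-- A finite set of vectors has a homomorphism of the generated group to the lattice which is a
good approximation of a large multiple. -/
theorem hom_approx {D : Set Plane} (hD : D.Finite) {ε : ℝ} (hε : 0 < ε) (M : ℝ) :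
    ∃ (N : ℕ) (h : AddSubgroup.closure D →+ ℤ × ℤ), M ≤ N ∧
      ∀ d (hd : d ∈ D), ‖io (h ⟨d, AddSubgroup.subset_closure hd⟩) - (N : ℝ) • d‖ ≤ ε := by
  classical
  set L := AddSubgroup.toIntSubmodule (AddSubgroup.closure D) with hL
  have hfg : L.FG := by
    rw [Submodule.fg_iff_addSubgroup_fg, hL, AddSubgroup.toIntSubmodule_toAddSubgroup]
    exact ⟨hD.toFinset, by simp⟩
  have i1 : Module.Finite ℤ L := Module.Finite.iff_fg.mpr hfg
  have i0 : IsAddTorsionFree Plane := IsAddTorsionFree.of_isTorsionFree ℝ _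
  have i2 : Module.Free ℤ L := inferInstance
  set b := Module.Free.chooseBasis ℤ L with hb
  set S : ℝ := 1 + ∑ d ∈ hD.toFinset.attach, ∑ i,
    |((b.repr ⟨d.1, AddSubgroup.subset_closure (hD.mem_toFinset.mp d.2)⟩ i : ℤ) : ℝ)| with hS
  have hS0 : 0 < S := by positivity
  obtain ⟨N, hN, hm⟩ := dirichlet (fun p : Module.Free.ChooseBasisIndex ℤ L × Fin 2 =>
    (b p.1 : Plane) p.2) (show 0 < ε / (2 * S) by positivity) M
  choose m hm using hm
  set h : L →ₗ[ℤ] ℤ × ℤ := b.constr ℤ (fun i => (m (i, 0), m (i, 1))) with hh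
  refine ⟨N, h.toAddMonoidHom, hN, ?_⟩
  intro d hd
  set dd : L := ⟨d, AddSubgroup.subset_closure hd⟩ with hdd
  have hsum : ∑ i, |((b.repr dd i : ℤ) : ℝ)| ≤ S := by
    have h1 := Finset.single_le_sum (s := hD.toFinset.attach)
      (f := fun d => ∑ i, |((b.repr ⟨d.1, AddSubgroup.subset_closure
        (hD.mem_toFinset.mp d.2)⟩ i : ℤ) : ℝ)|) (fun _ _ => by positivity)
      (Finset.mem_attach _ ⟨d, hD.mem_toFinset.mpr hd⟩)
    simp only at h1
    linarith
  have hrep : d = ∑ i, (b.repr dd i) • (b i : Plane) := by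
    have h1 := congrArg (Subtype.val) (b.sum_repr dd)
    rw [AddSubmonoidClass.coe_finsetSum] at h1
    rw [show d = (dd : Plane) from rfl, ← h1]
    rfl
  have hcoord : ∀ j : Fin 2, d j = ∑ i, ((b.repr dd i : ℤ) : ℝ) * (b i : Plane) j := by
    intro j
    conv_lhs => rw [hrep]
    simp
  have hval : h dd = ∑ i, b.repr dd i • (m (i, 0), m (i, 1)) := by
    rw [hh, Module.Basis.constr_apply_fintype]
    rfl
  have h0 : (((h dd).1 : ℤ) : ℝ) = ∑ i, ((b.repr dd i : ℤ) : ℝ) * m (i, 0) := by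
    rw [hval, Prod.fst_sum]
    push_cast
    apply Finset.sum_congr rfl
    intro i _
    simp
  have h1 : (((h dd).2 : ℤ) : ℝ) = ∑ i, ((b.repr dd i : ℤ) : ℝ) * m (i, 1) := by
    rw [hval, Prod.snd_sum]
    push_cast
    apply Finset.sum_congr rfl
    intro i _
    simp
  have key : ∀ j : Fin 2, |∑ i, ((b.repr dd i : ℤ) : ℝ) * m (i, j) - N * d j| ≤ ε / 2 := by
    intro j
    rw [hcoord j, Finset.mul_sum, ← Finset.sum_sub_distrib]
    calc |∑ i, (((b.repr dd i : ℤ) : ℝ) * m (i, j) - N * (((b.repr dd i : ℤ) : ℝ) * (b i : Plane) j))|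
        ≤ ∑ i, |((b.repr dd i : ℤ) : ℝ) * m (i, j) - N * (((b.repr dd i : ℤ) : ℝ) * (b i : Plane) j)| :=
          Finset.abs_sum_le_sum_abs _ _
      _ ≤ ∑ i, |((b.repr dd i : ℤ) : ℝ)| * (ε / (2 * S)) := by
          apply Finset.sum_le_sum
          intro i _
          rw [show ((b.repr dd i : ℤ) : ℝ) * m (i, j) - N * (((b.repr dd i : ℤ) : ℝ) * (b i : Plane) j) =
            -(((b.repr dd i : ℤ) : ℝ) * (N * (b i : Plane) j - m (i, j))) by ring, abs_neg, abs_mul]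
          exact mul_le_mul_of_nonneg_left (hm (i, j)) (abs_nonneg _)
      _ = (∑ i, |((b.repr dd i : ℤ) : ℝ)|) * (ε / (2 * S)) := by rw [Finset.sum_mul]
      _ ≤ S * (ε / (2 * S)) := by
          apply mul_le_mul_of_nonneg_right hsum; positivity
      _ = ε / 2 := by field_simp
  refine (norm_le_coords _).trans ?_
  change |((h dd).1 : ℝ) - (N : ℝ) * d 0| + |((h dd).2 : ℝ) - (N : ℝ) * d 1| ≤ ε
  rw [h0, h1]
  linarith [key 0, key 1]

end Pool.Agent.helper97.Tiling
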