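import Mathlib
import Pool.Agent.helper97.Tiling.Dirichlet
import Pool.Agent.helper97.Tiling.Defs

/-! # From a point set of finite type to an equivariant perturbed grid -/

namespace Pool.Agent.helper97.Tiling

open Set Metric

/-- Data approximating a dense point set of finite type by the lattice. -/
structure Appr (X : Set Plane) (r N : ℝ) (L : AddSubgroup Plane) (H : Plane → ℤ × ℤ) : Prop where
  rpos : 0 < r
  Nr : 10 ≤ N * r
  dense : ∀ p : Plane, ∃ x ∈ X, dist p x ≤ r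
  gen : ∀ x ∈ X, ∀ y ∈ X, ‖x - y‖ ≤ 10 * r → x - y ∈ L
  add : ∀ u ∈ L, ∀ v ∈ L, H (u + v) = H u + H v
  approx : ∀ x ∈ X, ∀ y ∈ X, ‖x - y‖ ≤ 10 * r → ‖io (H (x - y)) - N • (x - y)‖ ≤ 1 / 100
  sep : ∀ x ∈ X, ∀ y ∈ X, x ≠ y → 1 ≤ N * ‖x - y‖

theorem exists_appr {X : Set Plane} (hX : FiniteTypeDense X) :
    ∃ (r N : ℝ) (L : AddSubgroup Plane) (H : Plane → ℤ × ℤ), Appr X r N L H := by
  classical
  obtain ⟨⟨r0, hr0⟩, hfin⟩ := hX
  set r := max r0 1 with hr
  have rpos : 0 < r := lt_of_lt_of_le one_pos (le_max_right _ _)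
  set D := {d : Plane | ∃ x ∈ X, ∃ y ∈ X, d = x - y ∧ ‖d‖ ≤ 10 * r} with hDdef
  have hD : D.Finite := hfin (10 * r)
  obtain ⟨μ, hμ, hmin⟩ : ∃ μ > 0, ∀ d ∈ D, d ≠ 0 → μ ≤ ‖d‖ := by
    by_cases hne : (hD.toFinset.filter (· ≠ 0)).Nonempty
    · obtain ⟨d0, hd0, hmin⟩ := Finset.exists_min_image _ (fun d : Plane => ‖d‖) hne
      refine ⟨‖d0‖, norm_pos_iff.mpr (Finset.mem_filter.mp hd0).2, fun d hd hd1 => ?_⟩
      exact hmin d (Finset.mem_filter.mpr ⟨hD.mem_toFinset.mpr hd, hd1⟩)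
    · refine ⟨1, one_pos, fun d hd hd1 => ?_⟩
      exact absurd ⟨d, Finset.mem_filter.mpr ⟨hD.mem_toFinset.mpr hd, hd1⟩⟩ hne
  obtain ⟨N, h, hN, hh⟩ := hom_approx hD (show (0 : ℝ) < 1 / 100 by norm_num)
    (max (10 / r) (max (1 / μ) (1 / (10 * r))))
  have hN1 : 10 ≤ (N : ℝ) * r := by
    have := (le_max_left _ _).trans hN
    rwa [div_le_iff₀ rpos] at this
  have hN2 : 1 ≤ (N : ℝ) * μ := by
    have := ((le_max_left _ _).trans (le_max_right _ _)).trans hN
    rwa [div_le_iff₀ hμ] at this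
  have hN3 : 1 ≤ (N : ℝ) * (10 * r) := by nlinarith
  refine ⟨r, N, AddSubgroup.closure D, fun v => if hv : v ∈ AddSubgroup.closure D then h ⟨v, hv⟩ else 0,
    rpos, hN1, ?_, ?_, ?_, ?_, ?_⟩
  · intro p
    obtain ⟨x, hx, hpx⟩ := hr0 p
    exact ⟨x, hx, hpx.trans (le_max_left _ _)⟩
  · intro x hx y hy hxy
    exact AddSubgroup.subset_closure ⟨x, hx, y, hy, rfl, hxy⟩
  · intro u hu v hv
    rw [dif_pos hu, dif_pos hv, dif_pos (add_mem hu hv), ← map_add]
    rfl
  · intro x hx y hy hxy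
    have hmem : x - y ∈ D := ⟨x, hx, y, hy, rfl, hxy⟩
    have hm2 : x - y ∈ AddSubgroup.closure D := AddSubgroup.subset_closure hmem
    rw [dif_pos hm2]
    exact hh _ hmem
  · intro x hx y hy hxy
    by_cases h10 : ‖x - y‖ ≤ 10 * r
    · have := hmin (x - y) ⟨x, hx, y, hy, rfl, h10⟩ (sub_ne_zero.mpr hxy)
      refine hN2.trans (mul_le_mul_of_nonneg_left this (Nat.cast_nonneg _))
    · refine hN3.trans (mul_le_mul_of_nonneg_left (not_le.mp h10).le (Nat.cast_nonneg _))

namespace Appr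

variable {X : Set Plane} {r N : ℝ} {L : AddSubgroup Plane} {H : Plane → ℤ × ℤ}

theorem Npos (h : Appr X r N L H) : 0 < N := by
  have h1 := h.Nr
  have h2 := h.rpos
  by_contra hN
  push Not at hN
  nlinarith

theorem zero (h : Appr X r N L H) : H 0 = 0 := by
  have := h.add 0 L.zero_mem 0 L.zero_mem
  rw [add_zero] at this
  exact (left_eq_add.mp this)

theorem neg (h : Appr X r N L H) {u : Plane} (hu : u ∈ L) : H (-u) = -H u := by
  have := h.add u hu (-u) (L.neg_mem hu)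
  rw [add_neg_cancel, h.zero] at this
  exact (neg_eq_of_add_eq_zero_right this.symm).symm

/-- Chain estimate. -/
theorem chain (h : Appr X r N L H) (n : ℕ) : ∀ x ∈ X, ∀ y ∈ X, ‖x - y‖ ≤ n * r →
    x - y ∈ L ∧ ‖io (H (x - y)) - N • (x - y)‖ ≤ (n + 1) * (1 / 100) := by
  induction n with
  | zero =>
    intro x hx y hy hxy
    have h1 : ‖x - y‖ ≤ 10 * r := by
      have := h.rpos
      simp only [Nat.cast_zero, zero_mul] at hxy
      linarith
    refine ⟨h.gen x hx y hy h1, (h.approx x hx y hy h1).trans ?_⟩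
    simp
  | succ n ih =>
    intro x hx y hy hxy
    have hr := h.rpos
    by_cases h10 : ‖x - y‖ ≤ 10 * r
    · refine ⟨h.gen x hx y hy h10, (h.approx x hx y hy h10).trans ?_⟩
      push_cast
      have : (0 : ℝ) ≤ n := Nat.cast_nonneg _
      linarith
    · push Not at h10
      have hpos : 0 < ‖x - y‖ := by linarith
      set c := 2 * r / ‖x - y‖ with hc
      have hc0 : 0 < c := by positivity
      have hcr : c * ‖x - y‖ = 2 * r := by rw [hc]; field_simp
      have hc1 : c ≤ 1 := by rw [hc, div_le_one hpos]; linarith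
      obtain ⟨x', hx', hd⟩ := h.dense (x - c • (x - y))
      rw [dist_eq_norm] at hd
      have e1 : ‖x - x'‖ ≤ 3 * r := by
        calc ‖x - x'‖ = ‖c • (x - y) + (x - c • (x - y) - x')‖ := by congr 1; abel
          _ ≤ ‖c • (x - y)‖ + ‖x - c • (x - y) - x'‖ := norm_add_le _ _
          _ ≤ 2 * r + r := by
              rw [norm_smul, Real.norm_of_nonneg hc0.le, hcr]; linarith
          _ = 3 * r := by ring
      have e2 : ‖x' - y‖ ≤ n * r := by
        calc ‖x' - y‖ = ‖(1 - c) • (x - y) - (x - c • (x - y) - x')‖ := by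
              congr 1; rw [sub_smul, one_smul]; abel
          _ ≤ ‖(1 - c) • (x - y)‖ + ‖x - c • (x - y) - x'‖ := norm_sub_le _ _
          _ ≤ (‖x - y‖ - 2 * r) + r := by
              rw [norm_smul, Real.norm_of_nonneg (by linarith), sub_mul, one_mul, hcr]; linarith
          _ ≤ n * r := by push_cast at hxy; linarith
      obtain ⟨m1, q1⟩ := ih x' hx' y hy e2
      have m0 := h.gen x hx x' hx' (by linarith)
      have q0 := h.approx x hx x' hx' (by linarith)
      have esum : x - y = (x - x') + (x' - y) := by abel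
      refine ⟨by rw [esum]; exact L.add_mem m0 m1, ?_⟩
      rw [esum, h.add _ m0 _ m1, io_add, smul_add]
      calc ‖io (H (x - x')) + io (H (x' - y)) - (N • (x - x') + N • (x' - y))‖
          = ‖(io (H (x - x')) - N • (x - x')) + (io (H (x' - y)) - N • (x' - y))‖ := by
            congr 1; abel
        _ ≤ _ := norm_add_le _ _
        _ ≤ _ := by push_cast; linarith

theorem mem (h : Appr X r N L H) {x y : Plane} (hx : x ∈ X) (hy : y ∈ X) : x - y ∈ L := by
  obtain ⟨n, hn⟩ := exists_nat_ge (‖x - y‖ / r)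
  rw [div_le_iff₀ h.rpos] at hn
  exact (h.chain n x hx y hy hn).1

theorem est (h : Appr X r N L H) {x y : Plane} (hx : x ∈ X) (hy : y ∈ X) :
    ‖io (H (x - y)) - N • (x - y)‖ ≤ (‖x - y‖ / r + 2) * (1 / 100) := by
  have h0 : 0 ≤ ‖x - y‖ / r := div_nonneg (norm_nonneg _) h.rpos.le
  have hn := Nat.le_ceil (‖x - y‖ / r)
  have hn2 := Nat.ceil_lt_add_one h0
  rw [div_le_iff₀ h.rpos] at hn
  refine (h.chain _ x hx y hy hn).2.trans ?_
  linarith

/-- Lower bound. -/
theorem lower (h : Appr X r N L H) {x y : Plane} (hx : x ∈ X) (hy : y ∈ X) :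
    N * ‖x - y‖ ≤ (‖io (H (x - y))‖ + 2 / 100) * (1000 / 999) := by
  have h1 := h.est hx hy
  have h2 : N * ‖x - y‖ = ‖N • (x - y)‖ := by
    rw [norm_smul, Real.norm_of_nonneg h.Npos.le]
  have h3 : ‖N • (x - y)‖ ≤ ‖io (H (x - y))‖ + ‖io (H (x - y)) - N • (x - y)‖ := by
    have := norm_sub_le (io (H (x - y))) (io (H (x - y)) - N • (x - y))
    rwa [sub_sub_cancel] at this
  have h4 : ‖x - y‖ / r ≤ N * ‖x - y‖ / 10 := by
    rw [div_le_div_iff₀ h.rpos (by norm_num)]
    have := mul_le_mul_of_nonneg_left h.Nr (norm_nonneg (x - y))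
    linarith
  rw [← h2] at h3
  linarith

theorem inj (h : Appr X r N L H) {x y : Plane} (hx : x ∈ X) (hy : y ∈ X) (hxy : H (x - y) = 0) :
    x = y := by
  by_contra hne
  have h1 := h.lower hx hy
  have h2 := h.sep x hx y hy hne
  have h3 : ‖io (H (x - y))‖ = 0 := by
    rw [hxy]
    have : io 0 = 0 := by apply plane_ext <;> simp [io]
    rw [this, norm_zero]
  rw [h3] at h1
  linarith

/-- Every lattice point is near the image of `X`. -/
theorem near (h : Appr X r N L H) {x0 : Plane} (hx0 : x0 ∈ X) (z : ℤ × ℤ) :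
    ∃ x ∈ X, ‖io (z - H (x - x0))‖ ≤ 2 * (N * r) := by
  classical
  set P : ℕ → Prop := fun n => ∃ x ∈ X,
    ((z - H (x - x0)).1 ^ 2 + (z - H (x - x0)).2 ^ 2).toNat = n with hP
  have hex : ∃ n, P n := ⟨_, x0, hx0, rfl⟩
  obtain ⟨x, hx, hxn⟩ := Nat.find_spec hex
  refine ⟨x, hx, ?_⟩
  by_contra hlt
  push Not at hlt
  have hNr := h.Nr
  have hr := h.rpos
  have hN := h.Npos
  set w := io (z - H (x - x0)) with hw
  have hwpos : 0 < ‖w‖ := by linarith
  set c := 2 * r / ‖w‖ with hc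
  have hc0 : 0 < c := by positivity
  have hcr : c * ‖w‖ = 2 * r := by rw [hc]; field_simp
  obtain ⟨x', hx', hd⟩ := h.dense (x + c • w)
  rw [dist_eq_norm] at hd
  have e1 : ‖x' - x‖ ≤ 3 * r := by
    calc ‖x' - x‖ = ‖c • w - (x + c • w - x')‖ := by congr 1; abel
      _ ≤ ‖c • w‖ + ‖x + c • w - x'‖ := norm_sub_le _ _
      _ ≤ 2 * r + r := by
          rw [norm_smul, Real.norm_of_nonneg hc0.le, hcr]; linarith
      _ = 3 * r := by ring
  have q := h.approx x' hx' x hx (by linarith)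
  have hadd : H (x' - x0) = H (x' - x) + H (x - x0) := by
    rw [← h.add _ (h.mem hx' hx) _ (h.mem hx hx0)]
    congr 1; abel
  have hlen : ‖io (z - H (x' - x0))‖ < ‖w‖ := by
    have e : io (z - H (x' - x0)) = (1 - N * c) • w + N • (x + c • w - x') -
        (io (H (x' - x)) - N • (x' - x)) := by
      rw [hw, hadd, io_sub, io_add, io_sub, sub_smul, one_smul, mul_smul]
      simp only [smul_sub, smul_add]
      abel
    have hNc : N * c ≤ 1 := by
      rw [hc, ← mul_div_assoc, div_le_one hwpos]; linarith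
    calc ‖io (z - H (x' - x0))‖ ≤ ‖(1 - N * c) • w‖ + ‖N • (x + c • w - x')‖ +
          ‖io (H (x' - x)) - N • (x' - x)‖ := by
            rw [e]
            exact (norm_sub_le _ _).trans (add_le_add (norm_add_le _ _) le_rfl)
      _ ≤ (‖w‖ - 2 * (N * r)) + N * r + 1 / 100 := by
          rw [norm_smul, norm_smul, Real.norm_of_nonneg (by linarith), Real.norm_of_nonneg hN.le,
            sub_mul, one_mul, mul_assoc, hcr]
          have := mul_le_mul_of_nonneg_left hd hN.le
          linarith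
      _ < ‖w‖ := by linarith
  have hsq : ∀ v : ℤ × ℤ, ‖io v‖ ^ 2 = ((v.1 ^ 2 + v.2 ^ 2 : ℤ) : ℝ) := by
    intro v
    rw [EuclideanSpace.norm_eq, Real.sq_sqrt (by positivity), Fin.sum_univ_two]
    simp [io]
  have hlt2 : ((z - H (x' - x0)).1 ^ 2 + (z - H (x' - x0)).2 ^ 2 : ℤ) <
      ((z - H (x - x0)).1 ^ 2 + (z - H (x - x0)).2 ^ 2) := by
    have h1 : ‖io (z - H (x' - x0))‖ ^ 2 < ‖w‖ ^ 2 :=
      pow_lt_pow_left₀ hlen (norm_nonneg _) two_ne_zero
    rw [hw, hsq, hsq] at h1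
    exact_mod_cast h1
  have := Nat.find_min' hex ⟨x', hx', rfl⟩
  rw [← hxn] at this
  have nn := add_nonneg (sq_nonneg (z - H (x' - x0)).1) (sq_nonneg (z - H (x' - x0)).2)
  omega

/-- The set of admissible corrections at `z`. -/
def G (X : Set Plane) (r N : ℝ) (H : Plane → ℤ × ℤ) (x0 : Plane) (z : ℤ × ℤ) : Set (ℤ × ℤ) :=
  {a | ‖io a‖ ≤ 2 * (N * r) ∧ ∃ x ∈ X, H (x - x0) = z + a}

theorem G_nonempty (h : Appr X r N L H) {x0 : Plane} (hx0 : x0 ∈ X) (z : ℤ × ℤ) :
    (G X r N H x0 z).Nonempty := by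
  obtain ⟨x, hx, hn⟩ := h.near hx0 z
  refine ⟨H (x - x0) - z, ?_, x, hx, by abel⟩
  rw [io_sub, norm_sub_rev, ← io_sub]
  exact hn

open Classical in
/-- The chosen element of a set. -/
noncomputable def pick {α : Type*} [Inhabited α] (S : Set α) : α :=
  if hS : S.Nonempty then hS.some else default

theorem pick_mem {α : Type*} [Inhabited α] {S : Set α} (hS : S.Nonempty) : pick S ∈ S := by
  unfold pick
  rw [dif_pos hS]
  exact hS.some_mem

/-- The grid. -/
noncomputable def F (X : Set Plane) (r N : ℝ) (H : Plane → ℤ × ℤ) (x0 : Plane) (z : ℤ × ℤ) : Plane :=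
  pick {x | x ∈ X ∧ H (x - x0) = z + pick (G X r N H x0 z)} - N⁻¹ • io (pick (G X r N H x0 z))

theorem F_spec (h : Appr X r N L H) {x0 : Plane} (hx0 : x0 ∈ X) (z : ℤ × ℤ) :
    ∃ x ∈ X, ‖io (pick (G X r N H x0 z))‖ ≤ 2 * (N * r) ∧
      H (x - x0) = z + pick (G X r N H x0 z) ∧
      F X r N H x0 z = x - N⁻¹ • io (pick (G X r N H x0 z)) := by
  obtain ⟨h1, h2⟩ := pick_mem (h.G_nonempty hx0 z)
  have h3 : {x | x ∈ X ∧ H (x - x0) = z + pick (G X r N H x0 z)}.Nonempty := h2
  exact ⟨_, (pick_mem h3).1, h1, (pick_mem h3).2, rfl⟩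

theorem close (h : Appr X r N L H) {x0 x y : Plane} (hx0 : x0 ∈ X) (hx : x ∈ X) (hy : y ∈ X)
    (hxy : ‖io (H (x - x0) - H (y - x0))‖ ≤ 4 * (N * r) + 1) : ‖x - y‖ ≤ 5 * r := by
  have hNr := h.Nr
  have hN := h.Npos
  have e : H (x - y) = H (x - x0) - H (y - x0) := by
    rw [eq_sub_iff_add_eq, ← h.add _ (h.mem hx hy) _ (h.mem hy hx0)]
    congr 1; abel
  have h1 := h.lower hx hy
  rw [e] at h1
  have h2 : N * ‖x - y‖ ≤ N * (5 * r) := by linarith
  exact le_of_mul_le_mul_left h2 hN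

theorem step (h : Appr X r N L H) {x0 : Plane} (hx0 : x0 ∈ X) (z e : ℤ × ℤ) (he : ‖io e‖ ≤ 1) :
    ‖N • F X r N H x0 (z + e) - N • F X r N H x0 z - io e‖ ≤ 1 / 100 := by
  have hN := h.Npos
  obtain ⟨x, hx, b1, h1, F1⟩ := h.F_spec hx0 z
  obtain ⟨x', hx', b2, h2, F2⟩ := h.F_spec hx0 (z + e)
  set a := pick (G X r N H x0 z)
  set a' := pick (G X r N H x0 (z + e))
  have hdiff : H (x' - x0) - H (x - x0) = e + a' - a := by rw [h1, h2]; abel
  have hcl : ‖x' - x‖ ≤ 5 * r := by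
    apply h.close hx0 hx' hx
    rw [hdiff, io_sub, io_add]
    calc ‖io e + io a' - io a‖ ≤ ‖io e‖ + ‖io a'‖ + ‖io a‖ :=
          (norm_sub_le _ _).trans (add_le_add (norm_add_le _ _) le_rfl)
      _ ≤ _ := by linarith
  have hr := h.rpos
  have q := h.approx x' hx' x hx (by linarith)
  have e1 : H (x' - x) = H (x' - x0) - H (x - x0) := by
    rw [eq_sub_iff_add_eq, ← h.add _ (h.mem hx' hx) _ (h.mem hx hx0)]
    congr 1; abel
  rw [e1, hdiff] at q
  rw [F1, F2]
  have e2 : N • (x' - N⁻¹ • io a') - N • (x - N⁻¹ • io a) - io e =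
      -(io (e + a' - a) - N • (x' - x)) := by
    rw [io_sub, io_add]
    simp only [smul_sub, smul_smul, mul_inv_cancel₀ hN.ne', one_smul]
    abel
  rw [e2, norm_neg]
  exact q

/-- Equivariance. -/
theorem equi (h : Appr X r N L H) {x0 : Plane} (hx0 : x0 ∈ X) {x y : Plane}
    (hxy : ∀ v : Plane, ‖v‖ ≤ 20 * r → (x + v ∈ X ↔ y + v ∈ X)) {z : ℤ × ℤ}
    (hz : ‖F X r N H x0 z - x‖ ≤ r) :
    F X r N H x0 (z + H (y - x)) = F X r N H x0 z + (y - x) := by
  have hr := h.rpos
  have hN := h.Npos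
  have hNr := h.Nr
  -- the translation vector is in `L`
  obtain ⟨x1, hx1, hd1⟩ := h.dense x
  rw [dist_eq_norm] at hd1
  have hx1' : x1 + (y - x) ∈ X := by
    have := (hxy (x1 - x) (by rw [norm_sub_rev]; linarith)).mp (by simpa using hx1)
    convert this using 1
    abel
  have ht : y - x ∈ L := by
    have := h.mem hx1' hx1
    simpa using this
  have hHt : ∀ p ∈ X, p + (y - x) ∈ X → H (p + (y - x) - x0) = H (p - x0) + H (y - x) := by
    intro p hp hp'
    rw [← h.add _ (h.mem hp hx0) _ ht]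
    congr 1; abel
  have htr : ∀ p : Plane, ‖p - x‖ ≤ 20 * r → (p ∈ X ↔ p + (y - x) ∈ X) := by
    intro p hp
    have := hxy (p - x) hp
    rwa [add_sub_cancel, show y + (p - x) = p + (y - x) by abel] at this
  obtain ⟨xz, hxz, b1, h1, F1⟩ := h.F_spec hx0 z
  set a := pick (G X r N H x0 z) with ha
  have hxzx : ‖xz - x‖ ≤ 3 * r := by
    have e : xz - x = (F X r N H x0 z - x) + N⁻¹ • io a := by rw [F1]; abel
    rw [e]
    refine (norm_add_le _ _).trans ?_
    rw [norm_smul, Real.norm_of_nonneg (inv_pos.mpr hN).le]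
    have : N⁻¹ * ‖io a‖ ≤ 2 * r := by
      rw [inv_mul_le_iff₀ hN]; linarith
    linarith
  have hxz' : xz + (y - x) ∈ X := (htr xz (by linarith)).mp hxz
  have hG : G X r N H x0 (z + H (y - x)) = G X r N H x0 z := by
    ext b
    constructor
    · rintro ⟨hb, p, hp, hpb⟩
      refine ⟨hb, p - (y - x), ?_, ?_⟩
      · have hcl : ‖p - (xz + (y - x))‖ ≤ 5 * r := by
          apply h.close hx0 hp hxz'
          rw [hHt xz hxz hxz', h1, hpb]
          calc ‖io (z + H (y - x) + b - (z + a + H (y - x)))‖ = ‖io b - io a‖ := by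
                rw [← io_sub]; congr 2; abel
            _ ≤ _ := (norm_sub_le _ _).trans (by linarith)
        rw [htr _ _]
        · simpa using hp
        · calc ‖p - (y - x) - x‖ = ‖(p - (xz + (y - x))) + (xz - x)‖ := by congr 1; abel
            _ ≤ 5 * r + 3 * r := (norm_add_le _ _).trans (add_le_add hcl hxzx)
            _ ≤ _ := by linarith
      · have e : H (p - (y - x) - x0) + H (y - x) = H (p - x0) := by
          have m : p - (y - x) - x0 ∈ L := by
            have := L.sub_mem (h.mem hp hx0) ht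
            rwa [show p - x0 - (y - x) = p - (y - x) - x0 by abel] at this
          rw [← h.add _ m _ ht]
          congr 1; abel
        rw [hpb] at e
        have := eq_sub_iff_add_eq.mpr e
        rw [this]; abel
    · rintro ⟨hb, p, hp, hpb⟩
      have hcl : ‖p - xz‖ ≤ 5 * r := by
        apply h.close hx0 hp hxz
        rw [h1, hpb]
        calc ‖io (z + b - (z + a))‖ = ‖io b - io a‖ := by
              rw [← io_sub]; congr 2; abel
          _ ≤ _ := (norm_sub_le _ _).trans (by linarith)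
      have hp' : p + (y - x) ∈ X := by
        rw [← htr _ _]
        · exact hp
        · calc ‖p - x‖ = ‖(p - xz) + (xz - x)‖ := by congr 1; abel
            _ ≤ 5 * r + 3 * r := (norm_add_le _ _).trans (add_le_add hcl hxzx)
            _ ≤ _ := by linarith
      refine ⟨hb, p + (y - x), hp', ?_⟩
      rw [hHt p hp hp', hpb]; abel
  obtain ⟨xs, hxs, b2, h2, F2⟩ := h.F_spec hx0 (z + H (y - x))
  rw [hG, ← ha] at h2 F2
  have hxs' : xs = xz + (y - x) := by
    apply h.inj hxs hxz'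
    have e : H (xs - (xz + (y - x))) = H (xs - x0) - H (xz + (y - x) - x0) := by
      rw [eq_sub_iff_add_eq, ← h.add _ (h.mem hxs hxz') _ (h.mem hxz' hx0)]
      congr 1; abel
    rw [e, h2, hHt xz hxz hxz', h1]; abel
  rw [F2, F1, hxs']
  abel

end Appr

/-- A point set of finite type gives an equivariant perturbed grid. -/
theorem exists_grid {X : Set Plane} (hX : FiniteTypeDense X) :
    ∃ (N : ℝ) (F : ℤ × ℤ → Plane) (R : ℝ), 0 < N ∧ 0 < R ∧ NearGrid (fun i j => N • F (i, j)) ∧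
      ∀ x y : Plane, (∀ v : Plane, ‖v‖ ≤ R → (x + v ∈ X ↔ y + v ∈ X)) →
        ∃ s : ℤ × ℤ, ∀ z, ‖F z - x‖ ≤ 5 / N → F (z + s) = F z + (y - x) := by
  obtain ⟨r, N, L, H, h⟩ := exists_appr hX
  obtain ⟨x0, hx0, -⟩ := h.dense 0
  have hr := h.rpos
  have hN := h.Npos
  have hNr := h.Nr
  refine ⟨N, Appr.F X r N H x0, 20 * r, hN, by positivity, ⟨?_, ?_⟩, ?_⟩
  · intro i j
    have := h.step hx0 (i, j) (1, 0) (by
      refine (norm_le_coords _).trans ?_
      simp [io])
    have e : io (1, 0) = pt 1 0 := by apply plane_ext <;> simp [io]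
    rw [e] at this
    simp only [Prod.mk_add_mk, add_zero] at this
    linarith
  · intro i j
    have := h.step hx0 (i, j) (0, 1) (by
      refine (norm_le_coords _).trans ?_
      simp [io])
    have e : io (0, 1) = pt 0 1 := by apply plane_ext <;> simp [io]
    rw [e] at this
    simp only [Prod.mk_add_mk, add_zero] at this
    linarith
  · intro x y hxy
    refine ⟨H (y - x), fun z hz => h.equi hx0 hxy (hz.trans ?_)⟩
    rw [div_le_iff₀ hN]
    linarith

end Pool.Agent.helper97.Tiling
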