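import Mathlib
import Pool.Agent.helper97.Tiling.Quads
import Pool.Agent.helper97.Tiling.Alg
import Pool.Agent.helper97.Tiling.Patch

/-! # The coloured grid tiling is mutually locally derivable with `T` -/

namespace Pool.Agent.helper97.Tiling

open Set Metric

variable {C : Type}

/-- The perturbed grid given by a function on the lattice. -/
def gr (N : ℝ) (F : ℤ × ℤ → Plane) : ℤ → ℤ → Plane := fun i j => N • F (i, j)

theorem psi_corner {f : ℤ → ℤ → Plane} (i j : ℤ) : Psi f (pt i j) = f i j := by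
  have := psi_vert f (i := i) (j := j) (y := j) le_rfl (by simp)
  rw [this]
  simp

theorem corner_close {N : ℝ} {F : ℤ × ℤ → Plane} (hf : NearGrid (gr N F)) (hN : 0 < N)
    {z : ℤ × ℤ} {P : Plane} (hP : P ∈ tl N (gr N F) z) {k l : ℤ} (hk : k = z.1 ∨ k = z.1 + 1)
    (hl : l = z.2 ∨ l = z.2 + 1) : ‖F (k, l) - P‖ ≤ 5 / N := by
  obtain ⟨p, rfl⟩ := (theta hf hN).surjective P
  rw [theta_mem_iff hf hN] at hP
  obtain ⟨a, b, c, d⟩ := hP
  have h0 : |p 0 - k| ≤ 1 := by
    rw [abs_le]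
    rcases hk with rfl | rfl <;> push_cast <;> constructor <;> linarith
  have h1 : |p 1 - l| ≤ 1 := by
    rw [abs_le]
    rcases hl with rfl | rfl <;> push_cast <;> constructor <;> linarith
  have h2 := hf.psi_approx p (pt k l)
  rw [pt_zero, pt_one, psi_corner] at h2
  have h3 : ‖p - pt k l‖ ≤ 2 := by
    refine (norm_le_coords _).trans ?_
    simp only [PiLp.sub_apply, pt_zero, pt_one]
    linarith
  have h4 : ‖Psi (gr N F) p - gr N F k l‖ ≤ 5 := by
    calc ‖Psi (gr N F) p - gr N F k l‖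
        = ‖(Psi (gr N F) p - gr N F k l - (p - pt k l)) + (p - pt k l)‖ := by congr 1; abel
      _ ≤ _ := norm_add_le _ _
      _ ≤ 5 := by linarith
  have h5 : Psi (gr N F) p - gr N F k l = N • (theta hf hN p - F (k, l)) := by
    rw [smul_sub, smul_theta]
    rfl
  rw [h5, norm_smul, Real.norm_of_nonneg hN.le] at h4
  rw [norm_sub_rev, le_div_iff₀ hN, mul_comm]
  exact h4

theorem tl_diam {N : ℝ} {F : ℤ × ℤ → Plane} (hf : NearGrid (gr N F)) (hN : 0 < N)
    {z : ℤ × ℤ} {P Q : Plane} (hP : P ∈ tl N (gr N F) z) (hQ : Q ∈ tl N (gr N F) z) :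
    ‖P - Q‖ ≤ 10 / N := by
  have h1 := corner_close hf hN hP (Or.inl rfl) (Or.inl rfl)
  have h2 := corner_close hf hN hQ (Or.inl rfl) (Or.inl rfl)
  calc ‖P - Q‖ = ‖(F (z.1, z.2) - Q) - (F (z.1, z.2) - P)‖ := by congr 1; abel
    _ ≤ _ := norm_sub_le _ _
    _ ≤ 10 / N := by
      have : 10 / N = 5 / N + 5 / N := by ring
      linarith

theorem lamV_shift (f g : ℤ → ℤ → Plane) {i j k l : ℤ} (w P : Plane)
    (h0 : g k l = f i j + w) (h1 : g k (l + 1) = f i (j + 1) + w) :
    lamV g k l (P + w) = lamV f i j P := by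
  unfold lamV
  rw [h0, h1]
  simp only [PiLp.sub_apply, PiLp.add_apply]
  ring

theorem lamH_shift (f g : ℤ → ℤ → Plane) {i j k l : ℤ} (w P : Plane)
    (h0 : g k l = f i j + w) (h1 : g (k + 1) l = f (i + 1) j + w) :
    lamH g k l (P + w) = lamH f i j P := by
  unfold lamH
  rw [h0, h1]
  simp only [PiLp.sub_apply, PiLp.add_apply]
  ring

theorem tl_shift {N : ℝ} {F : ℤ × ℤ → Plane} {z s : ℤ × ℤ} {t : Plane}
    (h : ∀ k l : ℤ, (k = z.1 ∨ k = z.1 + 1) → (l = z.2 ∨ l = z.2 + 1) →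
      F ((k, l) + s) = F (k, l) + t) :
    tl N (gr N F) (z + s) = (fun p => t + p) '' tl N (gr N F) z := by
  have e00 : gr N F (z.1 + s.1) (z.2 + s.2) = gr N F z.1 z.2 + N • t := by
    have := h z.1 z.2 (Or.inl rfl) (Or.inl rfl)
    unfold gr
    rw [← smul_add, ← this]; rfl
  have e10 : gr N F (z.1 + s.1 + 1) (z.2 + s.2) = gr N F (z.1 + 1) z.2 + N • t := by
    have := h (z.1 + 1) z.2 (Or.inr rfl) (Or.inl rfl)
    unfold gr
    rw [← smul_add, ← this, add_right_comm]; rfl
  have e01 : gr N F (z.1 + s.1) (z.2 + s.2 + 1) = gr N F z.1 (z.2 + 1) + N • t := by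
    have := h z.1 (z.2 + 1) (Or.inl rfl) (Or.inr rfl)
    unfold gr
    rw [← smul_add, ← this, add_right_comm z.2]; rfl
  have e11 : gr N F (z.1 + s.1 + 1) (z.2 + s.2 + 1) = gr N F (z.1 + 1) (z.2 + 1) + N • t := by
    have := h (z.1 + 1) (z.2 + 1) (Or.inr rfl) (Or.inr rfl)
    unfold gr
    rw [← smul_add, ← this, add_right_comm z.1, add_right_comm z.2]; rfl
  ext P
  rw [mem_shift]
  change N • P ∈ quad (gr N F) (z.1 + s.1) (z.2 + s.2) ↔ N • (-t + P) ∈ quad (gr N F) z.1 z.2
  unfold quad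
  rw [mem_ofPred_eq, mem_ofPred_eq]
  have eP : N • P = N • (-t + P) + N • t := by rw [← smul_add]; congr 1; abel
  rw [eP, lamV_shift (gr N F) (gr N F) (N • t) _ e00 e01,
    lamV_shift (gr N F) (gr N F) (N • t) _ e10 e11,
    lamH_shift (gr N F) (gr N F) (N • t) _ e00 e10,
    lamH_shift (gr N F) (gr N F) (N • t) _ e01 e11]

/-- The colour of the tile `z`. -/
noncomputable def col (T : Set (Tile C)) (K : Set Plane) : Set (Tile C) :=
  move (-(ref K)) (patch T K)

/-- The coloured tile with index `z`. -/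
noncomputable def ct (N : ℝ) (F : ℤ × ℤ → Plane) (T : Set (Tile C)) (z : ℤ × ℤ) :
    Tile (Set (Tile C)) := (tl N (gr N F) z, col T (tl N (gr N F) z))

/-- The coloured grid tiling. -/
noncomputable def gt (N : ℝ) (F : ℤ × ℤ → Plane) (T : Set (Tile C)) : Set (Tile (Set (Tile C))) :=
  range (ct N F T)

theorem tl_nonempty {f : ℤ → ℤ → Plane} (hf : NearGrid f) {N : ℝ} (hN : 0 < N) (z : ℤ × ℤ) :
    (tl N f z).Nonempty := (isPolygon_tl hf hN z).1

theorem mem_patch_zero {T : Set (Tile C)} {x : Plane} {t : Tile C} :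
    t ∈ patch (move (-x) T) {0} ↔ ∃ s ∈ T, x ∈ s.1 ∧ t = tmv (-x) s := by
  unfold patch
  rw [mem_ofPred_eq, mem_move, neg_neg, inter_singleton_nonempty]
  constructor
  · rintro ⟨h1, h2⟩
    refine ⟨_, h1, ?_, ?_⟩
    · change x ∈ (fun p => x + p) '' t.1
      rw [mem_shift, neg_add_cancel]
      exact h2
    · rw [tmv_tmv, neg_add_cancel, tmv_zero]
  · rintro ⟨s, hs, hx, rfl⟩
    rw [tmv_tmv, add_neg_cancel, tmv_zero]
    refine ⟨hs, ?_⟩
    change (0 : Plane) ∈ (fun p => -x + p) '' s.1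
    rw [mem_shift, neg_neg, add_zero]
    exact hx

theorem derivable_forward {N : ℝ} {F : ℤ × ℤ → Plane} {R R0 : ℝ} {X : Set Plane}
    {T : Set (Tile C)} (hf : NearGrid (gr N F)) (hN : 0 < N) (hR : 0 < R) (hR0 : 0 < R0)
    (hX : ∀ x y : Plane, Agree T R0 x y → (x ∈ X ↔ y ∈ X))
    (heq : ∀ x y : Plane, (∀ v : Plane, ‖v‖ ≤ R → (x + v ∈ X ↔ y + v ∈ X)) →
        ∃ s : ℤ × ℤ, ∀ z, ‖F z - x‖ ≤ 5 / N → F (z + s) = F z + (y - x))
    {x y : Plane} (hxy : Agree T (R + R0 + 10 / N + 1) x y) :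
    patch (move (-x) (gt N F T)) {0} ⊆ patch (move (-y) (gt N F T)) {0} := by
  intro t ht
  rw [mem_patch_zero] at ht ⊢
  obtain ⟨_, ⟨z, rfl⟩, hx, rfl⟩ := ht
  have hN10 : 0 < 10 / N := by positivity
  obtain ⟨s, hs⟩ := heq x y (fun v hv => hX _ _ (hxy.shift (by linarith)))
  change x ∈ tl N (gr N F) z at hx
  have htl : tl N (gr N F) (z + s) = (fun p => (y - x) + p) '' tl N (gr N F) z :=
    tl_shift (fun k l hk hl => hs _ (corner_close hf hN hx hk hl))
  have hball : tl N (gr N F) z ⊆ ball x (R + R0 + 10 / N + 1) := by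
    intro P hP
    rw [mem_ball, dist_eq_norm]
    have := tl_diam hf hN hP hx
    linarith
  have hcol : col T (tl N (gr N F) (z + s)) = col T (tl N (gr N F) z) := by
    unfold col
    rw [htl, hxy.patch_shift hball, ref_shift _ (tl_nonempty hf hN z) (isCompact_tl hf hN z).isBounded,
      move_move]
    congr 1
    abel
  refine ⟨_, ⟨z + s, rfl⟩, ?_, ?_⟩
  · change y ∈ tl N (gr N F) (z + s)
    rw [htl, mem_shift]
    convert hx using 1
    abel
  · unfold ct tmv
    simp only
    rw [hcol, htl, shift_shift]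
    congr 3
    funext p
    abel

theorem derivable_backward {N : ℝ} {F : ℤ × ℤ → Plane} {T : Set (Tile C)}
    (hf : NearGrid (gr N F)) (hN : 0 < N) {x y : Plane}
    (hxy : patch (move (-x) (gt N F T)) (ball 0 1) = patch (move (-y) (gt N F T)) (ball 0 1)) :
    patch (move (-x) T) {0} = patch (move (-y) T) {0} := by
  obtain ⟨z, hz⟩ := iUnion_tl hf hN x
  have h1 : tmv (-x) (ct N F T z) ∈ patch (move (-x) (gt N F T)) {0} :=
    mem_patch_zero.mpr ⟨_, ⟨z, rfl⟩, hz, rfl⟩
  have hsub : ({0} : Set Plane) ⊆ ball 0 1 := by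
    rw [singleton_subset_iff]; exact mem_ball_self one_pos
  rw [← patch_patch _ hsub, hxy, patch_patch _ hsub, mem_patch_zero] at h1
  obtain ⟨_, ⟨w, rfl⟩, hw, hzw⟩ := h1
  have htile : (fun p => -x + p) '' tl N (gr N F) z = (fun p => -y + p) '' tl N (gr N F) w :=
    congrArg Prod.fst hzw
  have hcol : col T (tl N (gr N F) z) = col T (tl N (gr N F) w) := congrArg Prod.snd hzw
  change y ∈ tl N (gr N F) w at hw
  have hrefs := congrArg ref htile
  rw [ref_shift _ (tl_nonempty hf hN z) (isCompact_tl hf hN z).isBounded,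
    ref_shift _ (tl_nonempty hf hN w) (isCompact_tl hf hN w).isBounded] at hrefs
  have key : move (-x) (patch T (tl N (gr N F) z)) = move (-y) (patch T (tl N (gr N F) w)) := by
    have h2 := congrArg (move (-x + ref (tl N (gr N F) z))) hcol
    unfold col at h2
    rw [move_move, move_move] at h2
    rw [hrefs] at h2
    rw [show -y + ref (tl N (gr N F) w) + -ref (tl N (gr N F) w) = -y by abel] at h2
    rw [← h2]
    congr 1
    rw [← hrefs]
    abel
  have aux : ∀ (u : Plane) (q : ℤ × ℤ), u ∈ tl N (gr N F) q →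
      patch (move (-u) T) {0} = patch (move (-u) (patch T (tl N (gr N F) q))) {0} := by
    intro u q hu
    rw [patch_move, patch_move, neg_neg, patch_patch]
    rw [image_singleton, add_zero, singleton_subset_iff]
    exact hu
  rw [aux x z hz, aux y w hw, key]

theorem ct_injective {N : ℝ} {F : ℤ × ℤ → Plane} {T : Set (Tile C)}
    (hf : NearGrid (gr N F)) (hN : 0 < N) : Function.Injective (ct N F T) := by
  intro z w h
  exact tl_injective hf hN (congrArg Prod.fst h)

theorem isPolygonalTiling_gt {N : ℝ} {F : ℤ × ℤ → Plane} (T : Set (Tile C))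
    (hf : NearGrid (gr N F)) (hN : 0 < N) : IsPolygonalTiling (gt N F T) where
  countable := countable_range _
  nonempty := by
    rintro _ ⟨z, rfl⟩
    exact tl_nonempty hf hN z
  closed := by
    rintro _ ⟨z, rfl⟩
    exact (isCompact_tl hf hN z).isClosed
  cover := by
    rw [eq_univ_iff_forall]
    intro P
    obtain ⟨z, hz⟩ := iUnion_tl hf hN P
    exact mem_iUnion₂.mpr ⟨_, ⟨z, rfl⟩, hz⟩
  disjoint := by
    rintro _ ⟨z, rfl⟩ _ ⟨w, rfl⟩ hzw
    exact disjoint_interior_tl hf hN (fun h => hzw (by rw [h]))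
  polygon := by
    rintro _ ⟨z, rfl⟩
    exact isPolygon_tl hf hN z

theorem adjacent_iff {N : ℝ} {F : ℤ × ℤ → Plane} {T : Set (Tile C)}
    (hf : NearGrid (gr N F)) (hN : 0 < N) (z w : ℤ × ℤ) :
    Adjacent (ct N F T z) (ct N F T w) ↔ |z.1 - w.1| + |z.2 - w.2| = 1 := by
  constructor
  · rintro ⟨hne, e, h1, h2⟩
    have hzw : z ≠ w := fun h => hne (by rw [h])
    apply tl_inter hf hN _ hzw
    have s1 : e ⊆ tl N (gr N F) z := by
      obtain ⟨-, a, b, -, -, rfl⟩ := h1
      exact sep_subset _ _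
    have s2 : e ⊆ tl N (gr N F) w := by
      obtain ⟨-, a, b, -, -, h⟩ := h2
      rw [h]
      exact sep_subset _ _
    exact h1.1.mono (subset_inter s1 s2)
  · intro h
    obtain ⟨e, h1, h2⟩ := share_edge hf hN h
    refine ⟨?_, e, h1, h2⟩
    intro heq
    have := ct_injective hf hN heq
    rw [this] at h
    simp at h

theorem finsum_eq_of_bijective_aux {p : Prop} (hp : p) {a : ℂ} : ∑ᶠ (_ : p), a = a := by
  simp [hp]

/-- No locally supported eigenfunction when the graph is the square lattice. -/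
theorem no_eigen {C' : Type} {T' : Set (Tile C')} (e : ℤ × ℤ ≃ T')
    (he : ∀ z w : ℤ × ℤ, Adjacent (e z).1 (e w).1 ↔ |z.1 - w.1| + |z.2 - w.2| = 1) :
    ¬ HasLocallySupportedEigenfunction T' := by
  rintro ⟨ψ, hψ, hfin, E, hE⟩
  set g : ℤ × ℤ → ℂ := fun z => ψ (e z) with hg
  have hgfin : (Function.support g).Finite := by
    have : Function.support g = e ⁻¹' Function.support ψ := rfl
    rw [this]
    exact hfin.preimage e.injective.injOn
  have hgne : (Function.support g).Nonempty := by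
    rw [Function.support_nonempty_iff]
    intro h
    apply hψ
    funext t
    have := congrFun h (e.symm t)
    simpa [hg] using this
  obtain ⟨z0, hz0, hmax⟩ := Set.exists_max_image (Function.support g)
    (fun z => (toLex z : ℤ ×ₗ ℤ)) hgfin hgne
  have hzero : ∀ z : ℤ × ℤ, (z0.1 < z.1 ∨ (z0.1 = z.1 ∧ z0.2 < z.2)) → g z = 0 := by
    intro z hz
    by_contra hne
    have h1 := hmax z hne
    have h2 : (toLex z0 : ℤ ×ₗ ℤ) < toLex z := by
      rw [Prod.Lex.toLex_lt_toLex]
      exact hz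
    exact absurd h1 (not_le.mpr h2)
  have h1 := hE (e (z0.1 + 1, z0.2))
  have h2 : ψ (e (z0.1 + 1, z0.2)) = 0 := hzero _ (Or.inl (by simp))
  rw [h2, mul_zero] at h1
  unfold laplacian at h1
  rw [finsum_eq_single _ (e z0)] at h1
  · have hadj : Adjacent (e z0).1 (e (z0.1 + 1, z0.2)).1 := by
      rw [he]
      simp
    rw [h2, finsum_eq_of_bijective_aux hadj] at h1
    exact hz0 (by simpa using h1)
  · intro u hu
    by_cases hadj : Adjacent u.1 (e (z0.1 + 1, z0.2)).1
    · obtain ⟨w, rfl⟩ := e.surjective u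
      rw [he] at hadj
      have hw : w ≠ z0 := fun h => hu (by rw [h])
      have hgw : g w = 0 := by
        apply hzero
        simp only at hadj
        have a1 := abs_nonneg (w.1 - (z0.1 + 1))
        have a2 := abs_nonneg (w.2 - z0.2)
        rcases abs_cases (w.1 - (z0.1 + 1)) with ⟨ha, _⟩ | ⟨ha, _⟩ <;>
          rcases abs_cases (w.2 - z0.2) with ⟨hb, _⟩ | ⟨hb, _⟩
        all_goals
          by_contra hcon
          push Not at hcon
          apply hw
          apply Prod.ext <;> omega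
      rw [h2]
      simp only [hg] at hgw
      rw [hgw]
      simp
    · simp [hadj]

end Pool.Agent.helper97.Tiling
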