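import Mathlib
import Pool.Agent.helper97.Tiling.Main

/-! # Main theorems -/

namespace Pool.Agent.helper97.Tiling

open Set Metric

variable {C : Type}

theorem goodMLD_of_points {T : Set (Tile C)} {X : Set Plane} (hX : PointsDerivable X T)
    (hX2 : FiniteTypeDense X) : GoodMLD T := by
  obtain ⟨N, F, R, hN, hR, hf, heq⟩ := exists_grid hX2
  obtain ⟨R0, hR0, hX⟩ := hX
  have hf : NearGrid (gr N F) := hf
  have hN10 : 0 < 10 / N := by positivity
  refine ⟨Set (Tile C), gt N F T, isPolygonalTiling_gt T hf hN, ⟨?_, ?_⟩, ?_,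
    ⟨Equiv.ofInjective _ (ct_injective hf hN), fun z w => adjacent_iff hf hN z w⟩, ?_,
    no_eigen (Equiv.ofInjective _ (ct_injective hf hN)) fun z w => adjacent_iff hf hN z w⟩
  · refine ⟨R + R0 + 10 / N + 1, by positivity, fun x y hxy => ?_⟩
    exact Subset.antisymm (derivable_forward hf hN hR hR0 hX heq hxy)
      (derivable_forward hf hN hR hR0 hX heq hxy.symm)
  · exact ⟨1, one_pos, fun x y hxy => derivable_backward hf hN hxy⟩
  · intro r
    refine ((finite_tl_ball hf hN r).image (ct N F T)).subset ?_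
    rintro _ ⟨⟨z, rfl⟩, hz⟩
    exact ⟨z, hz, rfl⟩
  · rintro _ ⟨z, rfl⟩ _ ⟨w, rfl⟩ hne hnt
    rw [adjacent_iff hf hN]
    exact tl_inter hf hN hnt (fun h => hne (by rw [h]))

theorem isBounded_of_tiling {T : Set (Tile C)} (hT : IsPolygonalTiling T) {t : Tile C} (ht : t ∈ T) :
    Bornology.IsBounded t.1 := (hT.polygon t ht).2.1.isBounded

/-- In a tiling of finite local complexity, all tiles are translates of finitely many tiles. -/
theorem ref_bound {T : Set (Tile C)} (hT : IsPolygonalTiling T) (hF : FiniteLocalComplexity T) :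
    ∃ M > 0, ∀ t ∈ T, ∀ p ∈ t.1, ‖p - ref t.1‖ ≤ M := by
  obtain ⟨S, hS, hSf, hall⟩ := hF 1 one_pos
  -- the set of all tiles in the finitely many patches
  have hfin : (⋃ P ∈ S, P).Finite := hS.biUnion hSf
  have hb : ∀ q : Tile C, ∃ M > 0, Bornology.IsBounded q.1 → ∀ p ∈ q.1, ‖p - ref q.1‖ ≤ M := by
    intro q
    by_cases hq : Bornology.IsBounded q.1
    · obtain ⟨B, hB⟩ := hq.exists_norm_le
      refine ⟨|B| + ‖ref q.1‖ + 1, by positivity, fun _ p hp => ?_⟩
      refine (norm_sub_le _ _).trans ?_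
      have := hB p hp
      have := le_abs_self B
      linarith
    · exact ⟨1, one_pos, fun h => absurd h hq⟩
  choose M hM0 hM using hb
  obtain ⟨M1, hM1⟩ := (hfin.image M).bddAbove
  refine ⟨max M1 1, lt_of_lt_of_le one_pos (le_max_right _ _), ?_⟩
  intro t ht p hp
  obtain ⟨P, hP, v, hv⟩ := hall p
  have htp : t ∈ patch T (ball p 1) := ⟨ht, p, hp, mem_ball_self one_pos⟩
  rw [hv, mem_move] at htp
  set q := tmv (-v) t with hq
  have htq : t = tmv v q := by rw [hq, tmv_tmv, add_neg_cancel, tmv_zero]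
  have hbt := isBounded_of_tiling hT ht
  have hqb : Bornology.IsBounded q.1 := by
    obtain ⟨B, hB⟩ := hbt.exists_norm_le
    rw [isBounded_iff_forall_norm_le]
    refine ⟨B + ‖v‖, ?_⟩
    rintro _ ⟨x, hx, rfl⟩
    refine (norm_add_le _ _).trans ?_
    rw [norm_neg]
    linarith [hB x hx]
  have hqne : q.1.Nonempty := ⟨_, mem_image_of_mem _ hp⟩
  have hreft : ref t.1 = v + ref q.1 := by
    conv_lhs => rw [htq]
    exact ref_shift v hqne hqb
  have hpq : -v + p ∈ q.1 := mem_image_of_mem _ hp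
  have h1 := hM q hqb _ hpq
  have h2 : M q ≤ M1 := hM1 (mem_image_of_mem _ (mem_iUnion₂.mpr ⟨P, hP, htp⟩))
  rw [hreft]
  calc ‖p - (v + ref q.1)‖ = ‖-v + p - ref q.1‖ := by congr 1; abel
    _ ≤ M q := h1
    _ ≤ _ := h2.trans (le_max_left _ _)

theorem points_of_flc {T : Set (Tile C)} (hT : IsPolygonalTiling T) (hF : FiniteLocalComplexity T) :
    ∃ X, PointsDerivable X T ∧ FiniteTypeDense X := by
  obtain ⟨M, hM0, hM⟩ := ref_bound hT hF
  refine ⟨(fun t : Tile C => ref t.1) '' T, ⟨M + 1, by linarith, ?_⟩, ⟨M, ?_⟩, ?_⟩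
  · have key : ∀ x y : Plane, Agree T (M + 1) x y → x ∈ (fun t : Tile C => ref t.1) '' T →
        y ∈ (fun t : Tile C => ref t.1) '' T := by
      rintro _ y hxy ⟨t, ht, rfl⟩
      simp only at hxy
      obtain ⟨p, hp⟩ := hT.nonempty t ht
      have h1 : tmv (-ref t.1) t ∈ patch (move (-ref t.1) T) (ball 0 (M + 1)) := by
        refine ⟨mem_image_of_mem _ ht, -ref t.1 + p, mem_image_of_mem _ hp, ?_⟩
        rw [mem_ball_zero_iff, neg_add_eq_sub]
        linarith [hM t ht p hp]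
      rw [hxy] at h1
      obtain ⟨s, hs, hst⟩ := h1.1
      refine ⟨s, hs, ?_⟩
      have h2 : (fun p => -y + p) '' s.1 = (fun p => -ref t.1 + p) '' t.1 := congrArg Prod.fst hst
      have h3 := congrArg ref h2
      rw [ref_shift _ (hT.nonempty s hs) (isBounded_of_tiling hT hs),
        ref_shift _ (hT.nonempty t ht) (isBounded_of_tiling hT ht), neg_add_cancel] at h3
      exact (neg_add_eq_zero.mp h3).symm
    intro x y hxy
    exact ⟨key x y hxy, key y x (Agree.symm hxy)⟩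
  · intro p
    have hp : p ∈ ⋃ t ∈ T, t.1 := by rw [hT.cover]; trivial
    obtain ⟨t, ht, hpt⟩ := mem_iUnion₂.mp hp
    exact ⟨ref t.1, mem_image_of_mem _ ht, by rw [dist_eq_norm]; exact hM t ht p hpt⟩
  · intro R
    obtain ⟨S, hS, hSf, hall⟩ := hF (|R| + M + 1) (by positivity)
    have hfin : (⋃ P ∈ S, (fun q : Tile C × Tile C => ref q.1.1 - ref q.2.1) '' (P ×ˢ P)).Finite :=
      hS.biUnion fun P hP => ((hSf P hP).prod (hSf P hP)).image _
    refine hfin.subset ?_
    rintro d ⟨_, ⟨t, ht, rfl⟩, _, ⟨s, hs, rfl⟩, rfl, hd⟩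
    simp only at hd ⊢
    obtain ⟨P, hP, v, hv⟩ := hall (ref t.1)
    have mem : ∀ u ∈ T, ‖ref t.1 - ref u.1‖ ≤ |R| → tmv (-v) u ∈ P ∧
        ref (tmv (-v) u).1 = -v + ref u.1 := by
      intro u hu hur
      obtain ⟨p, hp⟩ := hT.nonempty u hu
      refine ⟨?_, ref_shift _ (hT.nonempty u hu) (isBounded_of_tiling hT hu)⟩
      rw [← mem_move, ← hv]
      refine ⟨hu, p, hp, ?_⟩
      rw [mem_ball, dist_eq_norm]
      calc ‖p - ref t.1‖ = ‖(p - ref u.1) - (ref t.1 - ref u.1)‖ := by congr 1; abel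
        _ ≤ ‖p - ref u.1‖ + ‖ref t.1 - ref u.1‖ := norm_sub_le _ _
        _ < _ := by linarith [hM u hu p hp]
    obtain ⟨a1, a2⟩ := mem t ht (by rw [sub_self, norm_zero]; exact abs_nonneg R)
    obtain ⟨b1, b2⟩ := mem s hs (hd.trans (le_abs_self R))
    refine mem_iUnion₂.mpr ⟨P, hP, (tmv (-v) t, tmv (-v) s), ⟨a1, b1⟩, ?_⟩
    simp only
    rw [a2, b2]
    abel

end Pool.Agent.helper97.Tiling
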